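import Mathlib

/-!
# MP_3ade05_lc: the levels and smallness
-/

namespace Pool.MP_3ade05_lc

open Set Cardinal Ordinal

/-- The bound for smallness at level `i`. -/
noncomputable def lam (i : Ordinal.{0}) : Cardinal.{0} := ℶ_ (ω * (i + 1))

/-- The points of level `i`; there are more than `lam i` of them. -/
def Lev (i : Ordinal.{0}) : Type := Set (lam i).out

/-- All points. -/
abbrev X : Type 1 := Σ i : Ordinal.{0}, Lev i

lemma lam_aleph0 (i : Ordinal.{0}) : ℵ₀ ≤ lam i := aleph0_le_beth _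

lemma lam_mono {i j : Ordinal.{0}} (h : i ≤ j) : lam i ≤ lam j := by
  unfold lam
  rw [beth_le_beth]
  gcongr

lemma mk_Lev (i : Ordinal.{0}) : #(Lev i) = 2 ^ lam i := by
  rw [Lev, mk_set, mk_out]

lemma lam_lt (i : Ordinal.{0}) : lam i < #(Lev i) := by
  rw [mk_Lev]
  exact cantor _

lemma le_lam (c : Cardinal.{0}) {i : Ordinal.{0}} (h : c.ord ≤ i) : c ≤ lam i := by
  refine (le_beth_ord c).trans ?_
  unfold lam
  rw [beth_le_beth]
  calc c.ord ≤ i := h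
    _ ≤ i + 1 := le_self_add
    _ ≤ ω * (i + 1) := Ordinal.le_mul_right _ omega0_pos

/-- `2 ^ ℶ_{ω i + 1} ≤ lam i` -/
lemma two_power_le (i : Ordinal.{0}) : (2 : Cardinal.{0}) ^ (ℶ_ (ω * i + 1)) ≤ lam i := by
  rw [← beth_add_one, lam, beth_le_beth, mul_add, mul_one, add_assoc]
  gcongr
  rw [one_add_one_eq_two]
  exact (Ordinal.natCast_lt_omega0 2).le

lemma mk_Lev_le {i j : Ordinal.{0}} (h : j < i) : #(Lev j) ≤ ℶ_ (ω * i + 1) := by
  rw [mk_Lev, lam, ← beth_add_one, beth_le_beth]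
  gcongr
  exact Order.add_one_le_of_lt h

/-- A set of points is small if at each level `l` it has at most `lam l` points. -/
def Sm (A : Set X) : Prop := ∀ l : Ordinal.{0}, #{ξ : Lev l | (⟨l, ξ⟩ : X) ∈ A} ≤ lam l

lemma Sm.mono {A B : Set X} (h : Sm B) (hAB : A ⊆ B) : Sm A := fun l =>
  (mk_le_mk_of_subset (s := {ξ : Lev l | (⟨l, ξ⟩ : X) ∈ A}) (t := {ξ : Lev l | (⟨l, ξ⟩ : X) ∈ B})
    fun _ hξ => hAB hξ).trans (h l)

lemma Sm.union {A B : Set X} (hA : Sm A) (hB : Sm B) : Sm (A ∪ B) := fun l => by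
  have : {ξ : Lev l | (⟨l, ξ⟩ : X) ∈ A ∪ B} =
      {ξ : Lev l | (⟨l, ξ⟩ : X) ∈ A} ∪ {ξ : Lev l | (⟨l, ξ⟩ : X) ∈ B} := rfl
  rw [this]
  exact (mk_union_le _ _).trans (add_le_of_le (lam_aleph0 l) (hA l) (hB l))

lemma Sm.empty : Sm (∅ : Set X) := fun l => by
  have : {ξ : Lev l | (⟨l, ξ⟩ : X) ∈ (∅ : Set X)} = ∅ := rfl
  rw [this]
  simp

lemma Sm.singleton (x : X) : Sm {x} := fun l => by
  have h : {ξ : Lev l | (⟨l, ξ⟩ : X) ∈ ({x} : Set X)}.Subsingleton := by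
    rintro ξ (rfl : _ = x) η h
    have h' : (⟨l, η⟩ : X) = ⟨l, ξ⟩ := h
    exact (eq_of_heq (Sigma.mk.inj h').2).symm
  refine le_trans ?_ (one_le_aleph0.trans (lam_aleph0 l))
  exact mk_le_one_iff_set_subsingleton.2 h

lemma Sm.iUnion {J : Type} {i : Ordinal.{0}} (hJ : ∀ l, i ≤ l → #J ≤ lam l) (A : J → Set X)
    (hA : ∀ j, Sm (A j)) (hl : ∀ j, ∀ x ∈ A j, i ≤ x.1) : Sm (⋃ j, A j) := fun l => by
  by_cases hil : i ≤ l
  · have : {ξ : Lev l | (⟨l, ξ⟩ : X) ∈ ⋃ j, A j} = ⋃ j, {ξ : Lev l | (⟨l, ξ⟩ : X) ∈ A j} := by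
      ext ξ
      simp
    rw [this]
    refine (mk_iUnion_le _).trans ?_
    calc _ ≤ lam l * lam l := mul_le_mul' (hJ l hil) (ciSup_le' fun j => hA j l)
      _ = lam l := mul_eq_self (lam_aleph0 l)
  · have : {ξ : Lev l | (⟨l, ξ⟩ : X) ∈ ⋃ j, A j} = ∅ := by
      ext ξ
      simp only [mem_iUnion, mem_ofPred_eq, mem_empty_iff_false, iff_false, not_exists]
      intro j hj
      exact hil (hl j _ hj)
    rw [this]
    simp

lemma Sm.exists_notMem {A : Set X} (hA : Sm A) (l : Ordinal.{0}) : ∃ ξ : Lev l, (⟨l, ξ⟩ : X) ∉ A := by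
  by_contra hcon
  push Not at hcon
  have : {ξ : Lev l | (⟨l, ξ⟩ : X) ∈ A} = Set.univ := eq_univ_of_forall hcon
  have h := hA l
  rw [this, mk_univ] at h
  exact absurd (lam_lt l) (not_lt.2 h)

/-- The points below level `i`. -/
abbrev XB (i : Ordinal.{0}) : Type 1 := {x : X // x.1 < i}

/-- a code for the points below level `i` -/
lemma exists_surj (i : Ordinal.{0}) :
    ∃ f : (i.ToType × (ℶ_ (ω * i + 1)).out) → XB i, Function.Surjective f := by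
  have h1 : ∀ j : i.ToType, ∃ g : (ℶ_ (ω * i + 1)).out → Lev (ToType.toOrd j : Set.Iio i).1,
      Function.Surjective g := by
    intro j
    have hne : Nonempty (Lev (ToType.toOrd j : Set.Iio i).1) := ⟨(∅ : Set _)⟩
    have hle := mk_Lev_le (mem_Iio.1 (ToType.toOrd j : Set.Iio i).2)
    rw [← mk_out (ℶ_ (ω * i + 1))] at hle
    obtain ⟨e⟩ := hle
    exact ⟨Function.invFun e, Function.invFun_surjective e.injective⟩
  choose g hg using h1
  refine ⟨fun p => ⟨⟨(ToType.toOrd p.1 : Set.Iio i).1, g p.1 p.2⟩, (ToType.toOrd p.1).2⟩, ?_⟩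
  rintro ⟨⟨l, ξ⟩, hl⟩
  obtain ⟨j, hj⟩ : ∃ j : i.ToType, (ToType.toOrd j : Set.Iio i) = ⟨l, hl⟩ :=
    ⟨ToType.mk ⟨l, hl⟩, by simp [ToType.toOrd]⟩
  have hj' : (ToType.toOrd j : Set.Iio i).1 = l := congrArg Subtype.val hj
  subst hj'
  obtain ⟨b, hb⟩ := hg j ξ
  refine ⟨(j, b), ?_⟩
  apply Subtype.ext
  show (⟨_, g j b⟩ : X) = _
  rw [hb]

instance small_XB (i : Ordinal.{0}) : Small.{0} (XB i) := by
  obtain ⟨f, hf⟩ := exists_surj i
  exact small_of_surjective hf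

/-- raw data of local conditions -/
abbrev RawB (i : Ordinal.{0}) : Type 1 := ℕ × (ℕ → Bool) × (ℕ → XB i → Option Bool)

lemma mk_shrink_XB (i : Ordinal.{0}) : #(Shrink.{0} (XB i)) ≤ ℶ_ (ω * i + 1) := by
  obtain ⟨f, hf⟩ := exists_surj i
  have h1 : #(Shrink.{0} (XB i)) ≤ #(i.ToType × (ℶ_ (ω * i + 1)).out) :=
    mk_le_of_surjective (f := fun p => equivShrink _ (f p)) ((equivShrink _).surjective.comp hf)
  refine h1.trans ?_
  rw [mk_prod, Cardinal.lift_id, Cardinal.lift_id, mk_out, mk_toType]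
  have h2 : i.card ≤ ℶ_ (ω * i + 1) := by
    refine (card_le_beth i).trans ?_
    rw [beth_le_beth]
    exact (Ordinal.le_mul_right _ omega0_pos).trans le_self_add
  calc _ ≤ ℶ_ (ω * i + 1) * ℶ_ (ω * i + 1) := mul_le_mul' h2 le_rfl
    _ = _ := mul_eq_self (aleph0_le_beth _)

instance small_RawB (i : Ordinal.{0}) : Small.{0} (RawB i) := inferInstance

lemma mk_shrink_RawB (i : Ordinal.{0}) : #(Shrink.{0} (RawB i)) ≤ lam i := by
  have e : Shrink.{0} (RawB i) ≃ ℕ × (ℕ → Bool) × (ℕ → Shrink.{0} (XB i) → Option Bool) :=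
    (equivShrink (RawB i)).symm.trans (Equiv.prodCongr (Equiv.refl _) (Equiv.prodCongr
      (Equiv.refl _) (Equiv.piCongrRight fun _ => Equiv.arrowCongr (equivShrink _)
        (Equiv.refl _))))
  rw [mk_congr e]
  set κ := ℶ_ (ω * i + 1) with hκ
  have hκ0 : ℵ₀ ≤ κ := aleph0_le_beth _
  have h2κ : ℵ₀ ≤ (2 : Cardinal) ^ κ := hκ0.trans (cantor κ).le
  have hOB : #(Option Bool) ≤ (2 : Cardinal) ^ κ := (mk_le_aleph0).trans h2κ
  have hN : (#ℕ : Cardinal.{0}) ≤ 2 ^ κ := by rw [mk_nat]; exact h2κ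
  have h2ne : (2 : Cardinal.{0}) ^ κ ≠ 0 := (lt_of_lt_of_le aleph0_pos h2κ).ne'
  have hpow : ((2 : Cardinal.{0}) ^ κ) ^ κ = 2 ^ κ := by
    rw [← power_mul, mul_eq_self hκ0]
  have h1 : #(ℕ → Bool) ≤ (2 : Cardinal) ^ κ := by
    rw [mk_arrow, Cardinal.lift_id, Cardinal.lift_id, mk_bool, mk_nat]
    exact power_le_power_left two_ne_zero hκ0
  have h2 : #(ℕ → Shrink.{0} (XB i) → Option Bool) ≤ (2 : Cardinal) ^ κ := by
    rw [mk_arrow, Cardinal.lift_id, Cardinal.lift_id, mk_arrow, Cardinal.lift_id, Cardinal.lift_id, mk_nat]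
    calc (#(Option Bool) ^ #(Shrink.{0} (XB i))) ^ ℵ₀
        ≤ (((2 : Cardinal) ^ κ) ^ #(Shrink.{0} (XB i))) ^ ℵ₀ :=
          power_le_power_right (power_le_power_right hOB)
      _ ≤ (((2 : Cardinal) ^ κ) ^ κ) ^ ℵ₀ :=
          power_le_power_right (power_le_power_left h2ne (mk_shrink_XB i))
      _ ≤ (((2 : Cardinal) ^ κ) ^ κ) ^ κ := by
          rw [hpow]
          exact power_le_power_left h2ne hκ0
      _ = 2 ^ κ := by rw [hpow, hpow]
  rw [mk_prod, mk_prod, Cardinal.lift_id, Cardinal.lift_id, Cardinal.lift_id, Cardinal.lift_id]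
  calc #ℕ * (#(ℕ → Bool) * #(ℕ → Shrink.{0} (XB i) → Option Bool))
      ≤ 2 ^ κ * (2 ^ κ * 2 ^ κ) := mul_le_mul' hN (mul_le_mul' h1 h2)
    _ = 2 ^ κ := by rw [mul_eq_self h2κ, mul_eq_self h2κ]
    _ ≤ lam i := two_power_le i

end Pool.MP_3ade05_lc
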