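import Mathlib.SetTheory.ZFC.Basic
import Mathlib.Data.Fin.VecNotation

/-!
# MP_3ade05_lc: the definitions used in the statement

Everything is about Mathlib's type `ZFSet.{0}` of sets.  A *transitive model* is given by a
transitive `V : Set ZFSet.{0}`, with the true membership relation.
-/

namespace Pool.MP_3ade05_lc

/-- First-order formulas of the language of set theory (`=`, `∈`) with free variables
among `x₀, …, x_{n-1}`.  In `all φ` the new variable bound by the quantifier is `x₀`, the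
free variables of `all φ` being shifted by one inside `φ`. -/
inductive Fml : ℕ → Type
  | bot {n : ℕ} : Fml n
  | eq {n : ℕ} (i j : Fin n) : Fml n
  | mem {n : ℕ} (i j : Fin n) : Fml n
  | imp {n : ℕ} (φ ψ : Fml n) : Fml n
  | all {n : ℕ} (φ : Fml (n + 1)) : Fml n

/-- `Sat E φ v`: the structure `(E, ∈)` satisfies `φ` at the assignment `v`
(quantifiers range over `E`). -/
def Sat (E : Set ZFSet.{0}) : {n : ℕ} → Fml n → (Fin n → ZFSet.{0}) → Prop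
  | _, .bot, _ => False
  | _, .eq i j, v => v i = v j
  | _, .mem i j, v => v i ∈ v j
  | _, .imp φ ψ, v => Sat E φ v → Sat E ψ v
  | _, .all φ, v => ∀ x ∈ E, Sat E φ (Fin.cons x v)

/-- `(E, ∈)` is a model of `ZF`: all axioms of Zermelo–Fraenkel set theory without Choice,
relativised to `E`; Separation and Replacement are the usual first-order schemata with
parameters. -/
structure ZFModel (E : Set ZFSet.{0}) : Prop where
  nonempty : E.Nonempty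
  extensionality : ∀ x ∈ E, ∀ y ∈ E, (∀ z ∈ E, z ∈ x ↔ z ∈ y) → x = y
  foundation : ∀ x ∈ E, (∃ y ∈ E, y ∈ x) → ∃ y ∈ E, y ∈ x ∧ ∀ z ∈ E, z ∈ y → z ∉ x
  pairing : ∀ x ∈ E, ∀ y ∈ E, ∃ z ∈ E, ∀ w ∈ E, w ∈ z ↔ w = x ∨ w = y
  union : ∀ x ∈ E, ∃ u ∈ E, ∀ z ∈ E, z ∈ u ↔ ∃ y ∈ E, y ∈ x ∧ z ∈ y
  power : ∀ x ∈ E, ∃ p ∈ E, ∀ z ∈ E, z ∈ p ↔ ∀ w ∈ E, w ∈ z → w ∈ x
  infinity : ∃ x ∈ E, (∃ e ∈ E, e ∈ x ∧ ∀ z ∈ E, z ∉ e) ∧
    ∀ y ∈ E, y ∈ x → ∃ z ∈ E, z ∈ x ∧ ∀ w ∈ E, w ∈ z ↔ w ∈ y ∨ w = y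
  separation : ∀ (n : ℕ) (φ : Fml (n + 1)) (v : Fin n → ZFSet.{0}), (∀ i, v i ∈ E) →
    ∀ a ∈ E, ∃ b ∈ E, ∀ x ∈ E, x ∈ b ↔ x ∈ a ∧ Sat E φ (Fin.cons x v)
  replacement : ∀ (n : ℕ) (φ : Fml (n + 2)) (v : Fin n → ZFSet.{0}), (∀ i, v i ∈ E) →
    ∀ a ∈ E, (∀ x ∈ E, x ∈ a → ∃! y, y ∈ E ∧ Sat E φ (Fin.cons x (Fin.cons y v))) →
      ∃ b ∈ E, ∀ y ∈ E, y ∈ b ↔ ∃ x ∈ E, x ∈ a ∧ Sat E φ (Fin.cons x (Fin.cons y v))

/-- `(P, le)` is a forcing notion: `le` is a set of ordered pairs which is a preorder of the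
set `P` with a largest element.  Here `ZFSet.pair a b ∈ le` means `a ≤ b`, that is, `a` is
stronger than or equal to `b`. -/
structure IsForcing (P le : ZFSet.{0}) : Prop where
  sub : ∀ x ∈ le, ∃ a ∈ P, ∃ b ∈ P, x = ZFSet.pair a b
  refl : ∀ a ∈ P, ZFSet.pair a a ∈ le
  trans : ∀ a ∈ P, ∀ b ∈ P, ∀ c ∈ P,
    ZFSet.pair a b ∈ le → ZFSet.pair b c ∈ le → ZFSet.pair a c ∈ le
  top : ∃ t ∈ P, ∀ a ∈ P, ZFSet.pair a t ∈ le

/-- `D` is a dense subset of `(P, le)`: every `a ∈ P` has an extension `d ≤ a` in `D`. -/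
def IsDense (P le D : ZFSet.{0}) : Prop :=
  D ⊆ P ∧ ∀ a ∈ P, ∃ d ∈ D, ZFSet.pair d a ∈ le

/-- `G` is a `V`-generic filter on `(P, le)`: a nonempty, upward closed and downward directed
subset of `P` which meets every dense subset of `(P, le)` that belongs to `V`. -/
structure IsGeneric (V : Set ZFSet.{0}) (P le : ZFSet.{0}) (G : Set ZFSet.{0}) : Prop where
  sub : ∀ a ∈ G, a ∈ P
  nonempty : G.Nonempty
  up : ∀ a ∈ G, ∀ b ∈ P, ZFSet.pair a b ∈ le → b ∈ G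
  directed : ∀ a ∈ G, ∀ b ∈ G, ∃ c ∈ G, ZFSet.pair c a ∈ le ∧ ZFSet.pair c b ∈ le
  generic : ∀ D ∈ V, IsDense P le D → ∃ a ∈ G, a ∈ D

/-- The elements `σ` of the domain of the `P`-name `τ` selected by `G`: those with
`(σ, p) ∈ τ` for some `p ∈ G`. -/
def names (G : Set ZFSet.{0}) (τ : ZFSet.{0}) : Set ZFSet.{0} :=
  {σ | ∃ p ∈ G, ZFSet.pair σ p ∈ τ}

instance names_small (G : Set ZFSet.{0}) (τ : ZFSet.{0}) : Small.{0} (names G τ) := by
  have h : ∀ x : names G τ, ∃ p, ZFSet.pair x.1 p ∈ τ := fun x => by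
    obtain ⟨p, _, hp⟩ := x.2
    exact ⟨p, hp⟩
  choose f hf using h
  exact small_of_injective (f := fun x : names G τ => (⟨ZFSet.pair x.1 (f x), hf x⟩ : τ))
    (fun x y hxy => Subtype.ext (ZFSet.pair_injective (congrArg Subtype.val hxy)).1)

lemma names_rel {G : Set ZFSet.{0}} {τ : ZFSet.{0}} (σ : names G τ) :
    Relation.TransGen (· ∈ ·) (σ : ZFSet.{0}) τ := by
  obtain ⟨p, _, hp⟩ := σ.2
  have h1 : (σ : ZFSet.{0}) ∈ ({(σ : ZFSet.{0})} : ZFSet.{0}) := by simp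
  have h2 : ({(σ : ZFSet.{0})} : ZFSet.{0}) ∈ ZFSet.pair (σ : ZFSet.{0}) p := by
    simp [ZFSet.pair]
  have g1 : Relation.TransGen (fun x y : ZFSet.{0} => x ∈ y) (σ : ZFSet.{0})
    {(σ : ZFSet.{0})} := .single h1
  have g2 : Relation.TransGen (fun x y : ZFSet.{0} => x ∈ y) (σ : ZFSet.{0})
    (ZFSet.pair (σ : ZFSet.{0}) p) := .tail g1 h2
  exact .tail g2 hp

/-- The value `τ_G` of the name `τ`: `τ_G = {σ_G | (σ, p) ∈ τ for some p ∈ G}`
(recursion on `∈`). -/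
noncomputable def nameVal (G : Set ZFSet.{0}) : ZFSet.{0} → ZFSet.{0} :=
  (ZFSet.mem_wf.transGen).fix fun τ F =>
    ZFSet.range fun σ : names G τ => F σ (names_rel σ)

/-- The generic extension `V[G] = {τ_G | τ ∈ V}`. -/
def Ext (V : Set ZFSet.{0}) (G : Set ZFSet.{0}) : Set ZFSet.{0} :=
  {x | ∃ τ ∈ V, x = nameVal G τ}

/-- `(P, le)` is (an isomorphic copy of) Cohen forcing, the set of finite binary sequences
ordered by reverse extension: `e` is a bijection between the finite binary sequences and `P`,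
and `e w ≤ e w'` if and only if `w'` is an initial segment of `w`. -/
def IsCohen (P le : ZFSet.{0}) : Prop :=
  ∃ e : List Bool → ZFSet.{0}, Function.Injective e ∧ (∀ x, x ∈ P ↔ ∃ w, x = e w) ∧
    ∀ w w', ZFSet.pair (e w) (e w') ∈ le ↔ w' <+: w

/-- The class `D` is definable with parameters in the structure `(E, ∈)`: for some first-order
formula `φ(x, y₁, …, y_n)` and some `v₁, …, v_n ∈ E`, the elements of `D` are exactly the
`x ∈ E` with `(E, ∈) ⊨ φ(x, v₁, …, v_n)`. -/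
def DefinableWithParams (E D : Set ZFSet.{0}) : Prop :=
  ∃ (n : ℕ) (φ : Fml (n + 1)) (v : Fin n → ZFSet.{0}), (∀ i, v i ∈ E) ∧
    D = {x | x ∈ E ∧ Sat E φ (Fin.cons x v)}

end Pool.MP_3ade05_lc
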