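import Mathlib
import Pool.Agent.Lib.MP_3ade05_lc.Defs

/-!
# MP_3ade05_lc: class forcing over the universe of types

Names are `Type`-indexed families of (name, lower set of conditions); forcing of atomic
formulas, forcing of arbitrary formulas with quantifiers ranging over a class `𝒩` of names,
action of monotone maps, reindexing equivalence.
-/

namespace Pool.MP_3ade05_lc

open Set

/-- Names for a forcing `P` in `Type 1`. -/
inductive Name (P : Type 1) [Preorder P] : Type 1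
  | mk (ι : Type) (A : ι → Name P) (c : ι → LowerSet P) : Name P

namespace Name

variable {P : Type 1} [Preorder P]

/-- index type -/
def ι : Name P → Type | .mk i _ _ => i
/-- members -/
def A : (σ : Name P) → σ.ι → Name P | .mk _ a _ => a
/-- conditions -/
def c : (σ : Name P) → σ.ι → LowerSet P | .mk _ _ d => d

@[simp] lemma mk_ι (ι : Type) (A : ι → Name P) (c : ι → LowerSet P) : (mk ι A c).ι = ι := rfl
@[simp] lemma mk_A (ι : Type) (A : ι → Name P) (c : ι → LowerSet P) : (mk ι A c).A = A := rfl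
@[simp] lemma mk_c (ι : Type) (A : ι → Name P) (c : ι → LowerSet P) : (mk ι A c).c = c := rfl

lemma eta (σ : Name P) : σ = mk σ.ι σ.A σ.c := by cases σ; rfl

lemma ind {C : Name P → Prop} (σ : Name P) (h : ∀ σ : Name P, (∀ k, C (σ.A k)) → C σ) : C σ := by
  induction σ with
  | mk ι A c ih => exact h _ ih

/-- `σ = τ` is forced by `p`. -/
def feq : Name P → Name P → P → Prop
  | mk ι A c, mk ι' A' c' => fun p =>
    (∀ q ≤ p, ∀ k : ι, q ∈ c k → ∃ r ≤ q, ∃ l : ι', r ∈ c' l ∧ feq (A k) (A' l) r) ∧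
      (∀ q ≤ p, ∀ l : ι', q ∈ c' l → ∃ r ≤ q, ∃ k : ι, r ∈ c k ∧ feq (A k) (A' l) r)

lemma feq_def (σ τ : Name P) (p : P) : feq σ τ p ↔
    (∀ q ≤ p, ∀ k : σ.ι, q ∈ σ.c k → ∃ r ≤ q, ∃ l : τ.ι, r ∈ τ.c l ∧ feq (σ.A k) (τ.A l) r) ∧
      (∀ q ≤ p, ∀ l : τ.ι, q ∈ τ.c l → ∃ r ≤ q, ∃ k : σ.ι, r ∈ σ.c k ∧ feq (σ.A k) (τ.A l) r) := by
  cases σ; cases τ; rfl

/-- `σ ∈ τ` is forced by `p`. -/
def fmem (σ τ : Name P) (p : P) : Prop :=
  ∀ q ≤ p, ∃ r ≤ q, ∃ l : τ.ι, r ∈ τ.c l ∧ feq σ (τ.A l) r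

lemma feq_mono {σ τ : Name P} {p q : P} (h : feq σ τ p) (hq : q ≤ p) : feq σ τ q := by
  rw [feq_def] at h ⊢
  exact ⟨fun r hr => h.1 r (hr.trans hq), fun r hr => h.2 r (hr.trans hq)⟩

lemma feq_refl (σ : Name P) (p : P) : feq σ σ p := by
  induction σ using ind generalizing p with
  | h σ ih =>
    rw [feq_def]
    exact ⟨fun q _ k hk => ⟨q, le_rfl, k, hk, ih k q⟩, fun q _ k hk => ⟨q, le_rfl, k, hk, ih k q⟩⟩

lemma feq_symm {σ τ : Name P} {p : P} (h : feq σ τ p) : feq τ σ p := by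
  induction σ using ind generalizing τ p with
  | h σ ih =>
    rw [feq_def] at h ⊢
    refine ⟨fun q hq l hl => ?_, fun q hq k hk => ?_⟩
    · obtain ⟨r, hr, k, hk, he⟩ := h.2 q hq l hl
      exact ⟨r, hr, k, hk, ih k he⟩
    · obtain ⟨r, hr, l, hl, he⟩ := h.1 q hq k hk
      exact ⟨r, hr, l, hl, ih k he⟩

lemma feq_reg {σ τ : Name P} {p : P} (h : ∀ q ≤ p, ∃ r ≤ q, feq σ τ r) : feq σ τ p := by
  rw [feq_def]
  refine ⟨fun q hq k hk => ?_, fun q hq l hl => ?_⟩
  · obtain ⟨r, hr, he⟩ := h q hq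
    obtain ⟨s, hs, l, hl, he'⟩ := ((feq_def _ _ _).1 he).1 r le_rfl k ((σ.c k).lower hr hk)
    exact ⟨s, hs.trans hr, l, hl, he'⟩
  · obtain ⟨r, hr, he⟩ := h q hq
    obtain ⟨s, hs, k, hk, he'⟩ := ((feq_def _ _ _).1 he).2 r le_rfl l ((τ.c l).lower hr hl)
    exact ⟨s, hs.trans hr, k, hk, he'⟩

lemma feq_trans {σ τ ρ : Name P} {p : P} (h₁ : feq σ τ p) (h₂ : feq τ ρ p) : feq σ ρ p := by
  induction σ using ind generalizing τ ρ p with
  | h σ ih =>
    rw [feq_def] at h₁ h₂ ⊢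
    refine ⟨fun q hq k hk => ?_, fun q hq m hm => ?_⟩
    · obtain ⟨r, hr, l, hl, he⟩ := h₁.1 q hq k hk
      obtain ⟨s, hs, m, hm, he'⟩ := h₂.1 r (hr.trans hq) l hl
      exact ⟨s, hs.trans hr, m, hm, ih k (feq_mono he hs) he'⟩
    · obtain ⟨r, hr, l, hl, he⟩ := h₂.2 q hq m hm
      obtain ⟨s, hs, k, hk, he'⟩ := h₁.2 r (hr.trans hq) l hl
      exact ⟨s, hs.trans hr, k, hk, ih k he' (feq_mono he hs)⟩

lemma fmem_mono {σ τ : Name P} {p q : P} (h : fmem σ τ p) (hq : q ≤ p) : fmem σ τ q :=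
  fun r hr => h r (hr.trans hq)

lemma fmem_reg {σ τ : Name P} {p : P} (h : ∀ q ≤ p, ∃ r ≤ q, fmem σ τ r) : fmem σ τ p := by
  intro q hq
  obtain ⟨r, hr, hm⟩ := h q hq
  obtain ⟨s, hs, l, hl, he⟩ := hm r le_rfl
  exact ⟨s, hs.trans hr, l, hl, he⟩

lemma fmem_congr {σ σ' τ τ' : Name P} {p : P} (h₁ : feq σ σ' p) (h₂ : feq τ τ' p)
    (h : fmem σ τ p) : fmem σ' τ' p := by
  intro q hq
  obtain ⟨r, hr, l, hl, he⟩ := h q hq
  obtain ⟨s, hs, l', hl', he'⟩ := ((feq_def _ _ _).1 h₂).1 r (hr.trans hq) l hl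
  exact ⟨s, hs.trans hr, l', hl',
    feq_trans (feq_symm (feq_mono h₁ ((hs.trans hr).trans hq))) (feq_trans (feq_mono he hs) he')⟩

lemma fmem_of {σ : Name P} {k : σ.ι} {p : P} (h : p ∈ σ.c k) : fmem (σ.A k) σ p :=
  fun q hq => ⟨q, le_rfl, k, (σ.c k).lower hq h, feq_refl _ _⟩

/-! ### Formulas -/

/-- `φ(v)` is forced by `p`, the quantifiers ranging over the class `N` of names. -/
def Fc (N : Set (Name P)) : {n : ℕ} → Fml n → (Fin n → Name P) → P → Prop
  | _, .bot, _, _ => False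
  | _, .eq i j, v, p => feq (v i) (v j) p
  | _, .mem i j, v, p => fmem (v i) (v j) p
  | _, .imp φ ψ, v, p => ∀ q ≤ p, Fc N φ v q → Fc N ψ v q
  | _, .all φ, v, p => ∀ σ ∈ N, Fc N φ (Fin.cons σ v) p

lemma Fc_mono {N : Set (Name P)} {n : ℕ} {φ : Fml n} {v : Fin n → Name P} {p q : P}
    (h : Fc N φ v p) (hq : q ≤ p) : Fc N φ v q := by
  induction φ generalizing p q with
  | bot => exact h
  | eq i j => exact feq_mono h hq
  | mem i j => exact fmem_mono h hq
  | imp φ ψ _ _ => exact fun r hr => h r (hr.trans hq)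
  | all φ ih => exact fun σ hσ => ih (h σ hσ) hq

lemma Fc_reg {N : Set (Name P)} {n : ℕ} {φ : Fml n} {v : Fin n → Name P} {p : P}
    (h : ∀ q ≤ p, ∃ r ≤ q, Fc N φ v r) : Fc N φ v p := by
  induction φ generalizing p with
  | bot => obtain ⟨_, _, h⟩ := h p le_rfl; exact h
  | eq i j => exact feq_reg h
  | mem i j => exact fmem_reg h
  | imp φ ψ _ ih =>
    intro q hq hφ
    refine ih (fun r hr => ?_)
    obtain ⟨s, hs, hi⟩ := h r (hr.trans hq)
    exact ⟨s, hs, hi s le_rfl (Fc_mono hφ (hs.trans hr))⟩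
  | all φ ih =>
    intro σ hσ
    refine ih (fun q hq => ?_)
    obtain ⟨r, hr, ha⟩ := h q hq
    exact ⟨r, hr, ha σ hσ⟩

lemma Fc_congr {N : Set (Name P)} {n : ℕ} {φ : Fml n} {v v' : Fin n → Name P} {p : P}
    (hv : ∀ i, feq (v i) (v' i) p) : Fc N φ v p ↔ Fc N φ v' p := by
  induction φ generalizing p with
  | bot => exact Iff.rfl
  | eq i j =>
    exact ⟨fun h => feq_trans (feq_symm (hv i)) (feq_trans h (hv j)),
      fun h => feq_trans (hv i) (feq_trans h (feq_symm (hv j)))⟩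
  | mem i j =>
    exact ⟨fun h => fmem_congr (hv i) (hv j) h,
      fun h => fmem_congr (feq_symm (hv i)) (feq_symm (hv j)) h⟩
  | imp φ ψ ih₁ ih₂ =>
    refine forall₂_congr fun q hq => ?_
    rw [ih₁ (fun i => feq_mono (hv i) hq), ih₂ (fun i => feq_mono (hv i) hq)]
  | all φ ih =>
    refine forall₂_congr fun σ hσ => ih (fun i => ?_)
    refine Fin.cases ?_ (fun i => ?_) i
    · exact feq_refl _ _
    · exact hv i

/-! ### Action of monotone maps -/

/-- Preimage of a lower set. -/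
def pre (α : P →o P) (c : LowerSet P) : LowerSet P :=
  ⟨{q | α q ∈ c}, fun _ _ hba h => c.lower (α.monotone hba) h⟩

@[simp] lemma mem_pre {α : P →o P} {c : LowerSet P} {q : P} : q ∈ pre α c ↔ α q ∈ c := Iff.rfl

/-- Action of `α` on names (by preimages). -/
def act (α : P →o P) : Name P → Name P
  | mk ι A c => mk ι (fun k => act α (A k)) (fun k => pre α (c k))

@[simp] lemma act_mk (α : P →o P) (ι : Type) (A : ι → Name P) (c : ι → LowerSet P) :
    act α (mk ι A c) = mk ι (fun k => act α (A k)) (fun k => pre α (c k)) := rfl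

lemma act_act (α β : P →o P) (τ : Name P) : act α (act β τ) = act (β.comp α) τ := by
  induction τ with
  | mk ι A c ih =>
    simp only [act_mk, ih]
    rfl

lemma act_congr {α β : P →o P} (h : ∀ p, α p = β p) (τ : Name P) : act α τ = act β τ := by
  have : α = β := OrderHom.ext _ _ (funext h)
  rw [this]

lemma act_id {α : P →o P} (h : ∀ p, α p = p) (τ : Name P) : act α τ = τ := by
  induction τ with
  | mk ι A c ih =>
    simp only [act_mk, ih]
    congr 1
    funext k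
    ext q
    show α q ∈ c k ↔ q ∈ c k
    rw [h]

/-- members of `act α τ`, forwards -/
lemma act_idx (α : P →o P) (τ : Name P) (k : τ.ι) :
    ∃ k' : (act α τ).ι, (act α τ).A k' = act α (τ.A k) ∧ (act α τ).c k' = pre α (τ.c k) := by
  cases τ; exact ⟨k, rfl, rfl⟩

/-- members of `act α τ`, backwards -/
lemma act_idx' (α : P →o P) (τ : Name P) (k' : (act α τ).ι) :
    ∃ k : τ.ι, (act α τ).A k' = act α (τ.A k) ∧ (act α τ).c k' = pre α (τ.c k) := by
  cases τ; exact ⟨k', rfl, rfl⟩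

section inv
variable {α : P →o P} (hα : ∀ p, α (α p) = p)
include hα

lemma feq_act {σ τ : Name P} {p : P} (h : feq σ τ (α p)) : feq (act α σ) (act α τ) p := by
  induction σ generalizing τ p with
  | mk ι A c ih =>
    cases τ with
    | mk ι' A' c' =>
      rw [feq_def] at h ⊢
      constructor
      · intro q hq k hk
        obtain ⟨r, hr, l, hl, he⟩ := h.1 (α q) (α.monotone hq) k hk
        have hr' : α r ≤ q := by
          have := α.monotone hr
          rwa [hα] at this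
        refine ⟨α r, hr', l, ?_, ih k (by rwa [hα])⟩
        show α (α r) ∈ c' l
        rwa [hα]
      · intro q hq l hl
        obtain ⟨r, hr, k, hk, he⟩ := h.2 (α q) (α.monotone hq) l hl
        have hr' : α r ≤ q := by
          have := α.monotone hr
          rwa [hα] at this
        refine ⟨α r, hr', k, ?_, ih k (by rwa [hα])⟩
        show α (α r) ∈ c k
        rwa [hα]

lemma act_act_self (τ : Name P) : act α (act α τ) = τ := by
  rw [act_act]
  exact act_id (fun p => hα p) τ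

lemma feq_act_iff {σ τ : Name P} {p : P} : feq (act α σ) (act α τ) p ↔ feq σ τ (α p) := by
  refine ⟨fun h => ?_, feq_act hα⟩
  have h2 : feq (act α σ) (act α τ) (α (α p)) := by rwa [hα]
  have := feq_act hα h2
  rwa [act_act_self hα, act_act_self hα] at this

lemma fmem_act {σ τ : Name P} {p : P} (h : fmem σ τ (α p)) : fmem (act α σ) (act α τ) p := by
  intro q hq
  obtain ⟨r, hr, l, hl, he⟩ := h (α q) (α.monotone hq)
  have hr' : α r ≤ q := by
    have := α.monotone hr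
    rwa [hα] at this
  obtain ⟨l', h1, h2⟩ := act_idx α τ l
  refine ⟨α r, hr', l', ?_, ?_⟩
  · rw [h2]
    show α (α r) ∈ τ.c l
    rwa [hα]
  · rw [h1]
    exact feq_act hα (by rwa [hα])

lemma fmem_act_iff {σ τ : Name P} {p : P} : fmem (act α σ) (act α τ) p ↔ fmem σ τ (α p) := by
  refine ⟨fun h => ?_, fmem_act hα⟩
  have h2 : fmem (act α σ) (act α τ) (α (α p)) := by rwa [hα]
  have := fmem_act hα h2
  rwa [act_act_self hα, act_act_self hα] at this

lemma Fc_act {N : Set (Name P)} (hN : ∀ σ ∈ N, act α σ ∈ N) {n : ℕ} {φ : Fml n}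
    {v : Fin n → Name P} {p : P} :
    Fc N φ (fun i => act α (v i)) p ↔ Fc N φ v (α p) := by
  induction φ generalizing p with
  | bot => exact Iff.rfl
  | eq i j => exact feq_act_iff hα
  | mem i j => exact fmem_act_iff hα
  | imp φ ψ ih₁ ih₂ =>
    constructor
    · intro h q hq hφ
      have h1 := h (α q) (by have := α.monotone hq; rwa [hα] at this)
      rw [ih₁, ih₂, hα] at h1
      exact h1 hφ
    · intro h q hq
      rw [ih₁, ih₂]
      exact h (α q) (α.monotone hq)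
  | all φ ih =>
    have key : ∀ (n : ℕ) (v : Fin n → Name P) (σ : Name P),
        (fun i => act α ((Fin.cons σ v : Fin (n + 1) → Name P) i)) =
          (Fin.cons (act α σ) (fun i => act α (v i)) : Fin (n + 1) → Name P) := by
      intro n v σ
      funext i
      refine Fin.cases ?_ (fun i => ?_) i <;> rfl
    constructor
    · intro h σ hσ
      have := h (act α σ) (hN σ hσ)
      rw [← key, ih] at this
      exact this
    · intro h σ hσ
      have := h (act α σ) (hN σ hσ)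
      rw [← ih, key, act_act_self hα] at this
      exact this

end inv

/-! ### Reindexing equivalence -/

/-- Equality up to reindexing. -/
def Eqv : Name P → Name P → Prop
  | mk ι A c, mk ι' A' c' =>
    (∀ k : ι, ∃ l : ι', c k = c' l ∧ Eqv (A k) (A' l)) ∧
      (∀ l : ι', ∃ k : ι, c k = c' l ∧ Eqv (A k) (A' l))

lemma Eqv_def (σ τ : Name P) : Eqv σ τ ↔
    (∀ k : σ.ι, ∃ l : τ.ι, σ.c k = τ.c l ∧ Eqv (σ.A k) (τ.A l)) ∧
      (∀ l : τ.ι, ∃ k : σ.ι, σ.c k = τ.c l ∧ Eqv (σ.A k) (τ.A l)) := by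
  cases σ; cases τ; rfl

lemma Eqv.refl (σ : Name P) : Eqv σ σ := by
  induction σ using ind with
  | h σ ih =>
    rw [Eqv_def]
    exact ⟨fun k => ⟨k, rfl, ih k⟩, fun k => ⟨k, rfl, ih k⟩⟩

lemma Eqv.symm {σ τ : Name P} (h : Eqv σ τ) : Eqv τ σ := by
  induction σ using ind generalizing τ with
  | h σ ih =>
    rw [Eqv_def] at h ⊢
    refine ⟨fun l => ?_, fun k => ?_⟩
    · obtain ⟨k, h1, h2⟩ := h.2 l
      exact ⟨k, h1.symm, ih k h2⟩
    · obtain ⟨l, h1, h2⟩ := h.1 k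
      exact ⟨l, h1.symm, ih k h2⟩

lemma Eqv.trans {σ τ ρ : Name P} (h₁ : Eqv σ τ) (h₂ : Eqv τ ρ) : Eqv σ ρ := by
  induction σ using ind generalizing τ ρ with
  | h σ ih =>
    rw [Eqv_def] at h₁ h₂ ⊢
    refine ⟨fun k => ?_, fun m => ?_⟩
    · obtain ⟨l, h1, h2⟩ := h₁.1 k
      obtain ⟨m, h3, h4⟩ := h₂.1 l
      exact ⟨m, h1.trans h3, ih k h2 h4⟩
    · obtain ⟨l, h1, h2⟩ := h₂.2 m
      obtain ⟨k, h3, h4⟩ := h₁.2 l
      exact ⟨k, h3.trans h1, ih k h4 h2⟩

lemma Eqv.of_eq {σ τ : Name P} (h : σ = τ) : Eqv σ τ := h ▸ Eqv.refl _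

lemma Eqv.feq {σ τ : Name P} (h : Eqv σ τ) (p : P) : feq σ τ p := by
  induction σ using ind generalizing τ p with
  | h σ ih =>
    rw [Eqv_def] at h
    rw [feq_def]
    refine ⟨fun q _ k hk => ?_, fun q _ l hl => ?_⟩
    · obtain ⟨l, h1, h2⟩ := h.1 k
      exact ⟨q, le_rfl, l, h1 ▸ hk, ih k h2 q⟩
    · obtain ⟨k, h1, h2⟩ := h.2 l
      exact ⟨q, le_rfl, k, h1 ▸ hl, ih k h2 q⟩

lemma Eqv.act {σ τ : Name P} (h : Eqv σ τ) (α : P →o P) : Eqv (act α σ) (act α τ) := by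
  induction σ generalizing τ with
  | mk ι A c ih =>
    cases τ with
    | mk ι' A' c' =>
      rw [Eqv_def] at h
      refine ⟨fun k => ?_, fun l => ?_⟩
      · obtain ⟨l, h1, h2⟩ := h.1 k
        exact ⟨l, congrArg (pre α) h1, ih k h2⟩
      · obtain ⟨k, h1, h2⟩ := h.2 l
        exact ⟨k, congrArg (pre α) h1, ih k h2⟩

end Name

end Pool.MP_3ade05_lc
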