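import Mathlib
import Pool.Agent.Lib.MP_3ade05_lc.Card
import Pool.Agent.Lib.MP_3ade05_lc.Name

/-!
# MP_3ade05_lc: the forcing, its automorphisms and restrictions
-/

namespace Pool.MP_3ade05_lc

open Set

/-- Conditions: a finite initial segment `s ↾ len` of a real and, for each `n < len`, a partial
function `f n` on the points, with small domain and bounded levels. -/
@[ext] structure Cond : Type 1 where
  len : ℕ
  s : ℕ → Bool
  f : ℕ → X → Option Bool
  tail : ∀ n, len ≤ n → ∀ x, f n x = none
  sm : ∀ n, Sm {x | f n x ≠ none}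
  bd : ∃ i : Ordinal.{0}, ∀ n x, f n x ≠ none → x.1 < i

instance : Preorder Cond where
  le q p := p.len ≤ q.len ∧ (∀ n < p.len, q.s n = p.s n) ∧
    ∀ n x b, p.f n x = some b → q.f n x = some b
  le_refl p := ⟨le_rfl, fun _ _ => rfl, fun _ _ _ h => h⟩
  le_trans r q p h₁ h₂ := ⟨h₂.1.trans h₁.1,
    fun n hn => (h₁.2.1 n (lt_of_lt_of_le hn h₂.1)).trans (h₂.2.1 n hn),
    fun n x b h => h₁.2.2 n x b (h₂.2.2 n x b h)⟩

namespace Cond

lemma le_def {q p : Cond} : q ≤ p ↔ p.len ≤ q.len ∧ (∀ n < p.len, q.s n = p.s n) ∧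
    ∀ n x b, p.f n x = some b → q.f n x = some b := Iff.rfl

lemma lt_len {p : Cond} {n : ℕ} {x : X} {b : Bool} (h : p.f n x = some b) : n < p.len := by
  by_contra hcon
  rw [p.tail n (not_lt.1 hcon) x] at h
  exact absurd h (by simp)

/-- The trivial condition. -/
def triv : Cond where
  len := 0
  s := fun _ => false
  f := fun _ _ => none
  tail := fun _ _ _ => rfl
  sm := fun _ => Sm.empty.mono (fun _ hx => absurd rfl hx)
  bd := ⟨0, fun _ _ h => absurd rfl h⟩

/-- The general twist of conditions: flip the real by `u`, flip the bit at `(n, x)` by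
`β n (s n) x`. -/
def tw (u : ℕ → Bool) (β : ℕ → Bool → X → Bool) : Cond →o Cond where
  toFun p :=
    { len := p.len
      s := fun n => xor (p.s n) (u n)
      f := fun n x => (p.f n x).map (fun b => xor (β n (p.s n) x) b)
      tail := fun n hn x => by simp [p.tail n hn x]
      sm := fun n => (p.sm n).mono (fun x hx => by
        simpa using hx)
      bd := by
        obtain ⟨i, hi⟩ := p.bd
        exact ⟨i, fun n x hx => hi n x (by simpa using hx)⟩ }
  monotone' q p h := by
    refine ⟨h.1, fun n hn => ?_, fun n x b hb => ?_⟩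
    · show xor (q.s n) (u n) = xor (p.s n) (u n)
      rw [h.2.1 n hn]
    · show (q.f n x).map _ = some b
      obtain ⟨c, hc, hcb⟩ := Option.map_eq_some_iff.1 hb
      rw [h.2.2 n x c hc, h.2.1 n (lt_len hc)]
      simp [hcb]

@[simp] lemma tw_len (u β) (p : Cond) : (tw u β p).len = p.len := rfl
@[simp] lemma tw_s (u β) (p : Cond) (n : ℕ) : (tw u β p).s n = xor (p.s n) (u n) := rfl
@[simp] lemma tw_f (u β) (p : Cond) (n : ℕ) (x : X) :
    (tw u β p).f n x = (p.f n x).map (fun b => xor (β n (p.s n) x) b) := rfl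

lemma ext' {p q : Cond} (h1 : p.len = q.len) (h2 : ∀ n, p.s n = q.s n)
    (h3 : ∀ n x, p.f n x = q.f n x) : p = q :=
  Cond.ext h1 (funext h2) (funext fun n => funext fun x => h3 n x)

/-- flipping bits -/
abbrev fl (b : ℕ → X → Bool) : Cond →o Cond := tw (fun _ => false) (fun n _ x => b n x)

/-- flipping the real -/
abbrev fr (u : ℕ → Bool) : Cond →o Cond := tw u (fun _ _ _ => false)

/-- flip level `i` of block `n` if `s n` (xor `e n`) holds -/
noncomputable abbrev th (i : Ordinal.{0}) (e : ℕ → Bool) : Cond →o Cond :=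
  tw (fun _ => false) (fun n s x => by classical exact (xor s (e n) && decide (x.1 = i)))

lemma fl_fl (b c : ℕ → X → Bool) (p : Cond) :
    fl b (fl c p) = fl (fun n x => xor (b n x) (c n x)) p := by
  refine ext' rfl (fun n => by simp) (fun n x => ?_)
  simp only [tw_f, Option.map_map]
  congr 1
  funext d
  simp

lemma fl_self (b : ℕ → X → Bool) (p : Cond) : fl b (fl b p) = p := by
  refine ext' rfl (fun n => by simp) (fun n x => ?_)
  simp only [tw_f, Option.map_map]
  cases p.f n x <;> simp

lemma fl_comm (b c : ℕ → X → Bool) (p : Cond) : fl b (fl c p) = fl c (fl b p) := by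
  rw [fl_fl, fl_fl]
  have : (fun n x => xor (b n x) (c n x)) = (fun n x => xor (c n x) (b n x)) := by
    funext n x
    exact Bool.xor_comm _ _
  rw [this]

lemma fr_self (u : ℕ → Bool) (p : Cond) : fr u (fr u p) = p := by
  refine ext' rfl (fun n => by simp) (fun n x => ?_)
  simp only [tw_f, Option.map_map]
  cases p.f n x <;> simp

lemma fl_fr (b : ℕ → X → Bool) (u : ℕ → Bool) (p : Cond) : fl b (fr u p) = fr u (fl b p) := by
  refine ext' rfl (fun n => by simp) (fun n x => ?_)
  simp only [tw_f, Option.map_map]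
  cases p.f n x <;> simp

lemma fr_fr (u w : ℕ → Bool) (p : Cond) : fr u (fr w p) = fr w (fr u p) := by
  refine ext' rfl (fun n => by simp [Bool.xor_comm, Bool.xor_left_comm]) (fun n x => ?_)
  simp only [tw_f, Option.map_map]

lemma th_self (i : Ordinal.{0}) (e : ℕ → Bool) (p : Cond) : th i e (th i e p) = p := by
  refine ext' rfl (fun n => by simp) (fun n x => ?_)
  simp only [tw_f, tw_s, Option.map_map]
  cases p.f n x <;> simp

lemma fl_th (b : ℕ → X → Bool) (i : Ordinal.{0}) (e : ℕ → Bool) (p : Cond) :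
    fl b (th i e p) = th i e (fl b p) := by
  refine ext' rfl (fun n => by simp) (fun n x => ?_)
  simp only [tw_f, tw_s, Option.map_map, Bool.xor_false]
  cases p.f n x <;> simp [Bool.xor_left_comm]

lemma fr_th (u : ℕ → Bool) (i : Ordinal.{0}) (e : ℕ → Bool) (p : Cond) :
    fr u (th i (fun n => xor (e n) (u n)) p) = th i e (fr u p) := by
  refine ext' rfl (fun n => by simp) (fun n x => ?_)
  simp only [tw_f, tw_s, Option.map_map, Bool.xor_false]
  cases p.f n x with
  | none => simp
  | some d =>
    simp only [Option.map_some, Function.comp, Bool.false_xor]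
    rw [show (p.s n ^^ (e n ^^ u n)) = ((p.s n ^^ u n) ^^ e n) by
      cases p.s n <;> cases e n <;> cases u n <;> rfl]

open Classical in
/-- Restriction of (the bits of) a condition to a region `Z`. -/
noncomputable def rs (Z : ℕ → X → Prop) : Cond →o Cond where
  toFun p :=
    { len := p.len
      s := p.s
      f := fun n x => if Z n x then p.f n x else none
      tail := fun n hn x => by simp [p.tail n hn x]
      sm := fun n => (p.sm n).mono (fun x hx => by
        simp only [mem_ofPred_eq] at hx ⊢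
        intro h
        apply hx
        split_ifs <;> simp [h])
      bd := by
        obtain ⟨i, hi⟩ := p.bd
        refine ⟨i, fun n x hx => hi n x (fun h => hx ?_)⟩
        split_ifs <;> simp [h] }
  monotone' q p h := by
    refine ⟨h.1, h.2.1, fun n x b hb => ?_⟩
    dsimp only at hb ⊢
    split_ifs at hb ⊢ with hZ
    exact h.2.2 n x b hb

@[simp] lemma rs_len (Z) (p : Cond) : (rs Z p).len = p.len := rfl
@[simp] lemma rs_s (Z) (p : Cond) : (rs Z p).s = p.s := rfl
open Classical in
lemma rs_f (Z) (p : Cond) (n : ℕ) (x : X) :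
    (rs Z p).f n x = if Z n x then p.f n x else none := rfl

lemma rs_f_pos {Z : ℕ → X → Prop} {p : Cond} {n : ℕ} {x : X} (h : Z n x) :
    (rs Z p).f n x = p.f n x := by rw [rs_f, if_pos h]

lemma rs_f_neg {Z : ℕ → X → Prop} {p : Cond} {n : ℕ} {x : X} (h : ¬ Z n x) :
    (rs Z p).f n x = none := by rw [rs_f, if_neg h]

lemma le_rs (Z : ℕ → X → Prop) (p : Cond) : p ≤ rs Z p := by
  refine ⟨le_rfl, fun _ _ => rfl, fun n x b h => ?_⟩
  rw [rs_f] at h
  split_ifs at h
  exact h

lemma rs_tw (Z : ℕ → X → Prop) (u : ℕ → Bool) (β : ℕ → Bool → X → Bool) (p : Cond) :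
    rs Z (tw u β p) = tw u β (rs Z p) := by
  refine ext' rfl (fun n => rfl) (fun n x => ?_)
  by_cases h : Z n x
  · rw [rs_f_pos h, tw_f, tw_f, rs_f_pos h, rs_s]
  · rw [rs_f_neg h, tw_f, rs_f_neg h]
    rfl

/-- the region below level `i` -/
def below (i : Ordinal.{0}) : ℕ → X → Prop := fun _ x => x.1 < i

/-- restriction to levels below `i` -/
noncomputable abbrev rl (i : Ordinal.{0}) : Cond →o Cond := rs (below i)

lemma rl_rl {i j : Ordinal.{0}} (h : i ≤ j) (p : Cond) : rl i (rl j p) = rl i p := by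
  refine ext' rfl (fun n => rfl) (fun n x => ?_)
  by_cases hx : x.1 < i
  · rw [rs_f_pos (Z := below i) hx, rs_f_pos (Z := below i) hx,
      rs_f_pos (Z := below j) (lt_of_lt_of_le hx h)]
  · rw [rs_f_neg (Z := below i) hx, rs_f_neg (Z := below i) hx]

lemma rl_rl' {i j : Ordinal.{0}} (h : i ≤ j) (p : Cond) : rl j (rl i p) = rl i p := by
  refine ext' rfl (fun n => rfl) (fun n x => ?_)
  by_cases hx : x.1 < i
  · rw [rs_f_pos (Z := below j) (lt_of_lt_of_le hx h)]
  · rw [rs_f_neg (Z := below i) hx]
    by_cases hx' : x.1 < j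
    · rw [rs_f_pos (Z := below j) hx', rs_f_neg (Z := below i) hx]
    · rw [rs_f_neg (Z := below j) hx']

lemma exists_rl (p : Cond) : ∃ i : Ordinal.{0}, ∀ j, i ≤ j → rl j p = p := by
  obtain ⟨i, hi⟩ := p.bd
  refine ⟨i, fun j hj => ext' rfl (fun n => rfl) (fun n x => ?_)⟩
  by_cases hx : x.1 < j
  · rw [rs_f_pos (Z := below j) hx]
  · rw [rs_f_neg (Z := below j) hx]
    by_contra hcon
    exact hx (lt_of_lt_of_le (hi n x (fun h => hcon h.symm)) hj)

/-- flips with small support -/
def Sml (b : ℕ → X → Bool) : Prop := ∀ n, Sm {x | b n x = true}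

/-- Amalgamation after a small flip outside `Z`. -/
lemma compat {Z : ℕ → X → Prop} {q r : Cond} (h : r ≤ rs Z q) :
    ∃ b : ℕ → X → Bool, Sml b ∧ (∀ n x, Z n x → b n x = false) ∧
      ∃ t, t ≤ fl b r ∧ t ≤ q := by
  classical
  let b : ℕ → X → Bool := fun n x => decide (∃ c, r.f n x = some c ∧ q.f n x = some (!c))
  have hbr : ∀ n x, b n x = true → r.f n x ≠ none := by
    intro n x hb hr
    obtain ⟨c, hc, _⟩ := of_decide_eq_true hb
    rw [hr] at hc
    exact absurd hc (by simp)
  refine ⟨b, fun n => (r.sm n).mono (fun x hx => hbr n x hx), ?_, ?_⟩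
  · intro n x hZ
    rw [decide_eq_false_iff_not]
    rintro ⟨c, hc, hq⟩
    have := h.2.2 n x (!c) (by rw [rs_f_pos hZ]; exact hq)
    rw [hc] at this
    simp at this
  · refine ⟨⟨r.len, r.s, fun n x => ((fl b r).f n x).or (q.f n x), ?_, ?_, ?_⟩, ?_, ?_⟩
    · intro n hn x
      rw [tw_f, r.tail n hn x, q.tail n (le_trans h.1 hn) x]
      rfl
    · intro n
      refine ((r.sm n).union (q.sm n)).mono (fun x hx => ?_)
      by_contra hcon
      rw [mem_union, not_or] at hcon
      simp only [mem_ofPred_eq, ne_eq, not_not] at hcon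
      apply hx
      show ((fl b r).f n x).or (q.f n x) = none
      rw [tw_f, hcon.1, hcon.2]
      rfl
    · obtain ⟨i, hi⟩ := r.bd
      obtain ⟨j, hj⟩ := q.bd
      refine ⟨max i j, fun n x hx => ?_⟩
      by_cases h1 : r.f n x = none
      · have h2 : q.f n x ≠ none := by
          intro h2
          apply hx
          rw [tw_f, h1, h2]
          rfl
        exact lt_max_of_lt_right (hj n x h2)
      · exact lt_max_of_lt_left (hi n x h1)
    · refine ⟨le_rfl, fun n _ => by simp, fun n x c hc => ?_⟩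
      show ((fl b r).f n x).or (q.f n x) = some c
      rw [hc]
      rfl
    · refine ⟨h.1, fun n hn => h.2.1 n hn, fun n x c hc => ?_⟩
      show ((fl b r).f n x).or (q.f n x) = some c
      cases hr : r.f n x with
      | none => rw [tw_f, hr, hc]; rfl
      | some c' =>
        rw [tw_f, hr]
        by_cases hcc : c' = c
        · have hb : b n x = false := by
            rw [decide_eq_false_iff_not]
            rintro ⟨c'', h1, h2⟩
            rw [hr] at h1
            rw [hc] at h2
            simp only [Option.some.injEq] at h1 h2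
            subst h1
            rw [hcc] at h2
            simp at h2
          simp [hb, hcc]
        · have hcc' : c' = !c := by
            cases c <;> cases c' <;> simp_all
          have hb : b n x = true := by
            rw [decide_eq_true_iff]
            exact ⟨c', hr, by rw [hc, hcc']; simp⟩
          simp [hb, hcc']

/-- Homogeneity. -/
lemma homog {Ψ : Cond → Prop} {Z : ℕ → X → Prop} (mono : ∀ p q, Ψ p → q ≤ p → Ψ q)
    (reg : ∀ p, (∀ q ≤ p, ∃ r ≤ q, Ψ r) → Ψ p)
    (inv : ∀ b, Sml b → (∀ n x, Z n x → b n x = false) → ∀ p, Ψ p → Ψ (fl b p))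
    {q : Cond} (hq : Ψ q) : Ψ (rs Z q) := by
  refine reg _ (fun r hr => ?_)
  obtain ⟨b, hb, hbZ, t, ht1, ht2⟩ := compat hr
  refine ⟨fl b t, ?_, inv b hb hbZ t (mono q t hq ht2)⟩
  have := (fl b).monotone ht1
  rwa [fl_self] at this

end Cond

end Pool.MP_3ade05_lc
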