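import Mathlib
import Pool.Agent.Lib.MP_3ade05_lc.Cond

/-!
# MP_3ade05_lc: hereditarily symmetric local names
-/

namespace Pool.MP_3ade05_lc

open Set Name Cond

/-- Names for the concrete forcing. -/
abbrev Nm := Name Cond

/-- members of `𝒢_m`: small flips of the blocks `≥ m` -/
def Gm (m : ℕ) (b : ℕ → X → Bool) : Prop := Sml b ∧ ∀ n < m, ∀ x, b n x = false

/-- `τ` is supported by the first `m` blocks. -/
def Sym (m : ℕ) (τ : Nm) : Prop := ∀ b, Gm m b → Eqv (act (fl b) τ) τ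

/-- Hereditarily symmetric names. -/
def HS : Nm → Prop
  | Name.mk ι A c => (∃ m, Sym m (Name.mk ι A c)) ∧ ∀ k : ι, HS (A k)

lemma HS_def (τ : Nm) : HS τ ↔ (∃ m, Sym m τ) ∧ ∀ k : τ.ι, HS (τ.A k) := by
  cases τ; rfl

/-- `τ` uses only levels below `i` -/
def Loc (i : Ordinal.{0}) (τ : Nm) : Prop := act (rl i) τ = τ

/-- `τ` does not depend on the real -/
def Cyl (τ : Nm) : Prop := ∀ u, act (fr u) τ = τ

/-- names for the big model -/
def NW : Set Nm := {τ | HS τ ∧ ∃ i, Loc i τ}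

/-- names for the ground model -/
def NV : Set Nm := {τ | HS τ ∧ (∃ i, Loc i τ) ∧ Cyl τ}

lemma NV_sub_NW {τ : Nm} (h : τ ∈ NV) : τ ∈ NW := ⟨h.1, h.2.1⟩

lemma Gm.mono {m n : ℕ} (h : m ≤ n) {b : ℕ → X → Bool} (hb : Gm n b) : Gm m b :=
  ⟨hb.1, fun k hk => hb.2 k (lt_of_lt_of_le hk h)⟩

lemma Sym.mono {m n : ℕ} (h : m ≤ n) {τ : Nm} (hτ : Sym m τ) : Sym n τ :=
  fun b hb => hτ b (hb.mono h)

lemma Sym.act {m : ℕ} {τ : Nm} (hτ : Sym m τ) {α : Cond →o Cond}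
    (hα : ∀ b p, fl b (α p) = α (fl b p)) : Sym m (act α τ) := by
  intro b hb
  have h1 : Name.act (fl b) (Name.act α τ) = Name.act α (Name.act (fl b) τ) := by
    rw [act_act, act_act]
    exact act_congr (fun p => (hα b p).symm) τ
  rw [h1]
  exact (hτ b hb).act α

lemma HS.act {τ : Nm} (hτ : HS τ) {α : Cond →o Cond}
    (hα : ∀ b p, fl b (α p) = α (fl b p)) : HS (act α τ) := by
  induction τ with
  | mk ι A c ih =>
    obtain ⟨⟨m, hm⟩, h⟩ := hτ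
    exact ⟨⟨m, hm.act hα⟩, fun k => ih k (h k)⟩

lemma Loc.act {i : Ordinal.{0}} {τ : Nm} (hτ : Loc i τ) {α : Cond →o Cond}
    (hα : ∀ p, rl i (α p) = α (rl i p)) : Loc i (act α τ) := by
  have h1 : Name.act (rl i) (Name.act α τ) = Name.act α (Name.act (rl i) τ) := by
    rw [act_act, act_act]
    exact act_congr (fun p => (hα p).symm) τ
  unfold Loc
  rw [h1, hτ]

lemma Cyl.act {τ : Nm} (hτ : Cyl τ) {α : Cond →o Cond}
    (hα : ∀ u p, fr u (α p) = α (fr u p)) : Cyl (act α τ) := by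
  intro u
  have h1 : Name.act (fr u) (Name.act α τ) = Name.act α (Name.act (fr u) τ) := by
    rw [act_act, act_act]
    exact act_congr (fun p => (hα u p).symm) τ
  rw [h1, hτ u]

lemma act_mem {α : Cond →o Cond} {τ : Nm} (h : act α τ = τ) (k : τ.ι) :
    act α (τ.A k) = τ.A k ∧ pre α (τ.c k) = τ.c k := by
  cases τ with
  | mk ι A c =>
    rw [act_mk] at h
    injection h with _ h1 h2
    exact ⟨congrFun h1 k, congrFun h2 k⟩

lemma act_mk_of {α : Cond →o Cond} {ι : Type} {A : ι → Nm} {c : ι → LowerSet Cond}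
    (hA : ∀ k, act α (A k) = A k) (hc : ∀ k, pre α (c k) = c k) :
    act α (mk ι A c) = mk ι A c := by
  rw [act_mk]
  congr 1
  · exact funext hA
  · exact funext hc

lemma Loc.mono {i j : Ordinal.{0}} (h : i ≤ j) {τ : Nm} (hτ : Loc i τ) : Loc j τ := by
  unfold Loc
  have : Name.act (rl j) (Name.act (rl i) τ) = Name.act (rl i) τ := by
    rw [act_act]
    exact act_congr (fun p => rl_rl h p) τ
  rwa [hτ] at this

/-- maps which do not change the bits below `i` fix `i`-local names -/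
lemma Loc.fix {i : Ordinal.{0}} {τ : Nm} (hτ : Loc i τ) {α : Cond →o Cond}
    (hα : ∀ p, rl i (α p) = rl i p) : Name.act α τ = τ := by
  have : Name.act α (Name.act (rl i) τ) = Name.act (rl i) τ := by
    rw [act_act]
    exact act_congr hα τ
  rwa [hτ] at this

lemma rl_tw {i : Ordinal.{0}} {β : ℕ → Bool → X → Bool} (hβ : ∀ n s x, x.1 < i → β n s x = false)
    (p : Cond) : rl i (tw (fun _ => false) β p) = rl i p := by
  refine ext' rfl (fun n => by simp) (fun n x => ?_)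
  by_cases hx : x.1 < i
  · rw [rs_f_pos (Z := below i) hx, rs_f_pos (Z := below i) hx, tw_f]
    cases p.f n x <;> simp [hβ _ _ _ hx]
  · rw [rs_f_neg (Z := below i) hx, rs_f_neg (Z := below i) hx]

lemma Loc.fl {i : Ordinal.{0}} {τ : Nm} (hτ : Loc i τ) {b : ℕ → X → Bool}
    (hb : ∀ n x, x.1 < i → b n x = false) : Name.act (fl b) τ = τ :=
  hτ.fix (rl_tw (fun n _ x hx => hb n x hx))

lemma HS.mem {τ : Nm} (h : HS τ) (k : τ.ι) : HS (τ.A k) := ((HS_def τ).1 h).2 k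

lemma Loc.mem {i : Ordinal.{0}} {τ : Nm} (h : Loc i τ) (k : τ.ι) : Loc i (τ.A k) :=
  (act_mem h k).1

lemma Loc.c {i : Ordinal.{0}} {τ : Nm} (h : Loc i τ) (k : τ.ι) : pre (rl i) (τ.c k) = τ.c k :=
  (act_mem h k).2

lemma Cyl.mem {τ : Nm} (h : Cyl τ) (k : τ.ι) : Cyl (τ.A k) := fun u => (act_mem (h u) k).1

lemma Cyl.c {τ : Nm} (h : Cyl τ) (k : τ.ι) (u : ℕ → Bool) : pre (fr u) (τ.c k) = τ.c k :=
  (act_mem (h u) k).2

lemma NV_mem {τ : Nm} (h : τ ∈ NV) (k : τ.ι) : τ.A k ∈ NV :=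
  ⟨h.1.mem k, h.2.1.imp fun _ hi => hi.mem k, h.2.2.mem k⟩

lemma NW_mem {τ : Nm} (h : τ ∈ NW) (k : τ.ι) : τ.A k ∈ NW :=
  ⟨h.1.mem k, h.2.imp fun _ hi => hi.mem k⟩

lemma NV_sym {τ : Nm} (h : τ ∈ NV) : ∃ m, Sym m τ := ((HS_def τ).1 h.1).1
lemma NW_sym {τ : Nm} (h : τ ∈ NW) : ∃ m, Sym m τ := ((HS_def τ).1 h.1).1

lemma NV_fl (b : ℕ → X → Bool) {τ : Nm} (h : τ ∈ NV) : act (fl b) τ ∈ NV := by
  refine ⟨h.1.act (fun c p => fl_comm c b p), h.2.1.imp fun i hi => hi.act (fun p => ?_),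
    h.2.2.act (fun u p => (fl_fr b u p).symm)⟩
  exact rs_tw _ _ _ _

lemma NW_fl (b : ℕ → X → Bool) {τ : Nm} (h : τ ∈ NW) : act (fl b) τ ∈ NW := by
  refine ⟨h.1.act (fun c p => fl_comm c b p), h.2.imp fun i hi => hi.act (fun p => ?_)⟩
  exact rs_tw _ _ _ _

lemma NV_fr (u : ℕ → Bool) {τ : Nm} (h : τ ∈ NV) : act (fr u) τ ∈ NV := by
  rw [h.2.2 u]; exact h

lemma NW_fr (u : ℕ → Bool) {τ : Nm} (h : τ ∈ NW) : act (fr u) τ ∈ NW := by
  refine ⟨h.1.act (fun c p => fl_fr c u p), h.2.imp fun i hi => hi.act (fun p => ?_)⟩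
  exact rs_tw _ _ _ _

lemma NW_th (j : Ordinal.{0}) (e : ℕ → Bool) {τ : Nm} (h : τ ∈ NW) : act (th j e) τ ∈ NW := by
  refine ⟨h.1.act (fun c p => fl_th c j e p), h.2.imp fun i hi => hi.act (fun p => ?_)⟩
  exact rs_tw _ _ _ _

/-! ### Invariant names -/

/-- completely invariant names -/
def Inv (τ : Nm) : Prop := ∀ α : Cond →o Cond, act α τ = τ

lemma Inv.mem {τ : Nm} (h : Inv τ) (k : τ.ι) : Inv (τ.A k) := fun α => (act_mem (h α) k).1

lemma Inv.HS {τ : Nm} (h : Inv τ) : HS τ := by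
  induction τ using Name.ind with
  | h σ ih =>
    rw [HS_def]
    exact ⟨⟨0, fun b _ => Eqv.of_eq (h _)⟩, fun k => ih k (h.mem k)⟩

lemma Inv.NV {τ : Nm} (h : Inv τ) : τ ∈ NV := ⟨h.HS, ⟨0, h _⟩, fun _ => h _⟩

@[simp] lemma pre_top (α : Cond →o Cond) : pre α (⊤ : LowerSet Cond) = ⊤ := by
  ext q
  simp

/-! ### Names for the elements of a well-ordered type -/

section en
variable {T : Type} [LinearOrder T] [WellFoundedLT T]

/-- the name of (the order type of the predecessors of) `t` -/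
noncomputable def en : T → Nm :=
  (wellFounded_lt (α := T)).fix fun t F => mk {s : T // s < t} (fun s => F s.1 s.2) (fun _ => ⊤)

lemma en_eq (t : T) : en t = mk {s : T // s < t} (fun s => en s.1) (fun _ => ⊤) :=
  (wellFounded_lt (α := T)).fix_eq _ t

lemma en_Inv (t : T) : Inv (en t) := by
  intro α
  induction t using (wellFounded_lt (α := T)).induction with
  | _ t ih =>
    rw [en_eq]
    exact act_mk_of (fun s => ih s.1 s.2) (fun _ => pre_top _)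

lemma en_mem_iff (t : T) (σ : Nm) : (∃ k : (en t).ι, (en t).A k = σ ∧ (en t).c k = ⊤) ↔
    ∃ s < t, en s = σ := by
  rw [en_eq]
  exact ⟨fun ⟨k, h, _⟩ => ⟨k.1, k.2, h⟩, fun ⟨s, hs, h⟩ => ⟨⟨s, hs⟩, h, rfl⟩⟩

lemma en_inj {s t : T} {p : Cond} (h : feq (en s) (en t) p) : s = t := by
  induction s using (wellFounded_lt (α := T)).induction generalizing t p with
  | _ s ih =>
    rcases lt_trichotomy s t with hst | hst | hst
    · exfalso
      rw [en_eq s, en_eq t, feq_def] at h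
      obtain ⟨r, _, k, _, hf⟩ := h.2 p le_rfl ⟨s, hst⟩ trivial
      exact absurd (ih k.1 k.2 hf) k.2.ne
    · exact hst
    · exfalso
      rw [en_eq s, en_eq t, feq_def] at h
      obtain ⟨r, _, k, _, hf⟩ := h.1 p le_rfl ⟨t, hst⟩ trivial
      exact absurd (ih t hst hf) k.2.ne'

end en

/-! ### Pairs -/

/-- unordered pair -/
def prN (σ τ : Nm) : Nm := mk Bool (fun b => cond b σ τ) (fun _ => ⊤)

/-- ordered pair -/
def opN (σ τ : Nm) : Nm := prN (prN σ σ) (prN σ τ)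

lemma act_prN (α : Cond →o Cond) (σ τ : Nm) : act α (prN σ τ) = prN (act α σ) (act α τ) := by
  unfold prN
  rw [act_mk]
  congr 1
  funext b
  cases b <;> rfl

lemma act_opN (α : Cond →o Cond) (σ τ : Nm) : act α (opN σ τ) = opN (act α σ) (act α τ) := by
  unfold opN
  rw [act_prN, act_prN, act_prN]

lemma Eqv_prN {σ σ' τ τ' : Nm} (h₁ : Eqv σ σ') (h₂ : Eqv τ τ') : Eqv (prN σ τ) (prN σ' τ') := by
  refine ⟨fun b => ⟨b, rfl, ?_⟩, fun b => ⟨b, rfl, ?_⟩⟩ <;> cases b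
  · exact h₂
  · exact h₁
  · exact h₂
  · exact h₁

lemma Eqv_opN {σ σ' τ τ' : Nm} (h₁ : Eqv σ σ') (h₂ : Eqv τ τ') : Eqv (opN σ τ) (opN σ' τ') :=
  Eqv_prN (Eqv_prN h₁ h₁) (Eqv_prN h₁ h₂)

lemma HS_prN {σ τ : Nm} (hσ : HS σ) (hτ : HS τ) : HS (prN σ τ) := by
  refine ⟨?_, fun b => ?_⟩
  · obtain ⟨⟨m, hm⟩, _⟩ := (HS_def σ).1 hσ
    obtain ⟨⟨n, hn⟩, _⟩ := (HS_def τ).1 hτ
    refine ⟨max m n, fun b hb => ?_⟩
    show Eqv (act (fl b) (prN σ τ)) (prN σ τ)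
    rw [act_prN]
    exact Eqv_prN (hm b (hb.mono (le_max_left _ _))) (hn b (hb.mono (le_max_right _ _)))
  · cases b
    · exact hτ
    · exact hσ

lemma NW_prN {σ τ : Nm} (hσ : σ ∈ NW) (hτ : τ ∈ NW) : prN σ τ ∈ NW := by
  refine ⟨HS_prN hσ.1 hτ.1, ?_⟩
  obtain ⟨i, hi⟩ := hσ.2
  obtain ⟨j, hj⟩ := hτ.2
  refine ⟨max i j, ?_⟩
  unfold Loc
  rw [act_prN, hi.mono (le_max_left i j), hj.mono (le_max_right i j)]

lemma NV_prN {σ τ : Nm} (hσ : σ ∈ NV) (hτ : τ ∈ NV) : prN σ τ ∈ NV := by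
  have h := NW_prN (NV_sub_NW hσ) (NV_sub_NW hτ)
  refine ⟨h.1, h.2, fun u => ?_⟩
  rw [act_prN, hσ.2.2 u, hτ.2.2 u]

lemma NV_opN {σ τ : Nm} (hσ : σ ∈ NV) (hτ : τ ∈ NV) : opN σ τ ∈ NV :=
  NV_prN (NV_prN hσ hσ) (NV_prN hσ hτ)

/-! ### Full names and orbits -/

/-- the name with members `S` (all with the largest value) -/
noncomputable def full (S : Set Nm) [Small.{0} S] : Nm :=
  mk (Shrink.{0} S) (fun x => ((equivShrink S).symm x).1) (fun _ => ⊤)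

lemma full_A (S : Set Nm) [Small.{0} S] (k : (full S).ι) : (full S).A k ∈ S :=
  ((equivShrink S).symm k).2

lemma full_c (S : Set Nm) [Small.{0} S] (k : (full S).ι) : (full S).c k = ⊤ := rfl

lemma full_idx (S : Set Nm) [Small.{0} S] {σ : Nm} (h : σ ∈ S) : ∃ k : (full S).ι,
    (full S).A k = σ := by
  refine ⟨equivShrink S ⟨σ, h⟩, ?_⟩
  show ((equivShrink S).symm (equivShrink S ⟨σ, h⟩)).1 = σ
  rw [Equiv.symm_apply_apply]

lemma act_full_of {S : Set Nm} [Small.{0} S] {α : Cond →o Cond} (h : ∀ σ ∈ S, act α σ = σ) :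
    act α (full S) = full S :=
  act_mk_of (fun k => h _ (full_A S k)) (fun _ => pre_top _)

lemma Eqv_act_full {S : Set Nm} [Small.{0} S] {α : Cond →o Cond} (hα : ∀ p, α (α p) = p)
    (h : ∀ σ ∈ S, act α σ ∈ S) : Eqv (act α (full S)) (full S) := by
  rw [Eqv_def]
  constructor
  · intro k
    obtain ⟨k', h1, h2⟩ := act_idx' α (full S) k
    obtain ⟨l, hl⟩ := full_idx S (h _ (full_A S k'))
    refine ⟨l, ?_, ?_⟩
    · rw [h2, full_c, full_c, pre_top]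
    · rw [h1, hl]
      exact Eqv.refl _
  · intro l
    obtain ⟨k', hk'⟩ := full_idx S (h _ (full_A S l))
    obtain ⟨k, h1, h2⟩ := act_idx α (full S) k'
    refine ⟨k, ?_, ?_⟩
    · rw [h2, full_c, full_c, pre_top]
    · rw [h1, hk', act_act_self hα]
      exact Eqv.refl _

/-- the orbit of a set of names -/
def orb (S : Set Nm) : Set Nm := {ρ | ∃ σ ∈ S, ∃ b, Sml b ∧ ρ = act (fl b) σ}

lemma Sml_xor {b c : ℕ → X → Bool} (hb : Sml b) (hc : Sml c) :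
    Sml (fun n x => Bool.xor (b n x) (c n x)) := by
  intro n
  refine ((hb n).union (hc n)).mono (fun x hx => ?_)
  simp only [mem_ofPred_eq, mem_union] at hx ⊢
  cases h1 : b n x <;> cases h2 : c n x <;> simp [h1, h2] at hx ⊢

lemma Sml_zero : Sml (fun _ _ => false) := fun _ => Sm.empty.mono (fun _ h => by simp at h)

lemma sub_orb {S : Set Nm} {σ : Nm} (h : σ ∈ S) : σ ∈ orb S := by
  refine ⟨σ, h, fun _ _ => false, Sml_zero, ?_⟩
  symm
  refine act_id (fun p => ext' rfl (fun n => by simp) (fun n x => ?_)) σ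
  rw [tw_f]
  cases p.f n x <;> simp

lemma orb_fl {S : Set Nm} {c : ℕ → X → Bool} (hc : Sml c) {σ : Nm} (h : σ ∈ orb S) :
    act (fl c) σ ∈ orb S := by
  obtain ⟨ρ, hρ, b, hb, rfl⟩ := h
  refine ⟨ρ, hρ, fun n x => Bool.xor (b n x) (c n x), Sml_xor hb hc, ?_⟩
  rw [act_act]
  exact act_congr (fun p => fl_fl b c p) ρ

lemma orb_NV {S : Set Nm} (h : S ⊆ NV) : orb S ⊆ NV := by
  rintro _ ⟨ρ, hρ, b, hb, rfl⟩
  exact NV_fl b (h hρ)

lemma orb_Loc {S : Set Nm} {i : Ordinal.{0}} (h : ∀ σ ∈ S, Loc i σ) : ∀ σ ∈ orb S, Loc i σ := by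
  rintro _ ⟨ρ, hρ, b, hb, rfl⟩
  exact (h ρ hρ).act (fun p => rs_tw _ _ _ _)

lemma small_orb {S : Set Nm} [Small.{0} S] {i : Ordinal.{0}} (h : ∀ σ ∈ S, Loc i σ) :
    Small.{0} (orb S) := by
  classical
  let ext : (ℕ → XB i → Bool) → (ℕ → X → Bool) := fun γ n x =>
    if hx : x.1 < i then γ n ⟨x, hx⟩ else false
  have key : ∀ σ ∈ S, ∀ b : ℕ → X → Bool,
      act (fl (ext (fun n x => b n x.1))) σ = act (fl b) σ := by
    intro σ hσ b
    have h1 : ∀ c : ℕ → X → Bool, act (fl c) σ = act (fl c) (act (rl i) σ) := fun c => by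
      rw [h σ hσ]
    rw [h1, h1 b, act_act, act_act]
    refine act_congr (fun p => ?_) σ
    show rl i (fl _ p) = rl i (fl _ p)
    refine ext' rfl (fun n => rfl) (fun n x => ?_)
    by_cases hx : x.1 < i
    · rw [rs_f_pos (Z := below i) hx, rs_f_pos (Z := below i) hx, tw_f, tw_f]
      simp [ext, hx]
    · rw [rs_f_neg (Z := below i) hx, rs_f_neg (Z := below i) hx]
  let F : S × (ℕ → XB i → Bool) → Nm := fun q => act (fl (ext q.2)) q.1.1
  have hsub : orb S ⊆ range F := by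
    rintro _ ⟨ρ, hρ, b, hb, rfl⟩
    exact ⟨(⟨ρ, hρ⟩, fun n x => b n x.1), key ρ hρ b⟩
  exact small_subset hsub

lemma exists_Loc {S : Set Nm} [Small.{0} S] (h : S ⊆ NV) : ∃ i, ∀ σ ∈ S, Loc i σ := by
  have h1 : ∀ σ : S, ∃ i, Loc i σ.1 := fun σ => (h σ.2).2.1
  choose f hf using h1
  exact ⟨iSup f, fun σ hσ => (hf ⟨σ, hσ⟩).mono (Ordinal.le_iSup f ⟨σ, hσ⟩)⟩

open Classical in
/-- the superset name of `S` -/
noncomputable def spN (S : Set Nm) : Nm :=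
  if _ : Small.{0} (orb S) then full (orb S) else mk Empty Empty.elim Empty.elim

section spN
variable {S : Set Nm} [Small.{0} S] (hS : S ⊆ NV)
include hS

lemma spN_eq : ∃ _ : Small.{0} (orb S), spN S = full (orb S) := by
  obtain ⟨i, hi⟩ := exists_Loc hS
  have := small_orb hi
  exact ⟨this, dif_pos this⟩

lemma spN_idx {σ : Nm} (h : σ ∈ orb S) : ∃ k : (spN S).ι, (spN S).A k = σ ∧ (spN S).c k = ⊤ := by
  obtain ⟨hs, he⟩ := spN_eq hS
  rw [he]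
  obtain ⟨k, hk⟩ := full_idx (orb S) h
  exact ⟨k, hk, rfl⟩

lemma spN_idx' (k : (spN S).ι) : (spN S).A k ∈ orb S ∧ (spN S).c k = ⊤ := by
  obtain ⟨hs, he⟩ := spN_eq hS
  revert k
  rw [he]
  exact fun k => ⟨full_A _ k, rfl⟩

lemma spN_NV : spN S ∈ NV := by
  obtain ⟨i, hi⟩ := exists_Loc hS
  obtain ⟨hs, he⟩ := spN_eq hS
  rw [he]
  have hO := orb_NV hS
  refine ⟨?_, ⟨i, act_full_of (fun σ hσ => orb_Loc hi σ hσ)⟩,
    fun u => act_full_of (fun σ hσ => (hO hσ).2.2 u)⟩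
  rw [HS_def]
  exact ⟨⟨0, fun b hb => Eqv_act_full (fun p => fl_self b p) (fun σ hσ => orb_fl hb.1 hσ)⟩,
    fun k => (hO (full_A _ k)).1⟩

end spN

/-! ### Subnames -/

/-- the largest lower set inside `Ψ` -/
def lo (Ψ : Cond → Prop) : LowerSet Cond :=
  ⟨{q | ∀ r ≤ q, Ψ r}, fun _ _ hba h r hr => h r (hr.trans hba)⟩

lemma mem_lo {Ψ : Cond → Prop} (h : ∀ p q, Ψ p → q ≤ p → Ψ q) {q : Cond} : q ∈ lo Ψ ↔ Ψ q :=
  ⟨fun hq => hq q le_rfl, fun hq r hr => h q r hq hr⟩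

/-- subname -/
def subN (τ : Nm) (Ψ : Nm → Cond → Prop) : Nm :=
  mk τ.ι τ.A (fun k => τ.c k ⊓ lo (Ψ (τ.A k)))

lemma mem_subN {τ : Nm} {Ψ : Nm → Cond → Prop} (mono : ∀ σ p q, Ψ σ p → q ≤ p → Ψ σ q)
    {k : τ.ι} {q : Cond} : q ∈ (subN τ Ψ).c k ↔ q ∈ τ.c k ∧ Ψ (τ.A k) q := by
  show q ∈ τ.c k ⊓ lo (Ψ (τ.A k)) ↔ _
  rw [LowerSet.mem_inf_iff, mem_lo (mono _)]

lemma subN_NV {τ : Nm} (hτ : τ ∈ NV) {Ψ : Nm → Cond → Prop}
    (mono : ∀ σ p q, Ψ σ p → q ≤ p → Ψ σ q) {i : Ordinal.{0}} (hi : Loc i τ)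
    (hL : ∀ k q, Ψ (τ.A k) q ↔ Ψ (τ.A k) (rl i q))
    (hC : ∀ k u q, Ψ (τ.A k) q → Ψ (τ.A k) (fr u q))
    {m : ℕ} (hE : ∀ b, Gm m b → ∀ σ σ', Eqv (act (fl b) σ) σ' → ∀ q, Ψ σ (fl b q) → Ψ σ' q) :
    subN τ Ψ ∈ NV ∧ Loc i (subN τ Ψ) := by
  have hLoc : Loc i (subN τ Ψ) := by
    refine act_mk_of (fun k => hi.mem k) (fun k => ?_)
    ext q
    show q ∈ pre (rl i) ((subN τ Ψ).c k) ↔ q ∈ (subN τ Ψ).c k
    rw [mem_pre, mem_subN mono, mem_subN mono, ← hL k q, ← mem_pre, hi.c k]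
  refine ⟨⟨?_, ⟨i, hLoc⟩, ?_⟩, hLoc⟩
  · rw [HS_def]
    refine ⟨?_, fun k => hτ.1.mem k⟩
    obtain ⟨n, hn⟩ := NV_sym hτ
    refine ⟨max m n, fun b hb => ?_⟩
    have h1 := (Eqv_def _ _).1 (hn b (hb.mono (le_max_right _ _)))
    have hbm := hb.mono (le_max_left m n)
    have hc : ∀ k l : τ.ι, pre (fl b) (τ.c k) = τ.c l → Eqv (act (fl b) (τ.A k)) (τ.A l) →
        pre (fl b) ((subN τ Ψ).c k) = (subN τ Ψ).c l := by
      intro k l h2 h3
      ext q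
      show q ∈ pre (fl b) ((subN τ Ψ).c k) ↔ q ∈ (subN τ Ψ).c l
      rw [mem_pre, mem_subN mono, mem_subN mono, ← mem_pre, h2]
      refine and_congr_right fun _ => ⟨fun h => hE b hbm _ _ h3 q h, fun h => ?_⟩
      have h4 : Eqv (act (fl b) (τ.A l)) (τ.A k) := by
        have h5 := h3.act (fl b)
        rw [act_act_self (fl_self b)] at h5
        exact h5.symm
      refine hE b hbm _ _ h4 _ ?_
      rwa [fl_self]
    rw [Eqv_def]
    constructor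
    · intro k
      obtain ⟨k₀, h2, h3⟩ := act_idx' (fl b) (subN τ Ψ) k
      obtain ⟨k₁, h4, h5⟩ := act_idx (fl b) τ k₀
      obtain ⟨l, h6, h7⟩ := h1.1 k₁
      refine ⟨l, ?_, ?_⟩
      · rw [h3]
        exact hc k₀ l (by rw [← h5, h6]) (by rw [← h4]; exact h7)
      · rw [h2]
        show Eqv (act (fl b) (τ.A k₀)) (τ.A l)
        rw [← h4]
        exact h7
    · intro l
      obtain ⟨k₁, h6, h7⟩ := h1.2 l
      obtain ⟨k₀, h4, h5⟩ := act_idx' (fl b) τ k₁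
      obtain ⟨k, h2, h3⟩ := act_idx (fl b) (subN τ Ψ) k₀
      refine ⟨k, ?_, ?_⟩
      · rw [h3]
        exact hc k₀ l (by rw [← h5, h6]) (by rw [← h4]; exact h7)
      · rw [h2]
        show Eqv (act (fl b) (τ.A k₀)) (τ.A l)
        rw [← h4]
        exact h7
  · intro u
    refine act_mk_of (fun k => hτ.2.2.mem k u) (fun k => ?_)
    ext q
    show q ∈ pre (fr u) ((subN τ Ψ).c k) ↔ q ∈ (subN τ Ψ).c k
    rw [mem_pre, mem_subN mono, mem_subN mono, ← mem_pre, hτ.2.2.c k u]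
    refine and_congr_right fun _ => ⟨fun h => ?_, fun h => hC k u q h⟩
    have := hC k u _ h
    rwa [fr_self] at this

end Pool.MP_3ade05_lc
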