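import Mathlib

/-!
# MP_3ade05_lc: generic hulls

`exists_generic`: a Rasiowa–Sikorski style construction which simultaneously builds a
set `U` of names and a filter `H` that meets countably many kinds of tasks, all tasks taking
finitely many parameters from `U` and (if possible) putting their answers into `U`.
-/

namespace Pool.MP_3ade05_lc

open Set

/-- A kind of task: parameters, a condition, answers. -/
abbrev Task (N P : Type 1) := List N → P → List N → Prop

/-- `(U, H)` meets the task `R`. -/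
def Meets {N P : Type 1} [Preorder P] (U : Set N) (H : Set P) (R : Task N P) : Prop :=
  ∀ l : List N, (∀ x ∈ l, x ∈ U) →
    (∃ q ∈ H, ∃ l' : List N, (∀ x ∈ l', x ∈ U) ∧ R l q l') ∨
      (∃ p ∈ H, ∀ q ≤ p, ∀ l', ¬ R l q l')

/-- Filters. -/
structure IsFilt {P : Type 1} [Preorder P] (H : Set P) : Prop where
  ne : H.Nonempty
  dir : ∀ p ∈ H, ∀ q ∈ H, ∃ r ∈ H, r ≤ p ∧ r ≤ q
  up : ∀ p ∈ H, ∀ q, p ≤ q → q ∈ H

section
variable {N P : Type 1} [Preorder P]

open Classical in
/-- Treat one task. -/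
noncomputable def genAux (T : Task N P) (l : List N) (s : P × List N) : P × List N :=
  if h : ∃ r : P × List N, r.1 ≤ s.1 ∧ T l r.1 r.2 then (h.choose.1, s.2 ++ h.choose.2)
  else s

/-- Decode a task. -/
def genDec (n : ℕ) : ℕ × List ℕ :=
  ((Encodable.decode (α := ℕ × List ℕ) (Nat.unpair n).1).getD (0, []))

/-- One step of the construction. -/
noncomputable def genStep (R : ℕ → Task N P) (n : ℕ) (s : P × List N) : P × List N :=
  genAux (R (genDec n).1) ((genDec n).2.filterMap (fun j => s.2[j]?)) s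

/-- The sequence of the construction. -/
noncomputable def genSeq (R : ℕ → Task N P) (p₀ : P) : ℕ → P × List N
  | 0 => (p₀, [])
  | n + 1 => genStep R n (genSeq R p₀ n)

lemma genStep_le (R : ℕ → Task N P) (n : ℕ) (s : P × List N) :
    (genStep R n s).1 ≤ s.1 ∧ s.2 <+: (genStep R n s).2 := by
  unfold genStep genAux
  split_ifs with h
  · exact ⟨h.choose_spec.1, List.prefix_append _ _⟩
  · exact ⟨le_rfl, List.prefix_rfl⟩

lemma genSeq_mono (R : ℕ → Task N P) (p₀ : P) {m n : ℕ} (h : m ≤ n) :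
    (genSeq R p₀ n).1 ≤ (genSeq R p₀ m).1 ∧ (genSeq R p₀ m).2 <+: (genSeq R p₀ n).2 := by
  induction n, h using Nat.le_induction with
  | base => exact ⟨le_rfl, List.prefix_rfl⟩
  | succ n _ ih =>
    have := genStep_le R n (genSeq R p₀ n)
    exact ⟨this.1.trans ih.1, ih.2.trans this.2⟩

lemma genSeq_args (R : ℕ → Task N P) (p₀ : P) (l : List N)
    (hl : ∀ x ∈ l, ∃ n, x ∈ (genSeq R p₀ n).2) :
    ∃ (n : ℕ) (idx : List ℕ), ∀ n' ≥ n,
      idx.filterMap (fun j => (genSeq R p₀ n').2[j]?) = l := by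
  induction l with
  | nil => exact ⟨0, [], fun _ _ => rfl⟩
  | cons x l ih =>
    obtain ⟨n₁, h₁⟩ := hl x (by simp)
    obtain ⟨n₂, idx, h₂⟩ := ih (fun y hy => hl y (by simp [hy]))
    obtain ⟨j, hj⟩ := List.mem_iff_getElem?.1 h₁
    refine ⟨max n₁ n₂, j :: idx, fun n' hn' => ?_⟩
    have h3 : (genSeq R p₀ n').2[j]? = some x := by
      obtain ⟨t, ht⟩ := (genSeq_mono R p₀ (le_trans (le_max_left _ _) hn')).2
      rw [← ht]
      have hlt : j < (genSeq R p₀ n₁).2.length := by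
        by_contra hcon
        rw [List.getElem?_eq_none (by omega)] at hj
        exact absurd hj (by simp)
      rw [List.getElem?_append_left hlt]
      exact hj
    rw [List.filterMap_cons, h3]
    simp only
    rw [h₂ n' (le_trans (le_max_right _ _) hn')]

theorem exists_generic (Rs : Set (Task N P)) (hRs : Rs.Countable) (p₀ : P) :
    ∃ (U : Set N) (H : Set P), U.Countable ∧ IsFilt H ∧ p₀ ∈ H ∧ ∀ R ∈ Rs, Meets U H R := by
  obtain ⟨R, hR⟩ : ∃ R : ℕ → Task N P, Rs ⊆ range R := by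
    have h1 : (insert (fun _ _ _ => True) Rs : Set (Task N P)).Countable := hRs.insert _
    obtain ⟨R, hR⟩ := h1.exists_eq_range ⟨_, mem_insert _ _⟩
    exact ⟨R, hR ▸ subset_insert _ _⟩
  refine ⟨{x | ∃ n, x ∈ (genSeq R p₀ n).2}, {q | ∃ n, (genSeq R p₀ n).1 ≤ q}, ?_, ⟨?_, ?_, ?_⟩,
    ?_, ?_⟩
  · have hU : {x | ∃ n, x ∈ (genSeq R p₀ n).2} = ⋃ n, {x | x ∈ (genSeq R p₀ n).2} := by
      ext x
      simp
    rw [hU]
    exact countable_iUnion fun n => ((genSeq R p₀ n).2.finite_toSet).countable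
  · exact ⟨p₀, 0, le_rfl⟩
  · rintro p ⟨m, hm⟩ q ⟨n, hn⟩
    refine ⟨(genSeq R p₀ (max m n)).1, ⟨_, le_rfl⟩,
      (genSeq_mono R p₀ (le_max_left _ _)).1.trans hm,
      (genSeq_mono R p₀ (le_max_right _ _)).1.trans hn⟩
  · rintro p ⟨m, hm⟩ q hpq
    exact ⟨m, hm.trans hpq⟩
  · exact ⟨0, le_rfl⟩
  · intro T hT l hl
    obtain ⟨a, rfl⟩ := hR hT
    obtain ⟨n, idx, hn⟩ := genSeq_args R p₀ l hl
    set M := Nat.pair (Encodable.encode (a, idx)) n with hM
    have hMn : n ≤ M := Nat.right_le_pair _ _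
    have hdec : genDec M = (a, idx) := by
      rw [hM, genDec, Nat.unpair_pair]
      simp
    by_cases h : ∃ r : P × List N, r.1 ≤ (genSeq R p₀ M).1 ∧ R a l r.1 r.2
    · left
      have hs : genSeq R p₀ (M + 1) = (h.choose.1, (genSeq R p₀ M).2 ++ h.choose.2) := by
        show genStep R M (genSeq R p₀ M) = _
        unfold genStep
        rw [hdec, hn M hMn]
        unfold genAux
        rw [dif_pos h]
      refine ⟨h.choose.1, ⟨M + 1, by rw [hs]⟩, h.choose.2, ?_, h.choose_spec.2⟩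
      intro x hx
      exact ⟨M + 1, by rw [hs]; simp [hx]⟩
    · right
      refine ⟨(genSeq R p₀ M).1, ⟨M, le_rfl⟩, fun q hq l' hR' => h ⟨(q, l'), hq, hR'⟩⟩

end

end Pool.MP_3ade05_lc
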