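import Mathlib
import Pool.Agent.Lib.MP_3ade05_lc.HS
import Pool.Agent.Lib.MP_3ade05_lc.Val

/-!
# MP_3ade05_lc: Separation, Collection, Union, Pairing in the ground model
-/

namespace Pool.MP_3ade05_lc

open Set Name Cond

/-! ### Bounds for finite families of names -/

lemma exists_Loc_fin {n : ℕ} {v : Fin n → Nm} (h : ∀ j, v j ∈ NV) : ∃ i, ∀ j, Loc i (v j) := by
  choose f hf using fun j => (h j).2.1
  exact ⟨iSup f, fun j => (hf j).mono (Ordinal.le_iSup f j)⟩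

lemma exists_Sym_fin {n : ℕ} {v : Fin n → Nm} (h : ∀ j, v j ∈ NV) : ∃ m, ∀ j, Sym m (v j) := by
  choose f hf using fun j => NV_sym (h j)
  exact ⟨Finset.univ.sup f, fun j => (hf j).mono (Finset.le_sup (Finset.mem_univ j))⟩

/-! ### Invariance of forcing -/

lemma Fc_fl {n : ℕ} {φ : Fml n} {v v' : Fin n → Nm} {b : ℕ → X → Bool} {p : Cond}
    (h : ∀ j, Eqv (act (fl b) (v j)) (v' j)) : Fc NV φ v (fl b p) ↔ Fc NV φ v' p := by
  rw [← Fc_act (fl_self b) (fun σ hσ => NV_fl b hσ)]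
  exact Fc_congr (fun j => (h j).feq p)

lemma Fc_fr {n : ℕ} {φ : Fml n} {v : Fin n → Nm} {u : ℕ → Bool} {p : Cond}
    (h : ∀ j, Cyl (v j)) : Fc NV φ v (fr u p) ↔ Fc NV φ v p := by
  rw [← Fc_act (fr_self u) (fun σ hσ => NV_fr u hσ)]
  have : (fun j => act (fr u) (v j)) = v := funext fun j => h j u
  rw [this]

/-- Homogeneity for formulas. -/
lemma Fc_rs {n : ℕ} {φ : Fml n} {v : Fin n → Nm} {Z : ℕ → X → Prop} {p : Cond}
    (h : ∀ b, Sml b → (∀ n x, Z n x → b n x = false) → ∀ j, Eqv (act (fl b) (v j)) (v j)) :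
    Fc NV φ v p ↔ Fc NV φ v (rs Z p) :=
  ⟨fun hp => homog (Ψ := Fc NV φ v) (fun _ _ h hq => Fc_mono h hq) (fun _ h => Fc_reg h)
    (fun b hb hbZ _ hq => (Fc_fl (h b hb hbZ)).2 hq) hp, fun hp => Fc_mono hp (le_rs Z p)⟩

lemma Fc_rl {n : ℕ} {φ : Fml n} {v : Fin n → Nm} {i : Ordinal.{0}} {p : Cond}
    (h : ∀ j, Loc i (v j)) : Fc NV φ v p ↔ Fc NV φ v (rl i p) :=
  Fc_rs (fun _ _ hbZ j => Eqv.of_eq ((h j).fl (fun n x hx => hbZ n x hx)))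

lemma forall_cons {α : Type*} {n : ℕ} {a : α} {v : Fin n → α} {Q : α → Prop} (h0 : Q a)
    (h : ∀ j, Q (v j)) : ∀ j, Q ((Fin.cons a v : Fin (n + 1) → α) j) := by
  intro j
  refine Fin.cases ?_ (fun j => ?_) j
  · exact h0
  · exact h j

lemma forall_cons₂ {α β : Type*} {n : ℕ} {a : α} {b : β} {v : Fin n → α} {w : Fin n → β}
    {Q : α → β → Prop} (h0 : Q a b) (h : ∀ j, Q (v j) (w j)) :
    ∀ j, Q ((Fin.cons a v : Fin (n + 1) → α) j) ((Fin.cons b w : Fin (n + 1) → β) j) := by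
  intro j
  refine Fin.cases ?_ (fun j => ?_) j
  · exact h0
  · exact h j

lemma comp_cons {α β : Type*} {n : ℕ} (f : α → β) (a : α) (v : Fin n → α) :
    (fun j => f ((Fin.cons a v : Fin (n + 1) → α) j)) =
      (Fin.cons (f a) (fun j => f (v j)) : Fin (n + 1) → β) := by
  funext j
  refine Fin.cases ?_ (fun j => ?_) j <;> rfl

/-! ### Separation -/

/-- name for the subset defined by `φ` -/
def sepN {n : ℕ} (φ : Fml (n + 1)) (v : Fin (n + 1) → Nm) : Nm :=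
  subN (v 0) (fun σ q => Fc NV φ (Fin.cons σ (fun j => v j.succ)) q)

lemma sepN_NV {n : ℕ} (φ : Fml (n + 1)) {v : Fin (n + 1) → Nm} (hv : ∀ j, v j ∈ NV) :
    sepN φ v ∈ NV := by
  obtain ⟨i, hi⟩ := exists_Loc_fin hv
  obtain ⟨m, hm⟩ := exists_Sym_fin hv
  refine (subN_NV (Ψ := fun σ q => Fc NV φ (Fin.cons σ (fun j => v j.succ)) q) (hv 0)
    (fun σ p q h hq => Fc_mono h hq) (hi 0) (fun k q => ?_)
    (fun k u q h => ?_) (m := m) (fun b hb σ σ' he q h => ?_)).1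
  · exact Fc_rl (forall_cons (Q := Loc i) ((hi 0).mem k) (fun j => hi _))
  · exact (Fc_fr (forall_cons (Q := Cyl) ((hv 0).2.2.mem k) (fun j => (hv _).2.2))).2 h
  · exact (Fc_fl (forall_cons₂ (Q := fun a b' => Eqv (act (fl b) a) b') he
      (fun j => hm _ b hb))).1 h

/-- task for Separation -/
def sepT {n : ℕ} (φ : Fml (n + 1)) : Task Nm Cond := TF (n + 1) fun v _ ρ => ρ = sepN φ v

lemma closed_of {U : Set Nm} {H : Set Cond} {n : ℕ} {F : (Fin n → Nm) → Nm}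
    (h : Meets U H (TF n fun v _ ρ => ρ = F v)) {v : Fin n → Nm} (hv : ∀ j, v j ∈ U) :
    F v ∈ U := by
  rcases meets_TF h v hv with ⟨q, _, ρ, hρ, rfl⟩ | ⟨p, _, hn⟩
  · exact hρ
  · exact absurd rfl (hn p le_rfl (F v))

lemma Mod_trans {U : Set Nm} {H : Set Cond} {x y : ZFSet.{0}} (hx : x ∈ Mod U H NV) (hy : y ∈ x) :
    y ∈ Mod U H NV := by
  obtain ⟨σ, hσ, _, rfl⟩ := hx
  obtain ⟨k, hk, _, rfl⟩ := mem_val.1 hy
  exact ⟨σ.A k, NV_mem hσ k, hk, rfl⟩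

section
variable {U : Set Nm} {H : Set Cond} (hU : Full U H NV)
include hU

lemma val_sepN {n : ℕ} (φ : Fml (n + 1)) {v : Fin (n + 1) → Nm} (hv : ∀ j, v j ∈ U)
    (x : ZFSet.{0}) : x ∈ val U H (sepN φ v) ↔ x ∈ val U H (v 0) ∧
      Sat (Mod U H NV) φ (Fin.cons x (fun j => val U H (v j.succ))) := by
  have mono : ∀ (σ : Nm) (p q : Cond), Fc NV φ (Fin.cons σ (fun j => v j.succ)) p → q ≤ p →
      Fc NV φ (Fin.cons σ (fun j => v j.succ)) q := fun _ _ _ h hq => Fc_mono h hq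
  constructor
  · intro hx
    obtain ⟨k, hk, ⟨q, hq, hqk⟩, rfl⟩ := mem_val.1 hx
    have h := (mem_subN (τ := v 0) mono (k := k) (q := q)).1 hqk
    refine ⟨mem_val.2 ⟨k, hk, ⟨q, hq, h.1⟩, rfl⟩, ?_⟩
    have := (truth hU φ _ (forall_cons (Q := (· ∈ U)) hk (fun j => hv j.succ))).2 ⟨q, hq, h.2⟩
    rwa [comp_cons] at this
  · rintro ⟨hx, hs⟩
    obtain ⟨k, hk, ⟨q, hq, hqk⟩, rfl⟩ := mem_val.1 hx
    have h2 := (truth hU φ (Fin.cons ((v 0).A k) (fun j => v j.succ))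
      (forall_cons (Q := (· ∈ U)) hk (fun j => hv j.succ))).1 (by rwa [comp_cons])
    obtain ⟨p, hp, hf⟩ := h2
    obtain ⟨r, hr, h3, h4⟩ := hU.at'.filt.dir p hp q hq
    refine mem_val.2 ⟨k, hk, ⟨r, hr, ?_⟩, rfl⟩
    exact (mem_subN (τ := v 0) mono (k := k) (q := r)).2
      ⟨((v 0).c k).lower h4 hqk, Fc_mono hf h3⟩

theorem separation (hsep : ∀ {n : ℕ} (φ : Fml (n + 1)), Meets U H (sepT φ)) {n : ℕ}
    (φ : Fml (n + 1)) (v : Fin n → ZFSet.{0}) (hv : ∀ j, v j ∈ Mod U H NV) (a : ZFSet.{0})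
    (ha : a ∈ Mod U H NV) :
    ∃ b ∈ Mod U H NV, ∀ x, x ∈ b ↔ x ∈ a ∧ Sat (Mod U H NV) φ (Fin.cons x v) := by
  choose ν h1 h2 h3 using hv
  obtain ⟨τ, h4, h5, rfl⟩ := ha
  have hN : ∀ j, (Fin.cons τ ν : Fin (n + 1) → Nm) j ∈ NV := forall_cons (Q := (· ∈ NV)) h4 h1
  have hUv : ∀ j, (Fin.cons τ ν : Fin (n + 1) → Nm) j ∈ U := forall_cons (Q := (· ∈ U)) h5 h2
  refine ⟨_, ⟨sepN φ (Fin.cons τ ν), sepN_NV φ hN, closed_of (hsep φ) hUv, rfl⟩, fun x => ?_⟩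
  rw [val_sepN hU φ hUv]
  have : v = (fun j => val U H ((Fin.cons τ ν : Fin (n + 1) → Nm) (Fin.succ j))) := by
    funext j
    exact h3 j
  rw [this]
  rfl

end

/-! ### Collection -/

/-- local conditions -/
abbrev LC (i : Ordinal.{0}) : Type 1 := {a : Cond // rl i a = a}

lemma LC_inj (i : Ordinal.{0}) : Function.Injective
    (fun a : LC i => ((a.1.len, a.1.s, fun n x => a.1.f n x.1) : RawB i)) := by
  rintro ⟨a, ha⟩ ⟨b, hb⟩ h
  simp only [Prod.mk.injEq] at h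
  apply Subtype.ext
  show a = b
  rw [← ha, ← hb]
  refine ext' h.1 (fun n => congrFun h.2.1 n) (fun n x => ?_)
  by_cases hx : x.1 < i
  · rw [rs_f_pos (Z := below i) hx, rs_f_pos (Z := below i) hx]
    exact congrFun (congrFun h.2.2 n) ⟨x, hx⟩
  · rw [rs_f_neg (Z := below i) hx, rs_f_neg (Z := below i) hx]

instance small_LC (i : Ordinal.{0}) : Small.{0} (LC i) := small_of_injective (LC_inj i)

/-- the empty name -/
def emN : Nm := mk Empty Empty.elim Empty.elim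

lemma emN_NV : emN ∈ NV := by
  refine Inv.NV (fun α => ?_)
  refine act_mk_of (fun k => k.elim) (fun k => k.elim)

open Classical in
/-- a common level bound -/
noncomputable def lvl {n : ℕ} (v : Fin n → Nm) : Ordinal.{0} :=
  if h : ∃ i, ∀ j, Loc i (v j) then h.choose else 0

lemma lvl_spec {n : ℕ} {v : Fin n → Nm} (hv : ∀ j, v j ∈ NV) : ∀ j, Loc (lvl v) (v j) := by
  have h := exists_Loc_fin hv
  unfold lvl
  rw [dif_pos h]
  exact h.choose_spec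

open Classical in
/-- chosen witnesses -/
noncomputable def wit {n : ℕ} (φ : Fml (n + 2)) (v : Fin (n + 1) → Nm)
    (z : (v 0).ι × LC (lvl v)) : Nm :=
  if h : ∃ σ, σ ∈ NV ∧ ∃ r ≤ z.2.1,
    Fc NV φ (Fin.cons ((v 0).A z.1) (Fin.cons σ (fun j => v j.succ))) r then h.choose else emN

lemma wit_NV {n : ℕ} (φ : Fml (n + 2)) (v : Fin (n + 1) → Nm) (z : (v 0).ι × LC (lvl v)) :
    wit φ v z ∈ NV := by
  unfold wit
  split_ifs with h
  · exact h.choose_spec.1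
  · exact emN_NV

lemma wit_spec {n : ℕ} {φ : Fml (n + 2)} {v : Fin (n + 1) → Nm} {z : (v 0).ι × LC (lvl v)}
    {σ : Nm} (hσ : σ ∈ NV) {r : Cond} (hr : r ≤ z.2.1)
    (h : Fc NV φ (Fin.cons ((v 0).A z.1) (Fin.cons σ (fun j => v j.succ))) r) :
    ∃ r' ≤ z.2.1, Fc NV φ (Fin.cons ((v 0).A z.1) (Fin.cons (wit φ v z) (fun j => v j.succ))) r' := by
  have hx : ∃ σ, σ ∈ NV ∧ ∃ r ≤ z.2.1,
    Fc NV φ (Fin.cons ((v 0).A z.1) (Fin.cons σ (fun j => v j.succ))) r := ⟨σ, hσ, r, hr, h⟩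
  unfold wit
  rw [dif_pos hx]
  exact hx.choose_spec.2

/-- the Collection name -/
noncomputable def colN {n : ℕ} (φ : Fml (n + 2)) (v : Fin (n + 1) → Nm) : Nm :=
  spN (range (wit φ v))

lemma range_wit {n : ℕ} (φ : Fml (n + 2)) (v : Fin (n + 1) → Nm) : range (wit φ v) ⊆ NV := by
  rintro _ ⟨z, rfl⟩
  exact wit_NV φ v z

lemma colN_NV {n : ℕ} (φ : Fml (n + 2)) (v : Fin (n + 1) → Nm) : colN φ v ∈ NV :=
  spN_NV (range_wit φ v)

/-- task for Collection -/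
def colT {n : ℕ} (φ : Fml (n + 2)) : Task Nm Cond := TF (n + 1) fun v _ ρ => ρ = colN φ v

/-- task for witnesses: parameters `b, x, v` -/
def cwT {n : ℕ} (φ : Fml (n + 2)) : Task Nm Cond := TF (n + 2) fun w q ρ =>
  (∃ k : (w 0).ι, ρ = (w 0).A k ∧ (w 0).c k = ⊤) ∧
    Fc NV φ (Fin.cons (w 1) (Fin.cons ρ (fun j => w j.succ.succ))) q

section
variable {U : Set Nm} {H : Set Cond} (hU : Full U H NV)
include hU

theorem collection (hcol : ∀ {n : ℕ} (φ : Fml (n + 2)), Meets U H (colT φ))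
    (hcw : ∀ {n : ℕ} (φ : Fml (n + 2)), Meets U H (cwT φ)) {n : ℕ}
    (φ : Fml (n + 2)) (v : Fin n → ZFSet.{0}) (hv : ∀ j, v j ∈ Mod U H NV) (a : ZFSet.{0})
    (ha : a ∈ Mod U H NV) :
    ∃ b ∈ Mod U H NV, ∀ x ∈ a, (∃ y ∈ Mod U H NV,
      Sat (Mod U H NV) φ (Fin.cons x (Fin.cons y v))) →
      ∃ y ∈ b, Sat (Mod U H NV) φ (Fin.cons x (Fin.cons y v)) := by
  choose ν h1 h2 h3 using hv
  obtain ⟨τ, h4, h5, rfl⟩ := ha
  obtain rfl : v = fun j => val U H (ν j) := funext h3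
  set w : Fin (n + 1) → Nm := Fin.cons τ ν with hw
  have hN : ∀ j, w j ∈ NV := forall_cons (Q := (· ∈ NV)) h4 h1
  have hUv : ∀ j, w j ∈ U := forall_cons (Q := (· ∈ U)) h5 h2
  have hcU : colN φ w ∈ U := closed_of (hcol φ) hUv
  refine ⟨_, ⟨colN φ w, colN_NV φ w, hcU, rfl⟩, ?_⟩
  intro x hx hex
  obtain ⟨y, ⟨σ₀, hσ₀, hσU, rfl⟩, hs⟩ := hex
  obtain ⟨k, hk, ⟨q₀, hq₀, hqk⟩, rfl⟩ := mem_val.1 hx
  have hs' := (truth hU φ (Fin.cons (τ.A k) (Fin.cons σ₀ ν))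
    (forall_cons (Q := (· ∈ U)) hk (forall_cons (Q := (· ∈ U)) hσU h2))).1
      (by rw [comp_cons, comp_cons]; exact hs)
  obtain ⟨r₀, hr₀, hf⟩ := hs'
  rcases meets_TF (hcw φ) (Fin.cons (colN φ w) (Fin.cons (τ.A k) ν))
    (forall_cons (Q := (· ∈ U)) hcU (forall_cons (Q := (· ∈ U)) hk h2)) with
    ⟨q, hq, ρ, hρ, ⟨l, hl, hl'⟩, hfq⟩ | ⟨p, hp, hn⟩
  · refine ⟨val U H ρ, mem_val.2 ⟨l, hl ▸ hρ, ⟨q, hq, ?_⟩, congrArg _ hl⟩, ?_⟩
    · rw [show (colN φ w).c l = ⊤ from hl']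
      trivial
    · have := (truth hU φ (Fin.cons (τ.A k) (Fin.cons ρ ν))
        (forall_cons (Q := (· ∈ U)) hk (forall_cons (Q := (· ∈ U)) hρ h2))).2 ⟨q, hq, hfq⟩
      rwa [comp_cons, comp_cons] at this
  · exfalso
    obtain ⟨r, hr, h6, h7⟩ := hU.at'.filt.dir p hp r₀ hr₀
    set i := lvl w with hi
    have hloc := lvl_spec hN
    have hrr : rl i (rl i r) = rl i r := rl_rl le_rfl r
    let z : (w 0).ι × LC (lvl w) := (k, ⟨rl i r, hrr⟩)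
    obtain ⟨r', hr', hf'⟩ := wit_spec (φ := φ) (z := z) hσ₀ (le_rs _ r) (Fc_mono hf h7)
    obtain ⟨b, hb, hbZ, t, ht1, ht2⟩ := compat hr'
    have hlocA : Loc i ((w 0).A k) := (hloc 0).mem k
    -- transfer
    have h8 : Fc NV φ (Fin.cons ((w 0).A k) (Fin.cons (act (fl b) (wit φ w z))
        (fun j => w j.succ))) (fl b r') := by
      rw [Fc_fl (v' := Fin.cons ((w 0).A k) (Fin.cons (wit φ w z) (fun j => w j.succ)))]
      · exact hf'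
      · refine forall_cons₂ (Q := fun a b' => Eqv (act (fl b) a) b') ?_
          (forall_cons₂ (Q := fun a b' => Eqv (act (fl b) a) b') ?_ (fun j => ?_))
        · exact Eqv.of_eq (hlocA.fl (fun n x hx => hbZ n x hx))
        · exact Eqv.of_eq (act_act_self (fl_self b) _)
        · exact Eqv.of_eq ((hloc j.succ).fl (fun n x hx => hbZ n x hx))
    have h9 : act (fl b) (wit φ w z) ∈ orb (range (wit φ w)) := ⟨_, ⟨z, rfl⟩, b, hb, rfl⟩
    obtain ⟨l, hl, hl'⟩ := spN_idx (range_wit φ w) h9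
    exact hn t (ht2.trans h6) (act (fl b) (wit φ w z)) ⟨⟨l, hl.symm, hl'⟩, Fc_mono h8 ht1⟩

end

/-! ### Union -/

/-- members of members -/
def mm (τ : Nm) : Set Nm := range (fun z : Σ k : τ.ι, (τ.A k).ι => (τ.A z.1).A z.2)

instance small_mm (τ : Nm) : Small.{0} (mm τ) :=
  small_range (fun z : Σ k : τ.ι, (τ.A k).ι => (τ.A z.1).A z.2)

/-- name for a superset of the union -/
noncomputable def uniN (τ : Nm) : Nm := spN (mm τ)

lemma mm_NV {τ : Nm} (h : τ ∈ NV) : mm τ ⊆ NV := by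
  rintro _ ⟨z, rfl⟩
  exact NV_mem (NV_mem h _) _

/-- task for Union -/
def uniT : Task Nm Cond := TF 1 fun v _ ρ => ρ = uniN (v 0)
/-- task for Pairing -/
def prT : Task Nm Cond := TF 2 fun v _ ρ => ρ = prN (v 0) (v 1)

lemma mem_val_spN {U : Set Nm} {H : Set Cond} (hH : H.Nonempty) {S : Set Nm} [Small.{0} S]
    (hS : S ⊆ NV) {σ : Nm} (hσ : σ ∈ S) (hσU : σ ∈ U) : val U H σ ∈ val U H (spN S) := by
  obtain ⟨k, hk, hk'⟩ := spN_idx hS (sub_orb hσ)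
  obtain ⟨q, hq⟩ := hH
  refine mem_val.2 ⟨k, hk ▸ hσU, ⟨q, hq, ?_⟩, by rw [hk]⟩
  rw [hk']
  trivial

theorem union_superset {U : Set Nm} {H : Set Cond} (hH : H.Nonempty) (hun : Meets U H uniT)
    {x : ZFSet.{0}} (hx : x ∈ Mod U H NV) :
    ∃ b ∈ Mod U H NV, ∀ y ∈ x, ∀ z ∈ y, z ∈ b := by
  obtain ⟨τ, h1, h2, rfl⟩ := hx
  have hU' : uniN τ ∈ U := closed_of hun (v := fun _ => τ) (fun _ => h2)
  refine ⟨_, ⟨uniN τ, spN_NV (mm_NV h1), hU', rfl⟩, ?_⟩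
  intro y hy z hz
  obtain ⟨k, hk, _, rfl⟩ := mem_val.1 hy
  obtain ⟨l, hl, _, rfl⟩ := mem_val.1 hz
  exact mem_val_spN hH (mm_NV h1) ⟨⟨k, l⟩, rfl⟩ hl

lemma val_prN {U : Set Nm} {H : Set Cond} (hH : H.Nonempty) {σ τ : Nm} (hσ : σ ∈ U) (hτ : τ ∈ U) :
    val U H (prN σ τ) = {val U H σ, val U H τ} := by
  obtain ⟨q, hq⟩ := hH
  ext x
  rw [mem_val, ZFSet.mem_pair]
  constructor
  · rintro ⟨b, _, _, rfl⟩
    cases b
    · exact Or.inr rfl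
    · exact Or.inl rfl
  · rintro (rfl | rfl)
    · exact ⟨true, hσ, ⟨q, hq, trivial⟩, rfl⟩
    · exact ⟨false, hτ, ⟨q, hq, trivial⟩, rfl⟩

lemma prN_U {U : Set Nm} {H : Set Cond} (hpr : Meets U H prT) {σ τ : Nm} (hσ : σ ∈ U)
    (hτ : τ ∈ U) : prN σ τ ∈ U :=
  closed_of (F := fun v => prN (v 0) (v 1)) hpr (v := ![σ, τ]) (forall2 hσ hτ)

lemma opN_U {U : Set Nm} {H : Set Cond} (hpr : Meets U H prT) {σ τ : Nm} (hσ : σ ∈ U)
    (hτ : τ ∈ U) : opN σ τ ∈ U :=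
  prN_U hpr (prN_U hpr hσ hσ) (prN_U hpr hσ hτ)

lemma val_opN {U : Set Nm} {H : Set Cond} (hH : H.Nonempty) (hpr : Meets U H prT) {σ τ : Nm}
    (hσ : σ ∈ U) (hτ : τ ∈ U) :
    val U H (opN σ τ) = ZFSet.pair (val U H σ) (val U H τ) := by
  unfold opN
  rw [val_prN hH (prN_U hpr hσ hσ) (prN_U hpr hσ hτ), val_prN hH hσ hσ, val_prN hH hσ hτ,
    ZFSet.pair, ZFSet.pair_eq_singleton]

theorem pairing {U : Set Nm} {H : Set Cond} (hH : H.Nonempty) (hpr : Meets U H prT)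
    {x y : ZFSet.{0}} (hx : x ∈ Mod U H NV) (hy : y ∈ Mod U H NV) :
    ({x, y} : ZFSet.{0}) ∈ Mod U H NV := by
  obtain ⟨σ, h1, h2, rfl⟩ := hx
  obtain ⟨τ, h3, h4, rfl⟩ := hy
  exact ⟨prN σ τ, NV_prN h1 h3, prN_U hpr h2 h4, (val_prN hH h2 h4).symm⟩

end Pool.MP_3ade05_lc
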