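import Mathlib
import Pool.Agent.Lib.MP_3ade05_lc.ZF

/-!
# MP_3ade05_lc: Power set in the ground model
-/

namespace Pool.MP_3ade05_lc

open Set Name Cond

/-- An abstract decision lemma. -/
lemma zorn_dec {T : Type 1} [Preorder T] {J : Type}
    (hub : ∀ s : J → T, (∀ j j', s j ≤ s j' ∨ s j' ≤ s j) → ∃ u, ∀ j, s j ≤ u)
    (Ψ : J → T → Prop) (mono : ∀ j t t', Ψ j t → t ≤ t' → Ψ j t') (t₀ : T) :
    ∃ t, t₀ ≤ t ∧ ∀ j t', t ≤ t' → Ψ j t' → Ψ j t := by
  classical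
  by_cases hJ : IsEmpty J
  · exact ⟨t₀, le_rfl, fun j => (hJ.false j).elim⟩
  rw [not_isEmpty_iff] at hJ
  let r : {t // t₀ ≤ t} → {t // t₀ ≤ t} → Prop := fun t t' =>
    t = t' ∨ (t.1 ≤ t'.1 ∧ ∃ j, Ψ j t'.1 ∧ ¬ Ψ j t.1)
  have rle : ∀ {t t'}, r t t' → t.1 ≤ t'.1 := by
    rintro t t' (rfl | h)
    · exact le_rfl
    · exact h.1
  have trans : ∀ {a b c}, r a b → r b c → r a c := by
    rintro a b c (rfl | ⟨h1, j, h2, h3⟩) h
    · exact h
    · rcases h with rfl | ⟨h4, _⟩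
      · exact Or.inr ⟨h1, j, h2, h3⟩
      · exact Or.inr ⟨h1.trans h4, j, mono j _ _ h2 h4, h3⟩
  obtain ⟨m, hm⟩ := exists_maximal_of_chains_bounded (r := r) (fun c hc => by
    by_cases hmax : ∃ ub ∈ c, ∀ a ∈ c, r a ub
    · obtain ⟨ub, _, h⟩ := hmax
      exact ⟨ub, h⟩
    push Not at hmax
    by_cases hne : c.Nonempty
    · obtain ⟨c₀, hc₀⟩ := hne
      have hex : ∀ j : J, ∃ t ∈ c, (∃ t' ∈ c, Ψ j t'.1) → Ψ j t.1 := by
        intro j
        by_cases h : ∃ t' ∈ c, Ψ j t'.1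
        · obtain ⟨t', h1, h2⟩ := h
          exact ⟨t', h1, fun _ => h2⟩
        · exact ⟨c₀, hc₀, fun h' => absurd h' h⟩
      choose s hs1 hs2 using hex
      have hcomp : ∀ a ∈ c, ∀ b ∈ c, r a b ∨ r b a := by
        intro a ha b hb
        by_cases hab : a = b
        · exact Or.inl (Or.inl hab)
        · exact hc ha hb hab
      obtain ⟨u, hu⟩ := hub (fun j => (s j).1) (fun j j' =>
        (hcomp _ (hs1 j) _ (hs1 j')).imp rle rle)
      have hle : t₀ ≤ u := (s hJ.some).2.trans (hu _)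
      refine ⟨⟨u, hle⟩, fun t ht => ?_⟩
      obtain ⟨t', ht', hr⟩ := hmax t ht
      rcases hcomp t ht t' ht' with h | h
      · rcases h with h | ⟨_, j, h2, h3⟩
        · exact absurd (Or.inl h.symm) hr
        · have h4 : Ψ j (s j).1 := hs2 j ⟨t', ht', h2⟩
          have h5 : t.1 ≤ (s j).1 := by
            rcases hcomp t ht _ (hs1 j) with h | h
            · exact rle h
            · exact absurd (mono j _ _ h4 (rle h)) h3
          exact Or.inr ⟨h5.trans (hu j), j, mono j _ _ h4 (hu j), h3⟩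
      · exact absurd h hr
    · exact ⟨⟨t₀, le_rfl⟩, fun a ha => absurd ⟨a, ha⟩ hne⟩) trans
  refine ⟨m.1, m.2, fun j t' ht' hΨ => ?_⟩
  by_contra hcon
  rcases hm ⟨t', m.2.trans ht'⟩ (Or.inr ⟨ht', j, hΨ, hcon⟩) with h | h
  · apply hcon
    rw [← h]
    exact hΨ
  · exact hcon (mono j _ _ hΨ h.1)

/-! ### Tails -/

/-- tails: levels `≥ i`, blocks `< m` -/
structure Tl (i : Ordinal.{0}) (m : ℕ) : Type 1 where
  t : ℕ → X → Option Bool
  sup : ∀ n x, t n x ≠ none → n < m ∧ i ≤ x.1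
  sm : ∀ n, Sm {x | t n x ≠ none}
  bd : ∃ j : Ordinal.{0}, ∀ n x, t n x ≠ none → x.1 < j

instance (i : Ordinal.{0}) (m : ℕ) : Preorder (Tl i m) where
  le t t' := ∀ n x b, t.t n x = some b → t'.t n x = some b
  le_refl t := fun _ _ _ h => h
  le_trans a b c h₁ h₂ := fun n x d h => h₂ n x d (h₁ n x d h)

lemma Tl.le_def {i : Ordinal.{0}} {m : ℕ} {t t' : Tl i m} :
    t ≤ t' ↔ ∀ n x b, t.t n x = some b → t'.t n x = some b := Iff.rfl

lemma Tl.chain {i : Ordinal.{0}} {m : ℕ} {J : Type} (hJ : ∀ l, i ≤ l → Cardinal.mk J ≤ lam l)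
    (s : J → Tl i m) (hs : ∀ j j', s j ≤ s j' ∨ s j' ≤ s j) : ∃ u, ∀ j, s j ≤ u := by
  classical
  let u : ℕ → X → Option Bool := fun n x =>
    if h : ∃ j, (s j).t n x ≠ none then (s h.choose).t n x else none
  have hu1 : ∀ n x, u n x ≠ none → ∃ j, (s j).t n x ≠ none := by
    intro n x h
    by_contra hcon
    apply h
    show (if h : ∃ j, (s j).t n x ≠ none then (s h.choose).t n x else none) = none
    rw [dif_neg hcon]
  have hu2 : ∀ j n x b, (s j).t n x = some b → u n x = some b := by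
    intro j n x b hb
    have h : ∃ j, (s j).t n x ≠ none := ⟨j, by rw [hb]; simp⟩
    show (if h : ∃ j, (s j).t n x ≠ none then (s h.choose).t n x else none) = some b
    rw [dif_pos h]
    rcases hs j h.choose with h1 | h1
    · exact h1 n x b hb
    · obtain ⟨c, hc⟩ := Option.ne_none_iff_exists'.1 h.choose_spec
      have := h1 n x c hc
      rw [hb] at this
      rw [hc, this]
  refine ⟨⟨u, ?_, ?_, ?_⟩, hu2⟩
  · intro n x h
    obtain ⟨j, hj⟩ := hu1 n x h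
    exact (s j).sup n x hj
  · intro n
    refine (Sm.iUnion hJ (fun j => {x | (s j).t n x ≠ none}) (fun j => (s j).sm n)
      (fun j x hx => ((s j).sup n x hx).2)).mono (fun x hx => ?_)
    rw [mem_iUnion]
    exact hu1 n x hx
  · choose f hf using fun j => (s j).bd
    refine ⟨iSup f, fun n x h => ?_⟩
    obtain ⟨j, hj⟩ := hu1 n x h
    exact lt_of_lt_of_le (hf j n x hj) (Ordinal.le_iSup f j)

open Classical in
/-- merge a local condition with a tail -/
noncomputable def mrg {i : Ordinal.{0}} {m : ℕ} (a : Cond) (t : Tl i m) : Cond where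
  len := a.len
  s := a.s
  f n x := if x.1 < i then a.f n x else if n < a.len then t.t n x else none
  tail n hn x := by
    rw [a.tail n hn x, if_neg (not_lt.2 hn)]
    simp
  sm n := by
    refine ((a.sm n).union (t.sm n)).mono (fun x hx => ?_)
    rw [mem_ofPred_eq] at hx
    by_cases h : x.1 < i
    · rw [if_pos h] at hx
      exact Or.inl hx
    · rw [if_neg h] at hx
      refine Or.inr (fun h' => hx ?_)
      rw [h']
      simp
  bd := by
    obtain ⟨j, hj⟩ := t.bd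
    refine ⟨max i j, fun n x hx => ?_⟩
    by_cases h : x.1 < i
    · exact lt_max_of_lt_left h
    · rw [if_neg h] at hx
      refine lt_max_of_lt_right (hj n x (fun h' => hx ?_))
      rw [h']
      simp

section mrg
variable {i : Ordinal.{0}} {m : ℕ}

@[simp] lemma mrg_len (a : Cond) (t : Tl i m) : (mrg a t).len = a.len := rfl
@[simp] lemma mrg_s (a : Cond) (t : Tl i m) : (mrg a t).s = a.s := rfl
lemma mrg_lo {a : Cond} {t : Tl i m} {n : ℕ} {x : X} (h : x.1 < i) :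
    (mrg a t).f n x = a.f n x := by
  simp [mrg, h]
lemma mrg_hi {a : Cond} {t : Tl i m} {n : ℕ} {x : X} (h : ¬ x.1 < i) (hn : n < a.len) :
    (mrg a t).f n x = t.t n x := by
  simp [mrg, h, hn]
lemma mrg_out {a : Cond} {t : Tl i m} {n : ℕ} {x : X} (hn : ¬ n < a.len) :
    (mrg a t).f n x = none := (mrg a t).tail n (not_lt.1 hn) x

lemma mrg_mono {a a' : Cond} {t t' : Tl i m} (ha : a' ≤ a) (ht : t ≤ t') :
    mrg a' t' ≤ mrg a t := by
  refine ⟨ha.1, ha.2.1, fun n x b hb => ?_⟩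
  have hn : n < a.len := lt_len (p := mrg a t) hb
  have hn' : n < a'.len := lt_of_lt_of_le hn ha.1
  by_cases h : x.1 < i
  · rw [mrg_lo h] at hb ⊢
    exact ha.2.2 n x b hb
  · rw [mrg_hi h hn] at hb
    rw [mrg_hi h hn']
    exact ht n x b hb

lemma mrg_rl (a : Cond) (t : Tl i m) : mrg (rl i a) t = mrg a t := by
  refine ext' rfl (fun _ => rfl) (fun n x => ?_)
  by_cases h : x.1 < i
  · rw [mrg_lo h, mrg_lo h, rs_f_pos (Z := below i) h]
  · by_cases hn : n < a.len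
    · rw [mrg_hi h hn, mrg_hi h (by exact hn)]
    · rw [mrg_out hn, mrg_out (by exact hn)]

lemma mrg_fr (u : ℕ → Bool) (a : Cond) (t : Tl i m) : mrg (fr u a) t = fr u (mrg a t) := by
  refine ext' rfl (fun _ => rfl) (fun n x => ?_)
  rw [tw_f]
  by_cases h : x.1 < i
  · rw [mrg_lo h, mrg_lo h, tw_f]
  · by_cases hn : n < a.len
    · rw [mrg_hi h (by exact hn), mrg_hi h hn]
      cases t.t n x <;> simp
    · rw [mrg_out hn, mrg_out (by exact hn)]
      rfl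

lemma mrg_fl {b : ℕ → X → Bool} (hb : ∀ n < m, ∀ x, b n x = false) (a : Cond) (t : Tl i m) :
    mrg (fl b a) t = fl b (mrg a t) := by
  refine ext' rfl (fun n => rfl) (fun n x => ?_)
  rw [tw_f]
  by_cases h : x.1 < i
  · rw [mrg_lo h, mrg_lo h, tw_f]
  · by_cases hn : n < a.len
    · rw [mrg_hi h (by exact hn), mrg_hi h hn]
      cases htn : t.t n x with
      | none => rfl
      | some c =>
        have := (t.sup n x (by rw [htn]; simp)).1
        simp [hb n this x]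
    · rw [mrg_out hn, mrg_out (by exact hn)]
      rfl

open Classical in
/-- the tail of a condition -/
noncomputable def tlof (i : Ordinal.{0}) (m : ℕ) (q : Cond) : Tl i m where
  t n x := if n < m ∧ i ≤ x.1 then q.f n x else none
  sup n x h := by
    by_contra hcon
    rw [if_neg hcon] at h
    exact h rfl
  sm n := (q.sm n).mono (fun x hx h => hx (by
    show (if n < m ∧ i ≤ x.1 then q.f n x else none) = none
    rw [h]; simp))
  bd := by
    obtain ⟨j, hj⟩ := q.bd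
    refine ⟨j, fun n x h => hj n x (fun h' => h ?_)⟩
    rw [h']
    simp

lemma tlof_pos {q : Cond} {n : ℕ} {x : X} (h : n < m ∧ i ≤ x.1) :
    (tlof i m q).t n x = q.f n x := if_pos h

lemma tlof_mono {q q' : Cond} (h : q' ≤ q) : tlof i m q ≤ tlof i m q' := by
  intro n x b hb
  have h1 := (tlof i m q).sup n x (by rw [hb]; simp)
  rw [tlof_pos h1] at hb ⊢
  exact h.2.2 n x b hb

/-- the region of the tails -/
def reg (i : Ordinal.{0}) (m : ℕ) : ℕ → X → Prop := fun n x => x.1 < i ∨ n < m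

lemma rs_reg (q : Cond) : rs (reg i m) q = mrg q (tlof i m q) := by
  refine ext' rfl (fun _ => rfl) (fun n x => ?_)
  by_cases h : x.1 < i
  · rw [mrg_lo h, rs_f_pos (Z := reg i m) (Or.inl h)]
  · by_cases hn : n < q.len
    · rw [mrg_hi h hn]
      by_cases hm : n < m
      · rw [tlof_pos ⟨hm, not_lt.1 h⟩, rs_f_pos (Z := reg i m) (Or.inr hm)]
      · rw [rs_f_neg (Z := reg i m) (not_or.2 ⟨h, hm⟩)]
        show none = (if n < m ∧ i ≤ x.1 then q.f n x else none)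
        rw [if_neg (fun h' => hm h'.1)]
    · rw [mrg_out hn]
      exact (rs (reg i m) q).tail n (not_lt.1 hn) x

lemma le_mrg {q : Cond} {t : Tl i m} (h : t ≤ tlof i m q) : q ≤ mrg q t := by
  refine ⟨le_rfl, fun _ _ => rfl, fun n x b hb => ?_⟩
  have hn : n < q.len := lt_len (p := mrg q t) hb
  by_cases hx : x.1 < i
  · rwa [mrg_lo hx] at hb
  · rw [mrg_hi hx hn] at hb
    have h1 := h n x b hb
    have h2 := (tlof i m q).sup n x (by rw [h1]; simp)
    rwa [tlof_pos h2] at h1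

end mrg

lemma exists_len (p : Cond) (m : ℕ) : ∃ q ≤ p, m ≤ q.len := by
  refine ⟨⟨max p.len m, p.s, p.f, fun n hn x => p.tail n ((le_max_left _ _).trans hn) x, p.sm,
    p.bd⟩, ⟨le_max_left _ _, fun _ _ => rfl, fun _ _ _ h => h⟩, le_max_right _ _⟩

/-- put a tail into a condition -/
lemma exists_put {i : Ordinal.{0}} {m : ℕ} {p : Cond} (hm : m ≤ p.len) {t : Tl i m}
    (ht : tlof i m p ≤ t) : ∃ q ≤ p, t ≤ tlof i m q := by
  refine ⟨⟨p.len, p.s, fun n x => (t.t n x).or (p.f n x), ?_, ?_, ?_⟩, ?_, ?_⟩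
  · intro n hn x
    rw [p.tail n hn x]
    cases h : t.t n x with
    | none => rfl
    | some c =>
      have := (t.sup n x (by rw [h]; simp)).1
      omega
  · intro n
    refine ((t.sm n).union (p.sm n)).mono (fun x hx => ?_)
    by_contra hcon
    rw [mem_union, not_or] at hcon
    simp only [mem_ofPred_eq, ne_eq, not_not] at hcon
    apply hx
    rw [hcon.1, hcon.2]
    rfl
  · obtain ⟨j, hj⟩ := t.bd
    obtain ⟨k, hk⟩ := p.bd
    refine ⟨max j k, fun n x hx => ?_⟩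
    by_cases h1 : t.t n x = none
    · rw [h1] at hx
      exact lt_max_of_lt_right (hk n x hx)
    · exact lt_max_of_lt_left (hj n x h1)
  · refine ⟨le_rfl, fun _ _ => rfl, fun n x b hb => ?_⟩
    show (t.t n x).or (p.f n x) = some b
    cases h : t.t n x with
    | none => rw [hb]; rfl
    | some c =>
      have h1 := t.sup n x (by rw [h]; simp)
      have h2 := ht n x b (by rw [tlof_pos h1]; exact hb)
      rw [h] at h2
      exact h2
  · intro n x b hb
    have h1 := t.sup n x (by rw [hb]; simp)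
    rw [tlof_pos h1]
    show (t.t n x).or (p.f n x) = some b
    rw [hb]
    rfl

/-! ### Atomic homogeneity -/

lemma fmem_fl {σ σ' τ τ' : Nm} {b : ℕ → X → Bool} {p : Cond} (h₁ : Eqv (act (fl b) σ) σ')
    (h₂ : Eqv (act (fl b) τ) τ') (h : fmem σ τ (fl b p)) : fmem σ' τ' p := by
  rw [← fmem_act_iff (fl_self b)] at h
  exact fmem_congr (h₁.feq p) (h₂.feq p) h

lemma fmem_fr {σ τ : Nm} {u : ℕ → Bool} {p : Cond} (h₁ : Cyl σ) (h₂ : Cyl τ) :
    fmem σ τ (fr u p) ↔ fmem σ τ p := by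
  rw [← fmem_act_iff (fr_self u), h₁ u, h₂ u]

lemma fmem_rs {σ τ : Nm} {Z : ℕ → X → Prop} {p : Cond}
    (h₁ : ∀ b, Sml b → (∀ n x, Z n x → b n x = false) → Eqv (act (fl b) σ) σ)
    (h₂ : ∀ b, Sml b → (∀ n x, Z n x → b n x = false) → Eqv (act (fl b) τ) τ) :
    fmem σ τ p ↔ fmem σ τ (rs Z p) := by
  refine ⟨fun hp => homog (Ψ := fmem σ τ) (fun _ _ h hq => fmem_mono h hq)
    (fun _ h => fmem_reg h) (fun b hb hbZ q hq => ?_) hp, fun hp => fmem_mono hp (le_rs Z p)⟩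
  have h3 : fmem σ τ (fl b (fl b q)) := by rwa [fl_self]
  exact fmem_fl (h₁ b hb hbZ) (h₂ b hb hbZ) h3

/-- the combinatorial core of the Power Set axiom -/
lemma pow_dense {σ₀ τ : Nm} (hσ : σ₀ ∈ NV) (hτ : τ ∈ NV) {i : Ordinal.{0}} (hi : Loc i τ)
    (hJ : ∀ l, i ≤ l → Cardinal.mk (τ.ι × Shrink.{0} (LC i)) ≤ lam l) (p₀ : Cond) :
    ∃ q ≤ p₀, ∃ Ψ : Nm → Cond → Prop, (∀ σ p q, Ψ σ p → q ≤ p → Ψ σ q) ∧
      subN τ Ψ ∈ NV ∧ Loc i (subN τ Ψ) ∧ ∀ k, ∀ r ≤ q, (Ψ (τ.A k) r ↔ fmem (τ.A k) σ₀ r) := by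
  obtain ⟨m, hm⟩ := NV_sym hσ
  obtain ⟨p₁, hp₁, hlen⟩ := exists_len p₀ m
  let dec : Shrink.{0} (LC i) → Cond := fun a => ((equivShrink (LC i)).symm a).1
  obtain ⟨t, ht0, ht⟩ := zorn_dec (T := Tl i m) (J := τ.ι × Shrink.{0} (LC i))
    (fun s hs => Tl.chain hJ s hs) (fun j t => fmem (τ.A j.1) σ₀ (mrg (dec j.2) t))
    (fun j t t' h htt => fmem_mono h (mrg_mono le_rfl htt)) (tlof i m p₁)
  obtain ⟨q, hq, htq⟩ := exists_put hlen ht0
  have mono : ∀ (σ : Nm) (p q : Cond), fmem σ σ₀ (mrg p t) → q ≤ p → fmem σ σ₀ (mrg q t) :=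
    fun σ p q h hqp => fmem_mono h (mrg_mono hqp le_rfl)
  have hNV := subN_NV (Ψ := fun σ r => fmem σ σ₀ (mrg r t)) hτ mono hi
    (fun k r => by rw [mrg_rl]) (fun k u r h => by
      show fmem (τ.A k) σ₀ (mrg (fr u r) t)
      rw [mrg_fr]
      exact (fmem_fr (hτ.2.2.mem k) hσ.2.2).2 h)
    (m := m) (fun b hb σ σ' he r h => by
      have h' : fmem σ σ₀ (mrg (fl b r) t) := h
      rw [mrg_fl hb.2] at h'
      exact fmem_fl he (hm b hb) h')
  refine ⟨q, hq.trans hp₁, fun σ r => fmem σ σ₀ (mrg r t), mono, hNV.1, hNV.2, ?_⟩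
  intro k r hr
  have htr : t ≤ tlof i m r := le_trans htq (tlof_mono hr)
  constructor
  · intro h
    exact fmem_mono h (le_mrg htr)
  · intro h
    have h1 : fmem (τ.A k) σ₀ (rs (reg i m) r) := by
      refine (fmem_rs (fun b hb hbZ => ?_) (fun b hb hbZ => ?_)).1 h
      · exact Eqv.of_eq ((hi.mem k).fl (fun n x hx => hbZ n x (Or.inl hx)))
      · exact hm b ⟨hb, fun n hn x => hbZ n x (Or.inr hn)⟩
    rw [rs_reg, ← mrg_rl] at h1
    have hrr : rl i (rl i r) = rl i r := rl_rl le_rfl r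
    have hdec : dec (equivShrink (LC i) ⟨rl i r, hrr⟩) = rl i r := by
      show ((equivShrink (LC i)).symm (equivShrink (LC i) ⟨rl i r, hrr⟩)).1 = rl i r
      rw [Equiv.symm_apply_apply]
    have h2 := ht (k, equivShrink (LC i) ⟨rl i r, hrr⟩) (tlof i m r) htr (by
      show fmem (τ.A k) σ₀ (mrg (dec _) _)
      rw [hdec]
      exact h1)
    have h3 : fmem (τ.A k) σ₀ (mrg (dec (equivShrink (LC i) ⟨rl i r, hrr⟩)) t) := h2
    rw [hdec, mrg_rl] at h3
    exact h3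

/-! ### The power set name -/

open Cardinal in
lemma exists_plvl {τ : Nm} (hτ : τ ∈ NV) : ∃ i, Loc i τ ∧
    ∀ l, i ≤ l → Cardinal.mk (τ.ι × Shrink.{0} (LC i)) ≤ lam l := by
  obtain ⟨i₀, hi₀⟩ := hτ.2.1
  refine ⟨max i₀ (#τ.ι).ord, hi₀.mono (le_max_left _ _), fun l hl => ?_⟩
  set i := max i₀ (#τ.ι).ord with hi
  have h1 : #τ.ι ≤ lam i := le_lam _ (le_max_right _ _)
  have h2 : #(Shrink.{0} (LC i)) ≤ lam i := by
    refine le_trans ?_ (mk_shrink_RawB i)
    have hinj : Function.Injective (fun a : Shrink.{0} (LC i) => equivShrink (RawB i)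
        (let b := ((equivShrink (LC i)).symm a); (b.1.len, b.1.s, fun n x => b.1.f n x.1))) := by
      exact (equivShrink (RawB i)).injective.comp ((LC_inj i).comp (equivShrink (LC i)).symm.injective)
    exact mk_le_of_injective hinj
  rw [mk_prod, Cardinal.lift_id, Cardinal.lift_id]
  calc #τ.ι * #(Shrink.{0} (LC i)) ≤ lam i * lam i := mul_le_mul' h1 h2
    _ = lam i := mul_eq_self (lam_aleph0 i)
    _ ≤ lam l := lam_mono hl

open Classical in
/-- the level bound for the power set -/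
noncomputable def plvl (τ : Nm) : Ordinal.{0} :=
  if h : ∃ i, Loc i τ ∧ ∀ l, i ≤ l → Cardinal.mk (τ.ι × Shrink.{0} (LC i)) ≤ lam l then h.choose
  else 0

lemma plvl_spec {τ : Nm} (hτ : τ ∈ NV) : Loc (plvl τ) τ ∧
    ∀ l, plvl τ ≤ l → Cardinal.mk (τ.ι × Shrink.{0} (LC (plvl τ))) ≤ lam l := by
  have h := exists_plvl hτ
  unfold plvl
  rw [dif_pos h]
  exact h.choose_spec

/-- candidates for names of subsets -/
def PW (τ : Nm) : Set Nm :=
  {ρ | (∃ d : τ.ι → LowerSet Cond, ρ = mk τ.ι τ.A d) ∧ ρ ∈ NV ∧ Loc (plvl τ) ρ}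

instance small_LL (i : Ordinal.{0}) : Small.{0} {c : LowerSet Cond // pre (rl i) c = c} := by
  refine small_of_injective (β := Set (LC i)) (f := fun c => {a | a.1 ∈ c.1}) ?_
  rintro ⟨c, hc⟩ ⟨d, hd⟩ h
  apply Subtype.ext
  show c = d
  ext q
  show q ∈ c ↔ q ∈ d
  rw [← hc, ← hd, mem_pre, mem_pre]
  have hrr : rl i (rl i q) = rl i q := rl_rl le_rfl q
  have h2 : (⟨rl i q, hrr⟩ : LC i) ∈ {a : LC i | a.1 ∈ c} ↔
      (⟨rl i q, hrr⟩ : LC i) ∈ {a : LC i | a.1 ∈ d} := by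
    have h' : {a : LC i | a.1 ∈ c} = {a : LC i | a.1 ∈ d} := h
    rw [h']
  exact h2

instance small_PW (τ : Nm) : Small.{0} (PW τ) := by
  let F : (τ.ι → {c : LowerSet Cond // pre (rl (plvl τ)) c = c}) → Nm := fun d =>
    mk τ.ι τ.A (fun k => (d k).1)
  have hsub : PW τ ⊆ range F := by
    rintro _ ⟨⟨d, rfl⟩, _, hL⟩
    exact ⟨fun k => ⟨d k, hL.c k⟩, rfl⟩
  exact small_subset hsub

/-- the power set name -/
noncomputable def powN (τ : Nm) : Nm := spN (PW τ)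

lemma PW_NV (τ : Nm) : PW τ ⊆ NV := fun _ h => h.2.1

/-- task for powN -/
def powT : Task Nm Cond := TF 1 fun v _ ρ => ρ = powN (v 0)

/-- task: names for subsets -/
def pwT : Task Nm Cond := TF 2 fun v q ρ => ∃ Ψ : Nm → Cond → Prop,
  (∀ σ p q, Ψ σ p → q ≤ p → Ψ σ q) ∧ ρ = subN (v 1) Ψ ∧ ρ ∈ PW (v 1) ∧
    ∀ k, ∀ r ≤ q, (Ψ ((v 1).A k) r ↔ fmem ((v 1).A k) (v 0) r)

theorem power_superset {U : Set Nm} {H : Set Cond} (hU : Atomic U H) (hpow : Meets U H powT)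
    (hpw : Meets U H pwT) {x : ZFSet.{0}} (hx : x ∈ Mod U H NV) :
    ∃ b ∈ Mod U H NV, ∀ z ∈ Mod U H NV, z ⊆ x → z ∈ b := by
  obtain ⟨τ, h1, h2, rfl⟩ := hx
  have hU' : powN τ ∈ U := closed_of hpow (v := fun _ => τ) (fun _ => h2)
  refine ⟨_, ⟨powN τ, spN_NV (PW_NV τ), hU', rfl⟩, ?_⟩
  rintro _ ⟨σ, h3, h4, rfl⟩ hsub
  rcases meets_TF hpw ![σ, τ] (forall2 h4 h2) with
    ⟨q, hq, ρ, hρ, Ψ, mono, rfl, hPW, hΨ⟩ | ⟨p, hp, hn⟩
  · have hval : val U H σ = val U H (subN τ Ψ) := by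
      ext x
      constructor
      · intro hx
        obtain ⟨k, hk, ⟨q₁, hq₁, hk₁⟩, rfl⟩ := mem_val.1 (hsub hx)
        obtain ⟨p, hp, hf⟩ := (val_mem_iff hU hk h4).1 hx
        obtain ⟨r, hr, h5, h6, h7⟩ := hU.filt.dir3 hq hq₁ hp
        refine mem_val.2 ⟨k, hk, ⟨r, hr, ?_⟩, rfl⟩
        exact (mem_subN (τ := τ) mono (k := k)).2
          ⟨(τ.c k).lower h6 hk₁, (hΨ k r h5).2 (fmem_mono hf h7)⟩
      · intro hx
        obtain ⟨k, hk, ⟨q₁, hq₁, hk₁⟩, rfl⟩ := mem_val.1 hx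
        have h5 := (mem_subN (τ := τ) mono (k := k)).1 hk₁
        obtain ⟨r, hr, h6, h7⟩ := hU.filt.dir q hq q₁ hq₁
        have h8 : Ψ (τ.A k) r := mono _ _ _ h5.2 h7
        exact (val_mem_iff hU (by exact hk) h4).2 ⟨r, hr, (hΨ k r h6).1 h8⟩
    rw [hval]
    exact mem_val_spN hU.filt.ne (PW_NV τ) hPW hρ
  · exfalso
    obtain ⟨h5, h6⟩ := plvl_spec h1
    obtain ⟨q, hq, Ψ, mono, h7, h8, h9⟩ := pow_dense h3 h1 h5 h6 p
    exact hn q hq (subN τ Ψ) ⟨Ψ, mono, rfl, ⟨⟨_, rfl⟩, h7, h8⟩, h9⟩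

end Pool.MP_3ade05_lc
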