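import Mathlib
import Pool.Agent.Lib.MP_3ade05_lc.Pow

/-!
# MP_3ade05_lc: the ground model satisfies ZF
-/

namespace Pool.MP_3ade05_lc

open Set

namespace Fml

/-- negation -/
def neg {n : ℕ} (φ : Fml n) : Fml n := imp φ bot
/-- conjunction -/
def conj {n : ℕ} (φ ψ : Fml n) : Fml n := neg (imp φ (neg ψ))
/-- existential quantifier -/
def ex {n : ℕ} (φ : Fml (n + 1)) : Fml n := neg (all (neg φ))

/-- renaming of free variables -/
def rename : {n : ℕ} → Fml n → {m : ℕ} → (Fin n → Fin m) → Fml m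
  | _, .bot, _, _ => bot
  | _, .eq i j, _, f => eq (f i) (f j)
  | _, .mem i j, _, f => mem (f i) (f j)
  | _, .imp φ ψ, _, f => imp (φ.rename f) (ψ.rename f)
  | _, .all φ, _, f => all (φ.rename (Fin.cons 0 (fun j => (f j).succ)))

end Fml

variable {E : Set ZFSet.{0}}

lemma Sat_neg {n : ℕ} {φ : Fml n} {v : Fin n → ZFSet.{0}} : Sat E φ.neg v ↔ ¬ Sat E φ v := Iff.rfl

lemma Sat_conj {n : ℕ} {φ ψ : Fml n} {v : Fin n → ZFSet.{0}} :
    Sat E (φ.conj ψ) v ↔ Sat E φ v ∧ Sat E ψ v := by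
  show ¬ (Sat E φ v → ¬ Sat E ψ v) ↔ _
  push Not
  rfl

lemma Sat_ex {n : ℕ} {φ : Fml (n + 1)} {v : Fin n → ZFSet.{0}} :
    Sat E φ.ex v ↔ ∃ x ∈ E, Sat E φ (Fin.cons x v) := by
  show ¬ (∀ x ∈ E, ¬ Sat E φ (Fin.cons x v)) ↔ _
  push Not
  rfl

lemma Sat_rename {n m : ℕ} {φ : Fml n} {f : Fin n → Fin m} {v : Fin m → ZFSet.{0}} :
    Sat E (φ.rename f) v ↔ Sat E φ (fun j => v (f j)) := by
  induction φ generalizing m with
  | bot => exact Iff.rfl
  | eq i j => exact Iff.rfl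
  | mem i j => exact Iff.rfl
  | imp φ ψ ih₁ ih₂ => exact imp_congr ih₁ ih₂
  | all φ ih =>
    refine forall₂_congr fun x _ => ?_
    rw [ih]
    have : (fun j => (Fin.cons x v : Fin (m + 1) → ZFSet.{0})
        ((Fin.cons 0 (fun j => (f j).succ) : Fin _ → Fin (m + 1)) j)) =
        (Fin.cons x (fun j => v (f j)) : Fin _ → ZFSet.{0}) := by
      funext j
      refine Fin.cases ?_ (fun j => ?_) j <;> rfl
    rw [this]

/-- A transitive class with first-order Separation, Collection, and closure properties is a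
model of ZF. -/
theorem zf_of (htr : ∀ x ∈ E, ∀ y ∈ x, y ∈ E)
    (hsep : ∀ (n : ℕ) (φ : Fml (n + 1)) (v : Fin n → ZFSet.{0}), (∀ i, v i ∈ E) →
      ∀ a ∈ E, ∃ b ∈ E, ∀ x, x ∈ b ↔ x ∈ a ∧ Sat E φ (Fin.cons x v))
    (hcol : ∀ (n : ℕ) (φ : Fml (n + 2)) (v : Fin n → ZFSet.{0}), (∀ i, v i ∈ E) →
      ∀ a ∈ E, ∃ b ∈ E, ∀ x ∈ a, (∃ y ∈ E, Sat E φ (Fin.cons x (Fin.cons y v))) →
        ∃ y ∈ b, Sat E φ (Fin.cons x (Fin.cons y v)))
    (hpair : ∀ x ∈ E, ∀ y ∈ E, ({x, y} : ZFSet.{0}) ∈ E)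
    (hun : ∀ x ∈ E, ∃ b ∈ E, ∀ y ∈ x, ∀ z ∈ y, z ∈ b)
    (hpow : ∀ x ∈ E, ∃ b ∈ E, ∀ z ∈ E, z ⊆ x → z ∈ b)
    (hinf : ∃ x ∈ E, ∅ ∈ x ∧ ∀ y ∈ x, insert y y ∈ x) : ZFModel E where
  nonempty := hinf.imp fun _ h => h.1
  extensionality x hx y hy h := by
    ext z
    constructor
    · intro hz
      exact (h z (htr x hx z hz)).1 hz
    · intro hz
      exact (h z (htr y hy z hz)).2 hz
  foundation x hx h := by
    obtain ⟨y, hy, hyx⟩ := h
    have hne : x ≠ ∅ := by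
      rintro rfl
      exact ZFSet.notMem_empty y hyx
    obtain ⟨z, hz, hzx⟩ := ZFSet.regularity x hne
    refine ⟨z, htr x hx z hz, hz, fun w _ hw hwx => ?_⟩
    have : w ∈ x ∩ z := ZFSet.mem_inter.2 ⟨hwx, hw⟩
    rw [hzx] at this
    exact ZFSet.notMem_empty w this
  pairing x hx y hy := ⟨{x, y}, hpair x hx y hy, fun w _ => ZFSet.mem_pair⟩
  union x hx := by
    obtain ⟨b, hb, h⟩ := hun x hx
    obtain ⟨u, hu, h'⟩ := hsep 1 (Fml.ex ((Fml.mem 0 2).conj (Fml.mem 1 0))) ![x]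
      (fun i => by fin_cases i; exact hx) b hb
    refine ⟨u, hu, fun z hz => ?_⟩
    rw [h' z, Sat_ex]
    constructor
    · rintro ⟨_, y, hy, hs⟩
      have := Sat_conj.1 hs
      exact ⟨y, hy, this.1, this.2⟩
    · rintro ⟨y, hy, h1, h2⟩
      exact ⟨h y h1 z h2, y, hy, Sat_conj.2 ⟨h1, h2⟩⟩
  power x hx := by
    obtain ⟨b, hb, h⟩ := hpow x hx
    obtain ⟨u, hu, h'⟩ := hsep 1 (Fml.all ((Fml.mem 0 1).imp (Fml.mem 0 2))) ![x]
      (fun i => by fin_cases i; exact hx) b hb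
    refine ⟨u, hu, fun z hz => ?_⟩
    rw [h' z]
    constructor
    · rintro ⟨_, hs⟩ w hw hwz
      exact hs w hw hwz
    · intro hs
      exact ⟨h z hz (fun w hw => hs w (htr z hz w hw) hw), fun w hw hwz => hs w hw hwz⟩
  infinity := by
    obtain ⟨x, hx, h1, h2⟩ := hinf
    refine ⟨x, hx, ⟨∅, htr x hx _ h1, h1, fun z _ => ZFSet.notMem_empty z⟩, fun y _ hyx => ?_⟩
    refine ⟨insert y y, htr x hx _ (h2 y hyx), h2 y hyx, fun w _ => ?_⟩
    rw [ZFSet.mem_insert_iff]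
    exact or_comm
  separation n φ v hv a ha := by
    obtain ⟨b, hb, h⟩ := hsep n φ v hv a ha
    exact ⟨b, hb, fun x _ => h x⟩
  replacement n φ v hv a ha hfun := by
    obtain ⟨b, hb, h⟩ := hcol n φ v hv a ha
    let f : Fin (n + 2) → Fin (n + 3) := Fin.cons 0 (Fin.cons 1 (fun j => j.succ.succ.succ))
    obtain ⟨u, hu, h'⟩ := hsep (n + 1) (Fml.ex ((Fml.mem 0 2).conj (φ.rename f)))
      (Fin.cons a v) (fun i => by
        refine Fin.cases ?_ (fun i => ?_) i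
        · exact ha
        · exact hv i) b hb
    have key : ∀ x y, (fun j => (Fin.cons x (Fin.cons y (Fin.cons a v)) : Fin (n + 3) → ZFSet.{0})
        (f j)) = (Fin.cons x (Fin.cons y v) : Fin (n + 2) → ZFSet.{0}) := by
      intro x y
      funext j
      refine Fin.cases ?_ (fun j => ?_) j
      · rfl
      · refine Fin.cases ?_ (fun j => ?_) j
        · rfl
        · rfl
    have hmem : ∀ x y, Sat E (Fml.mem 0 2)
        (Fin.cons x (Fin.cons y (Fin.cons a v)) : Fin (n + 3) → ZFSet.{0}) ↔ x ∈ a :=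
      fun x y => Iff.rfl
    refine ⟨u, hu, fun y hy => ?_⟩
    rw [h' y, Sat_ex]
    constructor
    · rintro ⟨_, x, hx, hs⟩
      have h1 := Sat_conj.1 hs
      rw [hmem, Sat_rename, key] at h1
      exact ⟨x, hx, h1.1, h1.2⟩
    · rintro ⟨x, hx, hxa, hs⟩
      refine ⟨?_, x, hx, ?_⟩
      · obtain ⟨y', hy', hs'⟩ := h x hxa ⟨y, hy, hs⟩
        have := (hfun x hx hxa).unique ⟨hy, hs⟩ ⟨htr b hb y' hy', hs'⟩
        rw [this]
        exact hy'
      · refine Sat_conj.2 ?_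
        rw [hmem, Sat_rename, key]
        exact ⟨hxa, hs⟩

open Name Cond

/-- a constant name is in `U` -/
def seedT (σ : Nm) : Task Nm Cond := TF 0 fun _ _ ρ => ρ = σ

lemma seed_U {U : Set Nm} {H : Set Cond} {σ : Nm} (h : Meets U H (seedT σ)) : σ ∈ U :=
  closed_of (F := fun _ => σ) h (v := Fin.elim0) (fun j => j.elim0)

/-- name for `ω` -/
noncomputable def omN : Nm := mk ℕ (fun n => en n) (fun _ => ⊤)

lemma omN_Inv : Inv omN := fun α => act_mk_of (fun n => en_Inv n α) (fun _ => pre_top _)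

/-- All the tasks needed for `ZF`. -/
structure GoodV (U : Set Nm) (H : Set Cond) : Prop where
  full : Full U H NV
  sep : ∀ {n : ℕ} (φ : Fml (n + 1)), Meets U H (sepT φ)
  col : ∀ {n : ℕ} (φ : Fml (n + 2)), Meets U H (colT φ)
  cw : ∀ {n : ℕ} (φ : Fml (n + 2)), Meets U H (cwT φ)
  uni : Meets U H uniT
  pr : Meets U H prT
  pow : Meets U H powT
  pw : Meets U H pwT
  en : ∀ n : ℕ, Meets U H (seedT (en n))
  om : Meets U H (seedT omN)

section
variable {U : Set Nm} {H : Set Cond}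

lemma mem_val_en {T : Type} [LinearOrder T] [WellFoundedLT T] (hH : H.Nonempty)
    (hT : ∀ t : T, en t ∈ U) (t : T) (x : ZFSet.{0}) :
    x ∈ val U H (en t) ↔ ∃ s < t, x = val U H (en s) := by
  obtain ⟨q, hq⟩ := hH
  rw [en_eq, mem_val]
  constructor
  · rintro ⟨k, _, _, rfl⟩
    exact ⟨k.1, k.2, rfl⟩
  · rintro ⟨s, hs, rfl⟩
    exact ⟨⟨s, hs⟩, hT s, ⟨q, hq, trivial⟩, rfl⟩

lemma infinity_Mod (hH : H.Nonempty) (hen : ∀ n : ℕ, en n ∈ U) (hom : omN ∈ U) :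
    ∃ x ∈ Mod U H NV, ∅ ∈ x ∧ ∀ y ∈ x, insert y y ∈ x := by
  have hmem : ∀ x, x ∈ val U H omN ↔ ∃ n : ℕ, x = val U H (en n) := by
    intro x
    obtain ⟨q, hq⟩ := hH
    rw [mem_val]
    constructor
    · rintro ⟨k, _, _, rfl⟩
      exact ⟨k, rfl⟩
    · rintro ⟨s, rfl⟩
      exact ⟨s, hen s, ⟨q, hq, trivial⟩, rfl⟩
  refine ⟨val U H omN, ⟨omN, omN_Inv.NV, hom, rfl⟩, ?_, ?_⟩
  · rw [hmem]
    refine ⟨0, ?_⟩
    symm
    rw [ZFSet.eq_empty]
    intro y hy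
    rw [mem_val_en hH hen] at hy
    obtain ⟨s, hs, _⟩ := hy
    omega
  · intro y hy
    rw [hmem] at hy ⊢
    obtain ⟨n, rfl⟩ := hy
    refine ⟨n + 1, ?_⟩
    ext x
    rw [ZFSet.mem_insert_iff, mem_val_en hH hen, mem_val_en hH hen]
    constructor
    · rintro (rfl | ⟨s, hs, rfl⟩)
      · exact ⟨n, Nat.lt_succ_self n, rfl⟩
      · exact ⟨s, by omega, rfl⟩
    · rintro ⟨s, hs, rfl⟩
      rcases Nat.lt_succ_iff_lt_or_eq.1 hs with h | h
      · exact Or.inr ⟨s, h, rfl⟩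
      · left
        rw [h]

theorem ZF_Mod (h : GoodV U H) : ZFModel (Mod U H NV) :=
  zf_of (fun _ hx _ hy => Mod_trans hx hy)
    (fun _ φ v hv a ha => separation h.full h.sep φ v hv a ha)
    (fun _ φ v hv a ha => collection h.full h.col h.cw φ v hv a ha)
    (fun _ hx _ hy => pairing h.full.at'.filt.ne h.pr hx hy)
    (fun _ hx => union_superset h.full.at'.filt.ne h.uni hx)
    (fun _ hx => power_superset h.full.at' h.pow h.pw hx)
    (infinity_Mod h.full.at'.filt.ne (fun n => seed_U (h.en n)) (seed_U h.om))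

end

end Pool.MP_3ade05_lc
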