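import Mathlib
import Pool.Agent.Lib.MP_3ade05_lc.Model

/-!
# MP_3ade05_lc: Cohen forcing in the ground model; the big model is the generic extension
-/

namespace Pool.MP_3ade05_lc

open Set Name Cond

lemma mem_nameVal {G : Set ZFSet.{0}} {τ x : ZFSet.{0}} :
    x ∈ nameVal G τ ↔ ∃ σ, ∃ p ∈ G, ZFSet.pair σ p ∈ τ ∧ x = nameVal G σ := by
  have h : nameVal G τ = ZFSet.range fun σ : names G τ => nameVal G σ :=
    (ZFSet.mem_wf.transGen).fix_eq _ τ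
  rw [h, ZFSet.mem_range]
  constructor
  · rintro ⟨⟨σ, p, hp, hσ⟩, rfl⟩
    exact ⟨σ, p, hp, hσ, rfl⟩
  · rintro ⟨σ, p, hp, hσ, rfl⟩
    exact ⟨⟨σ, p, hp, hσ⟩, rfl⟩

/-! ### Finite words -/

lemma prefix_iff_getD {w w' : List Bool} : w <+: w' ↔
    w.length ≤ w'.length ∧ ∀ n < w.length, w.getD n false = w'.getD n false := by
  rw [List.prefix_iff_getElem?]
  constructor
  · intro h
    have hlen : w.length ≤ w'.length := by
      by_contra hcon
      have h1 := h w'.length (by omega)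
      rw [List.getElem?_eq_none (le_refl _)] at h1
      exact absurd h1 (by simp)
    refine ⟨hlen, fun n hn => ?_⟩
    rw [List.getD_eq_getElem?_getD, List.getD_eq_getElem?_getD, h n hn,
      List.getElem?_eq_getElem hn]
  · rintro ⟨hlen, h⟩ n hn
    have h1 := h n hn
    rw [List.getD_eq_getElem?_getD, List.getD_eq_getElem?_getD,
      List.getElem?_eq_getElem hn, List.getElem?_eq_getElem (lt_of_lt_of_le hn hlen)] at h1
    rw [List.getElem?_eq_getElem (lt_of_lt_of_le hn hlen)]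
    simpa using h1.symm

/-- `w` is an initial segment of the real of `q` -/
def Pre (w : List Bool) (q : Cond) : Prop :=
  w.length ≤ q.len ∧ ∀ n < w.length, w.getD n false = q.s n

lemma Pre.mono {w : List Bool} {q q' : Cond} (h : Pre w q) (hq : q' ≤ q) : Pre w q' :=
  ⟨h.1.trans hq.1, fun n hn => (h.2 n hn).trans (hq.2.1 n (lt_of_lt_of_le hn h.1)).symm⟩

lemma Pre.pre {w w' : List Bool} {q : Cond} (h : Pre w q) (hw : w' <+: w) : Pre w' q := by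
  rw [prefix_iff_getD] at hw
  exact ⟨hw.1.trans h.1, fun n hn => (hw.2 n hn).trans (h.2 n (lt_of_lt_of_le hn hw.1))⟩

/-- the word of a condition -/
def wd (q : Cond) : List Bool := (List.range q.len).map q.s

@[simp] lemma wd_length (q : Cond) : (wd q).length = q.len := by simp [wd]

lemma wd_getD (q : Cond) {n : ℕ} (hn : n < q.len) : (wd q).getD n false = q.s n := by
  rw [List.getD_eq_getElem _ _ (by simpa using hn)]
  simp [wd]

lemma Pre_wd (q : Cond) : Pre (wd q) q :=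
  ⟨by simp, fun n hn => wd_getD q (by simpa using hn)⟩

lemma Pre_fl {w : List Bool} {q : Cond} (b : ℕ → X → Bool) : Pre w (fl b q) ↔ Pre w q := by
  unfold Pre
  simp

lemma Pre_rs {w : List Bool} {q : Cond} (Z : ℕ → X → Prop) : Pre w (rs Z q) ↔ Pre w q := Iff.rfl

/-- name of a word -/
noncomputable def wN (w : List Bool) : Nm := en (Encodable.encode w : ℕ)

lemma wN_Inv (w : List Bool) : Inv (wN w) := en_Inv _

lemma wN_inj {w w' : List Bool} {p : Cond} (h : feq (wN w) (wN w') p) : w = w' :=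
  Encodable.encode_injective (en_inj h)

/-- name of the forcing -/
noncomputable def PN : Nm := mk (List Bool) wN (fun _ => ⊤)

lemma PN_Inv : Inv PN := fun α => act_mk_of (fun w => wN_Inv w α) (fun _ => pre_top _)

/-- name of the order: `a ≤ b` iff `b` is an initial segment of `a` -/
noncomputable def leN : Nm :=
  mk {z : List Bool × List Bool // z.2 <+: z.1} (fun z => opN (wN z.1.1) (wN z.1.2)) (fun _ => ⊤)

lemma Inv_opN {σ τ : Nm} (hσ : Inv σ) (hτ : Inv τ) : Inv (opN σ τ) := fun α => by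
  rw [act_opN, hσ, hτ]

lemma leN_Inv : Inv leN := fun α => act_mk_of
  (fun _ => Inv_opN (wN_Inv _) (wN_Inv _) α) (fun _ => pre_top _)

/-- task for genericity: parameter `δ` -/
def genT : Task Nm Cond := TF 1 fun v q _ => ∃ w : List Bool, Pre w q ∧ fmem (wN w) (v 0) q

/-- tasks for the forcing notion -/
structure GoodP (U : Set Nm) (H : Set Cond) : Prop where
  at' : Atomic U H
  pr : Meets U H prT
  en : ∀ n : ℕ, Meets U H (seedT (en n))
  P : Meets U H (seedT PN)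
  le : Meets U H (seedT leN)
  gen : Meets U H genT

section
variable {U : Set Nm} {H : Set Cond}

/-- code of a word in the model -/
noncomputable def cw (U : Set Nm) (H : Set Cond) (w : List Bool) : ZFSet.{0} := val U H (wN w)

/-- the generic filter -/
def Gen (U : Set Nm) (H : Set Cond) : Set ZFSet.{0} :=
  {x | ∃ q ∈ H, ∃ w, Pre w q ∧ x = cw U H w}

variable (h : GoodP U H)
include h

lemma wN_U (w : List Bool) : wN w ∈ U := seed_U (h.en _)

lemma cw_inj {w w' : List Bool} (hw : cw U H w = cw U H w') : w = w' := by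
  obtain ⟨p, _, hp⟩ := (val_eq_iff h.at' (wN_U h w) (wN_U h w')).1 hw
  exact wN_inj hp

lemma mem_P (x : ZFSet.{0}) : x ∈ val U H PN ↔ ∃ w, x = cw U H w := by
  obtain ⟨q, hq⟩ := h.at'.filt.ne
  rw [mem_val]
  constructor
  · rintro ⟨k, _, _, rfl⟩
    exact ⟨k, rfl⟩
  · rintro ⟨w, rfl⟩
    exact ⟨w, wN_U h w, ⟨q, hq, trivial⟩, rfl⟩

lemma mem_le (x : ZFSet.{0}) : x ∈ val U H leN ↔
    ∃ w w', w' <+: w ∧ x = ZFSet.pair (cw U H w) (cw U H w') := by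
  have hne := h.at'.filt.ne
  rw [mem_val]
  constructor
  · rintro ⟨⟨⟨w, w'⟩, hw⟩, _, _, rfl⟩
    exact ⟨w, w', hw, val_opN hne h.pr (wN_U h w) (wN_U h w')⟩
  · rintro ⟨w, w', hw, rfl⟩
    obtain ⟨q, hq⟩ := h.at'.filt.ne
    exact ⟨⟨(w, w'), hw⟩, opN_U h.pr (wN_U h w) (wN_U h w'), ⟨q, hq, trivial⟩,
      (val_opN hne h.pr (wN_U h w) (wN_U h w')).symm⟩

lemma pair_le (w w' : List Bool) :
    ZFSet.pair (cw U H w) (cw U H w') ∈ val U H leN ↔ w' <+: w := by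
  rw [mem_le h]
  constructor
  · rintro ⟨a, b, hab, he⟩
    have := ZFSet.pair_injective he
    rw [cw_inj h this.1, cw_inj h this.2]
    exact hab
  · intro hw
    exact ⟨w, w', hw, rfl⟩

theorem isForcing : IsForcing (val U H PN) (val U H leN) where
  sub x hx := by
    obtain ⟨w, w', _, rfl⟩ := (mem_le h x).1 hx
    exact ⟨_, (mem_P h _).2 ⟨w, rfl⟩, _, (mem_P h _).2 ⟨w', rfl⟩, rfl⟩
  refl a ha := by
    obtain ⟨w, rfl⟩ := (mem_P h a).1 ha
    exact (pair_le h w w).2 List.prefix_rfl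
  trans a ha b hb c hc hab hbc := by
    obtain ⟨w, rfl⟩ := (mem_P h a).1 ha
    obtain ⟨w', rfl⟩ := (mem_P h b).1 hb
    obtain ⟨w'', rfl⟩ := (mem_P h c).1 hc
    rw [pair_le h] at hab hbc ⊢
    exact hbc.trans hab
  top := by
    refine ⟨cw U H [], (mem_P h _).2 ⟨[], rfl⟩, fun a ha => ?_⟩
    obtain ⟨w, rfl⟩ := (mem_P h a).1 ha
    exact (pair_le h _ _).2 List.nil_prefix

lemma mem_Gen (w : List Bool) : cw U H w ∈ Gen U H ↔ ∃ q ∈ H, Pre w q := by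
  constructor
  · rintro ⟨q, hq, w', hw', he⟩
    rw [cw_inj h he]
    exact ⟨q, hq, hw'⟩
  · rintro ⟨q, hq, hw⟩
    exact ⟨q, hq, w, hw, rfl⟩

theorem isGeneric : IsGeneric (Mod U H NV) (val U H PN) (val U H leN) (Gen U H) where
  sub a ha := by
    obtain ⟨q, _, w, _, rfl⟩ := ha
    exact (mem_P h _).2 ⟨w, rfl⟩
  nonempty := by
    obtain ⟨q, hq⟩ := h.at'.filt.ne
    exact ⟨_, q, hq, wd q, Pre_wd q, rfl⟩
  up a ha b hb hab := by
    obtain ⟨q, hq, w, hw, rfl⟩ := ha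
    obtain ⟨w', rfl⟩ := (mem_P h b).1 hb
    rw [pair_le h] at hab
    exact ⟨q, hq, w', hw.pre hab, rfl⟩
  directed a ha b hb := by
    obtain ⟨q, hq, w, hw, rfl⟩ := ha
    obtain ⟨q', hq', w', hw', rfl⟩ := hb
    obtain ⟨r, hr, h1, h2⟩ := h.at'.filt.dir q hq q' hq'
    have key : ∀ v, Pre v r → v <+: wd r := by
      intro v hv
      rw [prefix_iff_getD]
      exact ⟨by simpa using hv.1, fun n hn => by
        rw [hv.2 n hn, wd_getD r (lt_of_lt_of_le hn hv.1)]⟩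
    refine ⟨cw U H (wd r), ⟨r, hr, wd r, Pre_wd r, rfl⟩, ?_, ?_⟩
    · exact (pair_le h _ _).2 (key w (hw.mono h1))
    · exact (pair_le h _ _).2 (key w' (hw'.mono h2))
  generic D hD hdense := by
    obtain ⟨δ, hδ, hδU, rfl⟩ := hD
    have hne : Nonempty Nm := ⟨emN⟩
    rcases meets_TF h.gen (fun _ => δ) (fun _ => hδU) with
      ⟨q, hq, ρ, _, w, hw, hf⟩ | ⟨p, hp, hn⟩
    · exact ⟨cw U H w, ⟨q, hq, w, hw, rfl⟩, (val_mem_iff h.at' (wN_U h w) hδU).2 ⟨q, hq, hf⟩⟩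
    · exfalso
      obtain ⟨d, hd, hdp⟩ := hdense.2 (cw U H (wd p)) ((mem_P h _).2 ⟨_, rfl⟩)
      obtain ⟨w', rfl⟩ := (mem_P h d).1 (hdense.1 hd)
      rw [pair_le h] at hdp
      obtain ⟨r, hr, hf⟩ := (val_mem_iff h.at' (wN_U h w') hδU).1 hd
      obtain ⟨r', _, h1, h2⟩ := h.at'.filt.dir r hr p hp
      obtain ⟨r'', h3, h4⟩ := exists_len r' w'.length
      let u : ℕ → Bool := fun n => xor (w'.getD n false) (r''.s n)
      have hs : ∀ n, (fr u r'').s n = w'.getD n false := by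
        intro n
        show xor (r''.s n) (xor (w'.getD n false) (r''.s n)) = _
        cases w'.getD n false <;> cases r''.s n <;> rfl
      have hle : fr u r'' ≤ p := by
        refine ⟨h2.1.trans h3.1, fun n hn => ?_, fun n x b hb => ?_⟩
        · rw [hs n]
          rw [prefix_iff_getD] at hdp
          rw [← hdp.2 n (by simpa using hn), wd_getD p hn]
        · rw [tw_f, (h3.trans h2).2.2 n x b hb]
          simp
      refine hn (fr u r'') hle hne.some ⟨w', ⟨h4, fun n _ => (hs n).symm⟩, ?_⟩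
      show fmem (wN w') δ (fr u r'')
      rw [fmem_fr ((wN_Inv w').NV.2.2) hδ.2.2]
      exact fmem_mono hf (h3.trans h1)

end

/-! ### Star translation: names for `P`-names -/

/-- replace the real of a condition by a word -/
def setS (q : Cond) (w : List Bool) : Cond :=
  { q with s := fun n => w.getD n false }

/-- conditions of the star translation -/
def stc (c : LowerSet Cond) (w : List Bool) : LowerSet Cond :=
  ⟨{q | ∃ q', q ≤ q' ∧ q'.len = w.length ∧ setS q' w ∈ c},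
    fun _ _ hba ⟨q', h1, h2⟩ => ⟨q', hba.trans h1, h2⟩⟩

lemma mem_stc {c : LowerSet Cond} {w : List Bool} {q : Cond} :
    q ∈ stc c w ↔ ∃ q', q ≤ q' ∧ q'.len = w.length ∧ setS q' w ∈ c := Iff.rfl

/-- star translation -/
noncomputable def stN : Nm → Nm
  | Name.mk ι A c => Name.mk (ι × List Bool) (fun z => opN (stN (A z.1)) (wN z.2))
      (fun z => stc (c z.1) z.2)

lemma pre_fl_stc (b : ℕ → X → Bool) (c : LowerSet Cond) (w : List Bool) :
    pre (fl b) (stc c w) = stc (pre (fl b) c) w := by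
  have key : ∀ q', setS (fl b q') w = fl b (setS q' w) := by
    intro q'
    refine ext' rfl (fun n => by simp [setS]) (fun n x => rfl)
  ext q
  show fl b q ∈ stc c w ↔ q ∈ stc (pre (fl b) c) w
  rw [mem_stc, mem_stc]
  constructor
  · rintro ⟨q', h1, h2, h3⟩
    refine ⟨fl b q', ?_, h2, ?_⟩
    · have := (fl b).monotone h1
      rwa [fl_self] at this
    · rw [mem_pre, key, fl_self]
      exact h3
  · rintro ⟨q', h1, h2, h3⟩
    refine ⟨fl b q', (fl b).monotone h1, h2, ?_⟩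
    rw [key]
    exact h3

lemma pre_fr_stc (u : ℕ → Bool) (c : LowerSet Cond) (w : List Bool) :
    pre (fr u) (stc c w) = stc c w := by
  have key : ∀ q', setS (fr u q') w = setS q' w := by
    intro q'
    refine ext' rfl (fun n => rfl) (fun n x => ?_)
    show ((fr u q').f n x) = q'.f n x
    rw [tw_f]
    cases q'.f n x <;> simp
  ext q
  show fr u q ∈ stc c w ↔ q ∈ stc c w
  rw [mem_stc, mem_stc]
  constructor
  · rintro ⟨q', h1, h2, h3⟩
    refine ⟨fr u q', ?_, h2, ?_⟩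
    · have := (fr u).monotone h1
      rwa [fr_self] at this
    · rwa [key]
  · rintro ⟨q', h1, h2, h3⟩
    refine ⟨fr u q', (fr u).monotone h1, h2, ?_⟩
    rwa [key]

lemma pre_rl_stc {i : Ordinal.{0}} {c : LowerSet Cond} (hc : pre (rl i) c = c) (w : List Bool) :
    pre (rl i) (stc c w) = stc c w := by
  ext q
  show rl i q ∈ stc c w ↔ q ∈ stc c w
  constructor
  · intro h
    exact (stc c w).lower (le_rs _ q) h
  · rintro ⟨q', h1, h2, h3⟩
    refine ⟨rl i q', (rl i).monotone h1, h2, ?_⟩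
    rw [← hc] at h3
    exact h3

lemma act_stN_fl (b : ℕ → X → Bool) (τ : Nm) : act (fl b) (stN τ) = stN (act (fl b) τ) := by
  induction τ with
  | mk ι A c ih =>
    rw [stN, act_mk, act_mk, stN]
    congr 1
    · funext z
      rw [act_opN, ih, wN_Inv]
    · funext z
      exact pre_fl_stc b _ _

lemma act_stN_fr (u : ℕ → Bool) (τ : Nm) : act (fr u) (stN τ) = stN τ := by
  induction τ with
  | mk ι A c ih =>
    rw [stN]
    refine act_mk_of (fun z => ?_) (fun z => pre_fr_stc u _ _)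
    rw [act_opN, ih, wN_Inv]

lemma act_stN_rl {i : Ordinal.{0}} {τ : Nm} (hτ : Loc i τ) : Loc i (stN τ) := by
  induction τ with
  | mk ι A c ih =>
    rw [stN]
    refine act_mk_of (fun z => ?_) (fun z => pre_rl_stc (hτ.c z.1) _)
    have h1 : act (rl i) (stN (A z.1)) = stN (A z.1) := ih z.1 (hτ.mem z.1)
    rw [act_opN, h1, wN_Inv]

lemma Eqv_stN {σ τ : Nm} (h : Eqv σ τ) : Eqv (stN σ) (stN τ) := by
  induction σ generalizing τ with
  | mk ι A c ih =>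
    cases τ with
    | mk ι' A' c' =>
      refine ⟨fun z => ?_, fun z => ?_⟩
      · obtain ⟨l, h1, h2⟩ := h.1 z.1
        exact ⟨(l, z.2), congrArg (fun d => stc d z.2) h1, Eqv_opN (ih _ h2) (Eqv.refl _)⟩
      · obtain ⟨l, h1, h2⟩ := h.2 z.1
        exact ⟨(l, z.2), congrArg (fun d => stc d z.2) h1, Eqv_opN (ih _ h2) (Eqv.refl _)⟩

lemma HS_opN {σ τ : Nm} (hσ : HS σ) (hτ : HS τ) : HS (opN σ τ) :=
  HS_prN (HS_prN hσ hσ) (HS_prN hσ hτ)

lemma HS_stN {τ : Nm} (h : HS τ) : HS (stN τ) := by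
  induction τ with
  | mk ι A c ih =>
    obtain ⟨⟨m, hm⟩, hA⟩ := h
    refine ⟨⟨m, fun b hb => ?_⟩, fun z => HS_opN (ih z.1 (hA z.1)) (wN_Inv _).HS⟩
    show Eqv (act (fl b) (stN (mk ι A c))) (stN (mk ι A c))
    rw [act_stN_fl]
    exact Eqv_stN (hm b hb)

lemma NV_stN {τ : Nm} (h : τ ∈ NW) : stN τ ∈ NV :=
  ⟨HS_stN h.1, h.2.imp fun _ hi => act_stN_rl hi, fun u => act_stN_fr u τ⟩

lemma stN_def (τ : Nm) : stN τ = Name.mk (τ.ι × List Bool)
    (fun z => opN (stN (τ.A z.1)) (wN z.2)) (fun z => stc (τ.c z.1) z.2) := by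
  cases τ; rfl

/-- closure task for star -/
def stT : Task Nm Cond := TF 1 fun v _ ρ => ρ = stN (v 0)

/-- witness task for star -/
def stwT : Task Nm Cond := TF 2 fun v q ρ => ∃ (k : (v 0).ι) (w : List Bool),
  ρ = (v 0).A k ∧ v 1 = opN (stN ρ) (wN w) ∧ q ∈ stc ((v 0).c k) w

theorem nameVal_stN {U : Set Nm} {H : Set Cond} (h : GoodP U H) (hst : Meets U H stT)
    (hstw : Meets U H stwT) {τ : Nm} (hτ : τ ∈ U) :
    nameVal (Gen U H) (val U H (stN τ)) = val U H τ := by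
  have hcl : ∀ σ ∈ U, stN σ ∈ U := fun σ hσ =>
    closed_of (F := fun v => stN (v 0)) hst (v := fun _ => σ) (fun _ => hσ)
  have hne := h.at'.filt.ne
  induction τ using Name.ind with
  | h τ ih =>
    ext x
    rw [mem_nameVal]
    constructor
    · rintro ⟨σ, p, hp, hσp, rfl⟩
      rw [stN_def, mem_val] at hσp
      obtain ⟨⟨k, w⟩, hkU, ⟨q, hq, hqc⟩, he⟩ := hσp
      simp only [mk_A, mk_c] at hkU hqc he
      rcases meets_TF hstw ![τ, opN (stN (τ.A k)) (wN w)] (forall2 hτ hkU) with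
        ⟨q₂, hq₂, ρ, hρ, hR⟩ | ⟨p', hp', hn⟩
      · have hR' : ∃ (k₂ : τ.ι) (w₂ : List Bool), ρ = τ.A k₂ ∧
          opN (stN (τ.A k)) (wN w) = opN (stN ρ) (wN w₂) ∧ q₂ ∈ stc (τ.c k₂) w₂ := hR
        obtain ⟨k₂, w₂, rfl, hN', hq₂c⟩ := hR'
        rw [hN', val_opN hne h.pr (hcl _ hρ) (wN_U h w₂)] at he
        obtain ⟨rfl, rfl⟩ := ZFSet.pair_injective he
        obtain ⟨q₃, hq₃, hpre⟩ := (mem_Gen h w₂).1 hp
        obtain ⟨q', h1, h2, h3⟩ := mem_stc.1 hq₂c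
        have hq' : q' ∈ H := h.at'.filt.up q₂ hq₂ q' h1
        obtain ⟨r, hr, h4, h5⟩ := h.at'.filt.dir q' hq' q₃ hq₃
        have hle : q' ≤ setS q' w₂ := by
          refine ⟨le_rfl, fun n hn => ?_, fun n x b hb => hb⟩
          show q'.s n = w₂.getD n false
          have h6 := (hpre.mono h5).2 n (by rw [← h2]; exact hn)
          rw [h6, h4.2.1 n hn]
        rw [ih k₂ hρ]
        exact mem_val.2 ⟨k₂, hρ, ⟨_, h.at'.filt.up q' hq' _ hle, h3⟩, rfl⟩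
      · exfalso
        obtain ⟨r, _, h4, h5⟩ := h.at'.filt.dir q hq p' hp'
        exact hn r h5 (τ.A k) ⟨k, w, rfl, rfl, (stc (τ.c k) w).lower h4 hqc⟩
    · intro hx
      obtain ⟨k, hk, ⟨q, hq, hqc⟩, rfl⟩ := mem_val.1 hx
      refine ⟨val U H (stN (τ.A k)), cw U H (wd q), ⟨q, hq, wd q, Pre_wd q, rfl⟩, ?_,
        (ih k hk).symm⟩
      rw [cw, ← val_opN hne h.pr (hcl _ hk) (wN_U h _), stN_def, mem_val]
      refine ⟨(k, wd q), opN_U h.pr (hcl _ hk) (wN_U h _), ⟨q, hq, ?_⟩, rfl⟩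
      show q ∈ stc (τ.c k) (wd q)
      refine mem_stc.2 ⟨q, le_rfl, (wd_length q).symm, ?_⟩
      refine (τ.c k).lower ?_ hqc
      exact ⟨le_rfl, fun n hn => wd_getD q hn, fun n x b hb => hb⟩

/-! ### Sharp translation: evaluating `P`-names -/

/-- being a member -/
def Sub (σ τ : Nm) : Prop := ∃ k : τ.ι, σ = τ.A k

lemma Sub_wf : WellFounded Sub := by
  refine ⟨fun τ => ?_⟩
  induction τ using Name.ind with
  | h τ ih =>
    refine ⟨_, ?_⟩
    rintro _ ⟨k, rfl⟩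
    exact ih k

/-- indices for the sharp translation -/
abbrev Idx (τ : Nm) : Type :=
  (Σ (k : τ.ι) (l : (τ.A k).ι), ((τ.A k).A l).ι) × List Bool

/-- the member of a member of a member -/
def sb (τ : Nm) (z : Idx τ) : Nm := ((τ.A z.1.1).A z.1.2.1).A z.1.2.2

lemma sb_rel (τ : Nm) (z : Idx τ) : Relation.TransGen Sub (sb τ z) τ :=
  ((Relation.TransGen.single ⟨_, rfl⟩).tail ⟨_, rfl⟩).tail ⟨_, rfl⟩

/-- member of member of member -/
def Sub3 (σ τ : Nm) : Prop := ∃ ρ ρ', Sub σ ρ ∧ Sub ρ ρ' ∧ Sub ρ' τ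

lemma Sub3_iff {σ τ : Nm} : Sub3 σ τ ↔ ∃ z : Idx τ, sb τ z = σ := by
  constructor
  · rintro ⟨_, _, ⟨m, rfl⟩, ⟨l, rfl⟩, ⟨k, rfl⟩⟩
    exact ⟨(⟨k, l, m⟩, []), rfl⟩
  · rintro ⟨z, rfl⟩
    exact ⟨_, _, ⟨z.1.2.2, rfl⟩, ⟨z.1.2.1, rfl⟩, ⟨z.1.1, rfl⟩⟩

lemma ind3 {C : Nm → Prop} (τ : Nm) (h : ∀ τ, (∀ σ, Sub3 σ τ → C σ) → C τ) : C τ := by
  induction τ using Sub_wf.transGen.induction with
  | _ τ ih =>
    refine h τ (fun σ hσ => ih σ ?_)
    obtain ⟨z, rfl⟩ := Sub3_iff.1 hσ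
    exact sb_rel τ z

/-- conditions of the sharp translation -/
noncomputable def shc (τ σ : Nm) (w : List Bool) : LowerSet Cond :=
  lo (fun q => fmem (opN σ (wN w)) τ q ∧ Pre w q)

lemma mem_shc {τ σ : Nm} {w : List Bool} {q : Cond} :
    q ∈ shc τ σ w ↔ fmem (opN σ (wN w)) τ q ∧ Pre w q :=
  mem_lo (fun _ _ hp hq => ⟨fmem_mono hp.1 hq, hp.2.mono hq⟩)

/-- sharp translation -/
noncomputable def shN : Nm → Nm :=
  Sub_wf.transGen.fix fun τ F => Name.mk (Idx τ) (fun z => F (sb τ z) (sb_rel τ z))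
    (fun z => shc τ (sb τ z) z.2)

lemma shN_eq (τ : Nm) : shN τ = Name.mk (Idx τ) (fun z => shN (sb τ z))
    (fun z => shc τ (sb τ z) z.2) :=
  Sub_wf.transGen.fix_eq _ τ

lemma shN_idx {τ σ : Nm} (h : Sub3 σ τ) (w : List Bool) :
    ∃ k : (shN τ).ι, (shN τ).A k = shN σ ∧ (shN τ).c k = shc τ σ w := by
  obtain ⟨z, rfl⟩ := Sub3_iff.1 h
  rw [shN_eq τ]
  exact ⟨(z.1, w), rfl, rfl⟩

lemma shN_idx' {τ : Nm} (k : (shN τ).ι) : ∃ σ w, Sub3 σ τ ∧
    (shN τ).A k = shN σ ∧ (shN τ).c k = shc τ σ w := by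
  revert k
  rw [shN_eq τ]
  exact fun z => ⟨sb τ z, z.2, Sub3_iff.2 ⟨z, rfl⟩, rfl, rfl⟩

lemma Sub_Eqv {σ τ τ' : Nm} (h : Sub σ τ) (he : Eqv τ τ') : ∃ σ', Sub σ' τ' ∧ Eqv σ σ' := by
  obtain ⟨k, rfl⟩ := h
  obtain ⟨l, _, h2⟩ := ((Eqv_def _ _).1 he).1 k
  exact ⟨_, ⟨l, rfl⟩, h2⟩

lemma Sub3_Eqv {σ τ τ' : Nm} (h : Sub3 σ τ) (he : Eqv τ τ') : ∃ σ', Sub3 σ' τ' ∧ Eqv σ σ' := by
  obtain ⟨ρ, ρ', h1, h2, h3⟩ := h
  obtain ⟨ρ₁', h4, h5⟩ := Sub_Eqv h3 he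
  obtain ⟨ρ₁, h6, h7⟩ := Sub_Eqv h2 h5
  obtain ⟨σ', h8, h9⟩ := Sub_Eqv h1 h7
  exact ⟨σ', ⟨ρ₁, ρ₁', h8, h6, h4⟩, h9⟩

lemma Sub_act (α : Cond →o Cond) {σ τ : Nm} (h : Sub σ τ) : Sub (act α σ) (act α τ) := by
  obtain ⟨k, rfl⟩ := h
  obtain ⟨k', h1, _⟩ := act_idx α τ k
  exact ⟨k', h1.symm⟩

lemma Sub_act' (α : Cond →o Cond) {ρ τ : Nm} (h : Sub ρ (act α τ)) :
    ∃ σ, ρ = act α σ ∧ Sub σ τ := by
  obtain ⟨k, rfl⟩ := h
  obtain ⟨k', h1, _⟩ := act_idx' α τ k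
  exact ⟨_, h1, k', rfl⟩

lemma Sub3_act (α : Cond →o Cond) {σ τ : Nm} (h : Sub3 σ τ) : Sub3 (act α σ) (act α τ) := by
  obtain ⟨ρ, ρ', h1, h2, h3⟩ := h
  exact ⟨_, _, Sub_act α h1, Sub_act α h2, Sub_act α h3⟩

lemma Sub3_act' (α : Cond →o Cond) {ρ τ : Nm} (h : Sub3 ρ (act α τ)) :
    ∃ σ, ρ = act α σ ∧ Sub3 σ τ := by
  obtain ⟨a, b, h1, h2, h3⟩ := h
  obtain ⟨b', rfl, h3'⟩ := Sub_act' α h3
  obtain ⟨a', rfl, h2'⟩ := Sub_act' α h2
  obtain ⟨σ, rfl, h1'⟩ := Sub_act' α h1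
  exact ⟨σ, rfl, a', b', h1', h2', h3'⟩

lemma shc_congr {τ τ' σ σ' : Nm} (hτ : Eqv τ τ') (hσ : Eqv σ σ') (w : List Bool) :
    shc τ σ w = shc τ' σ' w := by
  ext q
  show q ∈ shc τ σ w ↔ q ∈ shc τ' σ' w
  rw [mem_shc, mem_shc]
  have h1 := Eqv_opN hσ (Eqv.refl (wN w))
  exact and_congr_left fun _ => ⟨fun h => fmem_congr (h1.feq q) (hτ.feq q) h,
    fun h => fmem_congr (h1.symm.feq q) (hτ.symm.feq q) h⟩

lemma Eqv_shN {σ τ : Nm} (h : Eqv σ τ) : Eqv (shN σ) (shN τ) := by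
  induction σ using ind3 generalizing τ with
  | h σ ih =>
    rw [Eqv_def]
    constructor
    · intro k
      obtain ⟨ρ, w, h1, h2, h3⟩ := shN_idx' k
      obtain ⟨ρ', h4, h5⟩ := Sub3_Eqv h1 h
      obtain ⟨l, h6, h7⟩ := shN_idx h4 w
      refine ⟨l, ?_, ?_⟩
      · rw [h3, h7, shc_congr h h5]
      · rw [h2, h6]
        exact ih ρ h1 h5
    · intro l
      obtain ⟨ρ', w, h1, h2, h3⟩ := shN_idx' l
      obtain ⟨ρ, h4, h5⟩ := Sub3_Eqv h1 h.symm
      obtain ⟨k, h6, h7⟩ := shN_idx h4 w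
      refine ⟨k, ?_, ?_⟩
      · rw [h3, h7, shc_congr h h5.symm]
      · rw [h2, h6]
        exact ih ρ h4 h5.symm

lemma pre_shc (b : ℕ → X → Bool) (τ σ : Nm) (w : List Bool) :
    pre (fl b) (shc τ σ w) = shc (act (fl b) τ) (act (fl b) σ) w := by
  ext q
  show fl b q ∈ shc τ σ w ↔ q ∈ shc (act (fl b) τ) (act (fl b) σ) w
  rw [mem_shc, mem_shc, Pre_fl, ← fmem_act_iff (fl_self b), act_opN, wN_Inv]

lemma act_shN (b : ℕ → X → Bool) (τ : Nm) : Eqv (act (fl b) (shN τ)) (shN (act (fl b) τ)) := by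
  induction τ using ind3 with
  | h τ ih =>
    rw [Eqv_def]
    constructor
    · intro k
      obtain ⟨k₀, h1, h2⟩ := act_idx' (fl b) (shN τ) k
      obtain ⟨ρ, w, h3, h4, h5⟩ := shN_idx' k₀
      obtain ⟨l, h6, h7⟩ := shN_idx (Sub3_act (fl b) h3) w
      refine ⟨l, ?_, ?_⟩
      · rw [h2, h5, h7, pre_shc]
      · rw [h1, h4, h6]
        exact ih ρ h3
    · intro l
      obtain ⟨ρ', w, h1, h2, h3⟩ := shN_idx' l
      obtain ⟨ρ, rfl, h4⟩ := Sub3_act' (fl b) h1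
      obtain ⟨k₀, h5, h6⟩ := shN_idx h4 w
      obtain ⟨k, h7, h8⟩ := act_idx (fl b) (shN τ) k₀
      refine ⟨k, ?_, ?_⟩
      · rw [h8, h6, h3, pre_shc]
      · rw [h7, h5, h2]
        exact ih ρ h4

lemma Sub3.HS {σ τ : Nm} (h : Sub3 σ τ) (hτ : HS τ) : HS σ := by
  obtain ⟨_, _, ⟨m, rfl⟩, ⟨l, rfl⟩, ⟨k, rfl⟩⟩ := h
  exact ((hτ.mem _).mem _).mem _

lemma Sub3.Loc {i : Ordinal.{0}} {σ τ : Nm} (h : Sub3 σ τ) (hτ : Loc i τ) : Loc i σ := by
  obtain ⟨_, _, ⟨m, rfl⟩, ⟨l, rfl⟩, ⟨k, rfl⟩⟩ := h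
  exact ((hτ.mem _).mem _).mem _

lemma HS_shN {τ : Nm} (h : HS τ) : HS (shN τ) := by
  induction τ using ind3 with
  | h τ ih =>
    rw [HS_def]
    obtain ⟨⟨m, hm⟩, _⟩ := (HS_def τ).1 h
    refine ⟨⟨m, fun b hb => (act_shN b τ).trans (Eqv_shN (hm b hb))⟩, fun k => ?_⟩
    obtain ⟨ρ, w, h1, h2, _⟩ := shN_idx' k
    rw [h2]
    exact ih ρ h1 (h1.HS h)

lemma Loc_shN {i : Ordinal.{0}} {τ : Nm} (h : Loc i τ) : Loc i (shN τ) := by
  induction τ using ind3 with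
  | h τ ih =>
    rw [shN_eq]
    refine act_mk_of (fun z => ih _ (Sub3_iff.2 ⟨z, rfl⟩) ((Sub3_iff.2 ⟨z, rfl⟩ : Sub3 (sb τ z) τ).Loc h))
      (fun z => ?_)
    have hz : Loc i (sb τ z) := (Sub3_iff.2 ⟨z, rfl⟩ : Sub3 (sb τ z) τ).Loc h
    ext q
    show rl i q ∈ shc τ (sb τ z) z.2 ↔ q ∈ shc τ (sb τ z) z.2
    rw [mem_shc, mem_shc, Pre_rs]
    refine and_congr_left fun _ => (fmem_rs (fun b hb hbZ => ?_) (fun b hb hbZ => ?_)).symm
    · rw [act_opN, wN_Inv, hz.fl (fun n x hx => hbZ n x hx)]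
      exact Eqv.refl _
    · exact Eqv.of_eq (h.fl (fun n x hx => hbZ n x hx))

lemma NW_shN {τ : Nm} (h : τ ∈ NW) : shN τ ∈ NW :=
  ⟨HS_shN h.1, h.2.imp fun _ hi => Loc_shN hi⟩

/-- closure task for sharp -/
def shT : Task Nm Cond := TF 1 fun v _ ρ => ρ = shN (v 0)

/-- witness task for sharp -/
def shwT : Task Nm Cond := TF 2 fun v q ρ => ∃ w : List Bool,
  Sub3 ρ (v 0) ∧ v 1 = shN ρ ∧ fmem (opN ρ (wN w)) (v 0) q ∧ Pre w q

theorem val_shN {U : Set Nm} {H : Set Cond} (h : GoodP U H) (hsh : Meets U H shT)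
    (hshw : Meets U H shwT) {τ : Nm} (hτ : τ ∈ U) :
    val U H (shN τ) = nameVal (Gen U H) (val U H τ) := by
  have hcl : ∀ σ ∈ U, shN σ ∈ U := fun σ hσ =>
    closed_of (F := fun v => shN (v 0)) hsh (v := fun _ => σ) (fun _ => hσ)
  have hne := h.at'.filt.ne
  induction τ using ind3 with
  | h τ ih =>
    ext x
    rw [mem_nameVal]
    constructor
    · intro hx
      obtain ⟨k, hk, ⟨q, hq, hqc⟩, rfl⟩ := mem_val.1 hx
      obtain ⟨σ, w, h1, h2, h3⟩ := shN_idx' k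
      rw [h3, mem_shc] at hqc
      rw [h2] at hk ⊢
      rcases meets_TF hshw ![τ, shN σ] (forall2 hτ hk) with
        ⟨q₂, hq₂, ρ, hρ, w₂, h4, h5, h6, h7⟩ | ⟨p', hp', hn⟩
      · have h5' : shN σ = shN ρ := h5
        refine ⟨val U H ρ, cw U H w₂, ⟨q₂, hq₂, w₂, h7, rfl⟩, ?_, ?_⟩
        · rw [cw, ← val_opN hne h.pr hρ (wN_U h w₂)]
          exact (val_mem_iff h.at' (opN_U h.pr hρ (wN_U h w₂)) hτ).2 ⟨q₂, hq₂, h6⟩
        · rw [h5', ih ρ h4 hρ]
      · exfalso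
        obtain ⟨r, _, h4, h5⟩ := h.at'.filt.dir q hq p' hp'
        exact hn r h5 σ ⟨w, h1, rfl, fmem_mono hqc.1 h4, hqc.2.mono h4⟩
    · rintro ⟨σ, p, hp, hσp, rfl⟩
      obtain ⟨q₀, hq₀, w, hw, rfl⟩ := hp
      obtain ⟨k, hk, _, he⟩ := mem_val.1 hσp
      have h1 : ({σ} : ZFSet.{0}) ∈ ZFSet.pair σ (cw U H w) := by
        rw [ZFSet.pair, ZFSet.mem_pair]
        exact Or.inl rfl
      rw [he] at h1
      obtain ⟨l, hl, _, he2⟩ := mem_val.1 h1
      have h2 : σ ∈ ({σ} : ZFSet.{0}) := ZFSet.mem_singleton.2 rfl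
      rw [he2] at h2
      obtain ⟨m, hm, _, he3⟩ := mem_val.1 h2
      have hS : Sub3 (((τ.A k).A l).A m) τ := ⟨_, _, ⟨m, rfl⟩, ⟨l, rfl⟩, ⟨k, rfl⟩⟩
      have h3 : val U H (opN (((τ.A k).A l).A m) (wN w)) ∈ val U H τ := by
        rw [val_opN hne h.pr hm (wN_U h w), ← he3]
        exact hσp
      obtain ⟨r, hr, hf⟩ := (val_mem_iff h.at' (opN_U h.pr hm (wN_U h w)) hτ).1 h3
      obtain ⟨r', hr', h4, h5⟩ := h.at'.filt.dir r hr q₀ hq₀
      obtain ⟨k', h6, h7⟩ := shN_idx hS w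
      refine mem_val.2 ⟨k', by rw [h6]; exact hcl _ hm, ⟨r', hr', ?_⟩, ?_⟩
      · rw [h7, mem_shc]
        exact ⟨fmem_mono hf h4, hw.mono h5⟩
      · rw [h6, ih _ hS hm, he3]

/-- all tasks for the extension -/
structure GoodE (U : Set Nm) (H : Set Cond) : Prop where
  P : GoodP U H
  st : Meets U H stT
  stw : Meets U H stwT
  sh : Meets U H shT
  shw : Meets U H shwT

/-- The big model is the generic extension of the ground model. -/
theorem Ext_eq {U : Set Nm} {H : Set Cond} (h : GoodE U H) :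
    Ext (Mod U H NV) (Gen U H) = Mod U H NW := by
  ext x
  constructor
  · rintro ⟨_, ⟨τ, h1, h2, rfl⟩, rfl⟩
    rw [← val_shN h.P h.sh h.shw h2]
    exact ⟨shN τ, NW_shN (NV_sub_NW h1),
      closed_of (F := fun v => shN (v 0)) h.sh (v := fun _ => τ) (fun _ => h2), rfl⟩
  · rintro ⟨τ, h1, h2, rfl⟩
    refine ⟨val U H (stN τ), ⟨stN τ, NV_stN h1,
      closed_of (F := fun v => stN (v 0)) h.st (v := fun _ => τ) (fun _ => h2), rfl⟩, ?_⟩
    exact (nameVal_stN h.P h.st h.stw h2).symm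

end Pool.MP_3ade05_lc
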