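import Mathlib
import Pool.Agent.Lib.MP_3ade05_lc.Ext

/-!
# MP_3ade05_lc: the ground model is not definable in its Cohen extension
-/

namespace Pool.MP_3ade05_lc

open Set Name Cond

/-! ### Names for the classes of the generic subsets of level `i` -/

/-- the index type of the elements of level `i` (one copy for each block) -/
def Pt (i : Ordinal.{0}) : Type := ℕ × Lev i

noncomputable instance (i : Ordinal.{0}) : LinearOrder (Pt i) :=
  (exists_wellFoundedLT (Pt i)).choose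

instance (i : Ordinal.{0}) : WellFoundedLT (Pt i) :=
  (exists_wellFoundedLT (Pt i)).choose_spec

/-- the point `(n, ξ)` -/
def pt (i : Ordinal.{0}) (n : ℕ) (ξ : Lev i) : Pt i := (n, ξ)

/-- the name of the point `(n, ξ)` -/
noncomputable def eN (i : Ordinal.{0}) (n : ℕ) (ξ : Lev i) : Nm := en (pt i n ξ)

lemma eN_Inv (i : Ordinal.{0}) (n : ℕ) (ξ : Lev i) : Inv (eN i n ξ) := en_Inv _

lemma eN_inj {i : Ordinal.{0}} {n n' : ℕ} {ξ η : Lev i} {p : Cond}
    (h : feq (eN i n ξ) (eN i n' η) p) : n = n' ∧ ξ = η := by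
  have h' : pt i n ξ = pt i n' η := en_inj h
  exact Prod.mk.inj h'

/-- the name of the `b`-modification of the `n`-th generic subset of level `i` -/
noncomputable def yN (i : Ordinal.{0}) (n : ℕ) (b : Lev i → Bool) : Nm :=
  Name.mk (Lev i) (fun ξ => eN i n ξ) (fun ξ => lo (fun q => q.f n ⟨i, ξ⟩ = some (b ξ)))

lemma mem_yc {i : Ordinal.{0}} {n : ℕ} {b : Lev i → Bool} {ξ : Lev i} {q : Cond} :
    q ∈ lo (fun q => q.f n ⟨i, ξ⟩ = some (b ξ)) ↔ q.f n ⟨i, ξ⟩ = some (b ξ) :=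
  mem_lo (fun _ _ hp hq => hq.2.2 _ _ _ hp)

/-- small modifications -/
abbrev SB (i : Ordinal.{0}) : Type := {b : Lev i → Bool // Cardinal.mk {ξ | b ξ = true} ≤ lam i}

/-- the name of the sequence of the classes of the generic subsets of level `i` -/
noncomputable def xN (i : Ordinal.{0}) : Nm :=
  Name.mk (ℕ × SB i) (fun z => yN i z.1 z.2.1) (fun _ => ⊤)

lemma act_yN_fl (b' : ℕ → X → Bool) (i : Ordinal.{0}) (n : ℕ) (b : Lev i → Bool) :
    act (fl b') (yN i n b) = yN i n (fun ξ => xor (b' n ⟨i, ξ⟩) (b ξ)) := by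
  unfold yN
  rw [act_mk]
  congr 1
  · funext ξ
    exact eN_Inv _ _ _ _
  · funext ξ
    ext q
    show fl b' q ∈ lo (fun q => q.f n ⟨i, ξ⟩ = some (b ξ)) ↔
      q ∈ lo (fun q => q.f n ⟨i, ξ⟩ = some (xor (b' n ⟨i, ξ⟩) (b ξ)))
    rw [mem_yc, mem_lo (fun _ _ hp hq => hq.2.2 _ _ _ hp), tw_f]
    cases q.f n ⟨i, ξ⟩ with
    | none => simp
    | some c =>
      simp only [Option.map_some, Option.some.injEq]
      cases b' n ⟨i, ξ⟩ <;> cases b ξ <;> cases c <;> simp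

lemma yN_NV (i : Ordinal.{0}) (n : ℕ) (b : Lev i → Bool) : yN i n b ∈ NV := by
  refine ⟨?_, ⟨i + 1, ?_⟩, fun u => ?_⟩
  · rw [HS_def]
    refine ⟨⟨n + 1, fun b' hb' => ?_⟩, fun k => (eN_Inv _ _ _).HS⟩
    rw [act_yN_fl]
    have : (fun ξ => xor (b' n ⟨i, ξ⟩) (b ξ)) = b := by
      funext ξ
      rw [hb'.2 n (Nat.lt_succ_self n)]
      simp
    rw [this]
    exact Eqv.refl _
  · refine act_mk_of (fun k => eN_Inv _ _ _ _) (fun ξ => ?_)
    ext q
    show rl (i + 1) q ∈ lo (fun q => q.f n ⟨i, ξ⟩ = some (b ξ)) ↔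
      q ∈ lo (fun q => q.f n ⟨i, ξ⟩ = some (b ξ))
    rw [mem_yc, mem_yc, rs_f_pos (Z := below (i + 1)) (x := ⟨i, ξ⟩) (lt_add_one i)]
  · refine act_mk_of (fun k => eN_Inv _ _ _ _) (fun ξ => ?_)
    ext q
    show fr u q ∈ lo (fun q => q.f n ⟨i, ξ⟩ = some (b ξ)) ↔
      q ∈ lo (fun q => q.f n ⟨i, ξ⟩ = some (b ξ))
    rw [mem_yc, mem_yc, tw_f]
    cases q.f n ⟨i, ξ⟩ <;> simp

lemma Eqv_act_xN (i : Ordinal.{0}) {b' : ℕ → X → Bool} (hb' : Sml b') :
    Eqv (act (fl b') (xN i)) (xN i) := by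
  have hsm : ∀ (n : ℕ) (b : SB i),
      Cardinal.mk {ξ | xor (b' n ⟨i, ξ⟩) (b.1 ξ) = true} ≤ lam i := by
    intro n b
    have hsub : {ξ | xor (b' n ⟨i, ξ⟩) (b.1 ξ) = true} ⊆
        {ξ : Lev i | (⟨i, ξ⟩ : X) ∈ {x | b' n x = true}} ∪ {ξ | b.1 ξ = true} := by
      intro ξ hξ
      simp only [mem_ofPred_eq, mem_union] at hξ ⊢
      cases h1 : b' n ⟨i, ξ⟩ <;> cases h2 : b.1 ξ <;> simp [h1, h2] at hξ ⊢
    refine (Cardinal.mk_le_mk_of_subset hsub).trans ((Cardinal.mk_union_le _ _).trans ?_)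
    exact Cardinal.add_le_of_le (lam_aleph0 i) (hb' n i) b.2
  let F : ℕ → SB i → SB i := fun n b => ⟨fun ξ => xor (b' n ⟨i, ξ⟩) (b.1 ξ), hsm n b⟩
  have hF : ∀ n b, act (fl b') (yN i n b.1) = yN i n (F n b).1 := fun n b => act_yN_fl b' i n b.1
  have hFF : ∀ n b, F n (F n b) = b := by
    intro n b
    apply Subtype.ext
    funext ξ
    show xor (b' n ⟨i, ξ⟩) (xor (b' n ⟨i, ξ⟩) (b.1 ξ)) = b.1 ξ
    simp
  refine ⟨fun z => ⟨(z.1, F z.1 z.2), pre_top _, Eqv.of_eq (hF _ _)⟩,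
    fun z => ⟨(z.1, F z.1 z.2), pre_top _, Eqv.of_eq ?_⟩⟩
  show act (fl b') (yN i z.1 (F z.1 z.2).1) = yN i z.1 z.2.1
  rw [hF, hFF]

lemma xN_NV (i : Ordinal.{0}) : xN i ∈ NV := by
  refine ⟨?_, ⟨i + 1, ?_⟩, fun u => ?_⟩
  · rw [HS_def]
    exact ⟨⟨0, fun b' hb' => Eqv_act_xN i hb'.1⟩, fun z => (yN_NV i z.1 z.2.1).1⟩
  · refine act_mk_of (fun z => ?_) (fun z => pre_top _)
    unfold yN
    refine act_mk_of (fun k => eN_Inv _ _ _ _) (fun ξ => ?_)
    ext q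
    show rl (i + 1) q ∈ lo (fun q => q.f z.1 ⟨i, ξ⟩ = some (z.2.1 ξ)) ↔
      q ∈ lo (fun q => q.f z.1 ⟨i, ξ⟩ = some (z.2.1 ξ))
    rw [mem_yc, mem_yc, rs_f_pos (Z := below (i + 1)) (x := ⟨i, ξ⟩) (lt_add_one i)]
  · exact act_mk_of (fun z => (yN_NV i z.1 z.2.1).2.2 u) (fun z => pre_top _)

lemma exists_bit {r : Cond} {n : ℕ} (hn : n < r.len) {x : X} (hx : r.f n x = none) (c : Bool) :
    ∃ r' ≤ r, r'.f n x = some c ∧ r'.s = r.s := by
  classical
  refine ⟨⟨r.len, r.s, fun m y => if m = n ∧ y = x then some c else r.f m y, ?_, ?_, ?_⟩, ?_, ?_,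
    rfl⟩
  · intro m hm y
    rw [if_neg (fun h => by omega)]
    exact r.tail m hm y
  · intro m
    refine ((r.sm m).union (Sm.singleton x)).mono (fun y hy => ?_)
    by_cases h : y = x
    · exact Or.inr h
    · rw [mem_ofPred_eq, if_neg (fun h' => h h'.2)] at hy
      exact Or.inl hy
  · obtain ⟨j, hj⟩ := r.bd
    refine ⟨max j (x.1 + 1), fun m y hy => ?_⟩
    by_cases h : y = x
    · rw [h]
      exact lt_max_of_lt_right (lt_add_one _)
    · rw [if_neg (fun h' => h h'.2)] at hy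
      exact lt_max_of_lt_left (hj m y hy)
  · refine ⟨le_rfl, fun _ _ => rfl, fun m y b hb => ?_⟩
    show (if m = n ∧ y = x then some c else r.f m y) = some b
    rw [if_neg]
    · exact hb
    · rintro ⟨rfl, rfl⟩
      rw [hx] at hb
      exact absurd hb (by simp)
  · show (if n = n ∧ x = x then some c else r.f n x) = some c
    rw [if_pos ⟨rfl, rfl⟩]

/-- The two twisted versions of the name `xN i` are never equal. -/
lemma key_contra {i : Ordinal.{0}} {q : Cond} {n : ℕ} (hn : n < q.len) (hs : q.s n = true)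
    (h : feq (act (th i (fun _ => false)) (xN i))
      (act (th i (fun k => decide (k = n))) (xN i)) q) : False := by
  have hzero : Cardinal.mk {ξ : Lev i | (fun _ => false : Lev i → Bool) ξ = true} ≤ lam i := by
    have : {ξ : Lev i | (fun _ => false : Lev i → Bool) ξ = true} = ∅ := by
      ext ξ; simp
    rw [this]
    simp
  have h1 := ((feq_def _ _ _).1 h).1 q le_rfl (n, ⟨fun _ => false, hzero⟩) trivial
  obtain ⟨r, hr, ⟨n', b'⟩, _, hf⟩ := h1
  have hf' : feq (act (th i (fun _ => false)) (yN i n (fun _ => false)))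
    (act (th i (fun k => decide (k = n))) (yN i n' b'.1)) r := hf
  -- choose a point
  obtain ⟨ξ, hξ⟩ : ∃ ξ : Lev i, r.f n ⟨i, ξ⟩ = none ∧ b'.1 ξ = false := by
    by_contra hcon
    push Not at hcon
    have hle : Cardinal.mk (Lev i) ≤ lam i := by
      rw [← Cardinal.mk_univ]
      have hsub : (Set.univ : Set (Lev i)) ⊆
          {ξ : Lev i | (⟨i, ξ⟩ : X) ∈ {x | r.f n x ≠ none}} ∪ {ξ | b'.1 ξ = true} := by
        intro ξ _
        by_cases h2 : r.f n ⟨i, ξ⟩ = none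
        · refine Or.inr ?_
          have := hcon ξ h2
          simpa using this
        · exact Or.inl h2
      refine (Cardinal.mk_le_mk_of_subset hsub).trans ((Cardinal.mk_union_le _ _).trans ?_)
      exact Cardinal.add_le_of_le (lam_aleph0 i) (r.sm n i) b'.2
    exact absurd (lam_lt i) (not_lt.2 hle)
  have hnr : n < r.len := lt_of_lt_of_le hn hr.1
  have hsr : r.s n = true := by rw [hr.2.1 n hn, hs]
  obtain ⟨r₁, hr₁, hbit, hs₁⟩ := exists_bit hnr hξ.1 true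
  have h2 : ∃ r₂ ≤ r₁, ∃ η : Lev i, th i (fun k => decide (k = n)) r₂ ∈
      lo (fun q => q.f n' ⟨i, η⟩ = some (b'.1 η)) ∧
      feq (act (th i (fun _ => false)) (eN i n ξ))
        (act (th i (fun k => decide (k = n))) (eN i n' η)) r₂ :=
    ((feq_def _ _ _).1 hf').1 r₁ hr₁ ξ (by
      show th i (fun _ => false) r₁ ∈ lo (fun q => q.f n ⟨i, ξ⟩ = some false)
      rw [mem_lo (fun _ _ hp hq => hq.2.2 _ _ _ hp), tw_f, hbit, hs₁, hsr]
      simp)
  obtain ⟨r₂, hr₂, η, hη', hfe'⟩ := h2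
  rw [eN_Inv, eN_Inv] at hfe'
  obtain ⟨rfl, rfl⟩ := eN_inj hfe'
  rw [mem_yc, tw_f, hr₂.2.2 n _ _ hbit, hξ.2] at hη'
  have hs₂ : r₂.s n = true := by
    rw [hr₂.2.1 n (lt_of_lt_of_le hnr hr₁.1), hs₁, hsr]
  rw [hs₂] at hη'
  simp at hη'

/-! ### Non-definability -/

/-- task (a) -/
def aT {n : ℕ} (φ : Fml (n + 1)) : Task Nm Cond := TF n fun v q ρ =>
  ρ ∈ NV ∧ ∀ r ≤ q, ¬ Fc NW φ (Fin.cons ρ v) r

/-- task (b) -/
def bT {n : ℕ} (φ : Fml (n + 1)) : Task Nm Cond := TF n fun v q ρ =>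
  ρ ∈ NW ∧ Fc NW φ (Fin.cons ρ v) q ∧ ∀ σ ∈ NV, ∀ r ≤ q, ¬ feq ρ σ r

theorem not_definable {U : Set Nm} {H : Set Cond} (hW : Full U H NW)
    (ha : ∀ {n : ℕ} (φ : Fml (n + 1)), Meets U H (aT φ))
    (hb : ∀ {n : ℕ} (φ : Fml (n + 1)), Meets U H (bT φ)) :
    ¬ DefinableWithParams (Mod U H NW) (Mod U H NV) := by
  rintro ⟨n, φ, v, hv, hdef⟩
  choose π hπ hπU hvπ using hv
  obtain rfl : v = fun j => val U H (π j) := funext hvπ
  have hF := hW.at'.filt
  -- every V-name is forced to satisfy φ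
  obtain ⟨pa, hpa, hA⟩ : ∃ pa ∈ H, ∀ ρ ∈ NV, Fc NW φ (Fin.cons ρ π) pa := by
    rcases meets_TF (ha φ) π hπU with ⟨q, hq, ρ, hρ, h1, h2⟩ | ⟨p, hp, hn⟩
    · exfalso
      have h3 : val U H ρ ∈ Mod U H NV := ⟨ρ, h1, hρ, rfl⟩
      rw [hdef] at h3
      have h4 := h3.2
      rw [← comp_cons] at h4
      obtain ⟨q', hq', h5⟩ := (truth hW φ _ (forall_cons (Q := (· ∈ U)) hρ hπU)).1 h4
      obtain ⟨r, _, h6, h7⟩ := hF.dir q hq q' hq'
      exact h2 r h6 (Fc_mono h5 h7)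
    · refine ⟨p, hp, fun ρ hρ => Fc_reg fun q hq => ?_⟩
      by_contra hcon
      push Not at hcon
      exact hn q hq ρ ⟨hρ, hcon⟩
  obtain ⟨pb, hpb, hB⟩ : ∃ pb ∈ H, ∀ q ≤ pb, ∀ ρ ∈ NW, Fc NW φ (Fin.cons ρ π) q →
      ∃ σ ∈ NV, ∃ r ≤ q, feq ρ σ r := by
    rcases meets_TF (hb φ) π hπU with ⟨q, hq, ρ, hρ, h1, h2, h3⟩ | ⟨p, hp, hn⟩
    · exfalso
      have h4 : val U H ρ ∈ Mod U H NV := by
        rw [hdef]
        refine ⟨⟨ρ, h1, hρ, rfl⟩, ?_⟩
        rw [← comp_cons]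
        exact (truth hW φ _ (forall_cons (Q := (· ∈ U)) hρ hπU)).2 ⟨q, hq, h2⟩
      obtain ⟨σ, hσ, hσU, he⟩ := h4
      obtain ⟨q', hq', h5⟩ := (val_eq_iff hW.at' hρ hσU).1 he
      obtain ⟨r, _, h6, h7⟩ := hF.dir q hq q' hq'
      exact h3 σ hσ r h6 (feq_mono h5 h7)
    · refine ⟨p, hp, fun q hq ρ hρ hf => ?_⟩
      by_contra hcon
      push Not at hcon
      exact hn q hq ρ ⟨hρ, hf, fun σ hσ r hr => hcon σ hσ r hr⟩
  obtain ⟨p₀, _, hpa0, hpb0⟩ := hF.dir pa hpa pb hpb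
  -- a level above everything
  obtain ⟨i₁, hi₁⟩ : ∃ i, ∀ j, Loc i (π j) := by
    choose f hf using fun j => (hπ j).2
    exact ⟨iSup f, fun j => (hf j).mono (Ordinal.le_iSup f j)⟩
  obtain ⟨i₂, hi₂⟩ := exists_rl p₀
  set i := max i₁ i₂ with hi
  have hπi : ∀ j, Loc i (π j) := fun j => (hi₁ j).mono (le_max_left _ _)
  have hp0i : rl i p₀ = p₀ := hi₂ i (le_max_right _ _)
  have hrl : ∀ e p, rl i (th i e p) = rl i p := fun e p => rl_tw (fun n s x hx => by
    have : decide (x.1 = i) = false := by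
      rw [decide_eq_false_iff_not]
      exact ne_of_lt hx
    simp [this]) p
  set t := th i (fun _ => false) with ht
  have htp : t p₀ = p₀ := by
    have h1 : t (rl i p₀) = rl i (t p₀) := (rs_tw _ _ _ _).symm
    rw [hp0i, hrl] at h1
    rw [h1, hp0i]
  have htπ : (fun j => act t (π j)) = π := funext fun j => (hπi j).fix (hrl _)
  have hX := xN_NV i
  -- transport
  have h1 : Fc NW φ (Fin.cons (act t (xN i)) π) p₀ := by
    have h2 : Fc NW φ (Fin.cons (xN i) π) (t p₀) := by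
      rw [htp]
      exact Fc_mono (hA _ hX) hpa0
    have h3 := (Fc_act (th_self i _) (fun σ hσ => NW_th i _ hσ) (φ := φ)
      (v := Fin.cons (xN i) π) (p := p₀)).2 h2
    rw [comp_cons, htπ] at h3
    exact h3
  obtain ⟨σ, hσ, r, hr, hf⟩ := hB p₀ hpb0 _ (NW_th i _ (NV_sub_NW hX)) h1
  -- extend so that the next bit is true
  let q₁ : Cond := ⟨r.len + 1, fun k => if k = r.len then true else r.s k, r.f,
    fun n hn x => r.tail n (by omega) x, r.sm, r.bd⟩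
  have hq₁ : q₁ ≤ r := by
    refine ⟨Nat.le_succ _, fun n hn => ?_, fun _ _ _ h => h⟩
    show (if n = r.len then true else r.s n) = r.s n
    rw [if_neg (by omega)]
  let e : ℕ → Bool := fun k => decide (k = r.len)
  have hq₂ : fr e q₁ ≤ r := by
    refine ⟨Nat.le_succ _, fun n hn => ?_, fun n x b hb => ?_⟩
    · show xor (if n = r.len then true else r.s n) (decide (n = r.len)) = r.s n
      have : n ≠ r.len := by omega
      simp [this]
    · show (r.f n x).map _ = some b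
      rw [hb]
      simp
  have hf1 : feq (act t (xN i)) σ q₁ := feq_mono hf hq₁
  have hf2 : feq (act t (xN i)) σ (fr e q₁) := feq_mono hf hq₂
  rw [← feq_act_iff (fr_self e), hσ.2.2 e] at hf2
  have hcomm : act (fr e) (act t (xN i)) = act (th i e) (xN i) := by
    have h4 : act (fr e) (act t (xN i)) = act (th i e) (act (fr e) (xN i)) := by
      rw [act_act, act_act]
      refine act_congr (fun p => ?_) _
      show th i (fun _ => false) (fr e p) = fr e (th i e p)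
      have h5 := fr_th e i (fun _ => false) p
      simp only [Bool.false_xor] at h5
      exact h5.symm
    rw [h4, hX.2.2 e]
  rw [hcomm] at hf2
  refine key_contra (i := i) (q := q₁) (n := r.len) (Nat.lt_succ_self _) (if_pos rfl) ?_
  exact feq_trans hf1 (feq_symm hf2)

/-! ### Assembly -/

/-- all tasks -/
def allTasks : Set (Task Nm Cond) :=
  {memT, neqT, uniT, prT, powT, pwT, genT, stT, stwT, shT, shwT, seedT omN, seedT PN, seedT leN}
  ∪ range (fun n : ℕ => seedT (en n))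
  ∪ range (fun x : Σ n, Fml n => decT NV x.2)
  ∪ range (fun x : Σ n, Fml n => decT NW x.2)
  ∪ range (fun x : Σ n, Fml (n + 1) => allT NV x.2)
  ∪ range (fun x : Σ n, Fml (n + 1) => allT NW x.2)
  ∪ range (fun x : Σ n, Fml (n + 1) => sepT x.2)
  ∪ range (fun x : Σ n, Fml (n + 2) => colT x.2)
  ∪ range (fun x : Σ n, Fml (n + 2) => cwT x.2)
  ∪ range (fun x : Σ n, Fml (n + 1) => aT x.2)
  ∪ range (fun x : Σ n, Fml (n + 1) => bT x.2)

lemma allTasks_countable : allTasks.Countable := by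
  unfold allTasks
  simp only [countable_union]
  refine ⟨⟨⟨⟨⟨⟨⟨⟨⟨⟨?_, ?_⟩, ?_⟩, ?_⟩, ?_⟩, ?_⟩, ?_⟩, ?_⟩, ?_⟩, ?_⟩, ?_⟩
  · exact (Set.toFinite _).countable
  all_goals exact countable_range _

/-- The main theorem. -/
theorem main : ∃ (V : Set ZFSet.{0}) (P le : ZFSet.{0}) (G : Set ZFSet.{0}),
    V.Countable ∧ (∀ x ∈ V, ∀ y ∈ x, y ∈ V) ∧ ZFModel V ∧ P ∈ V ∧ le ∈ V ∧
    IsForcing P le ∧ IsCohen P le ∧ IsGeneric V P le G ∧ V ⊆ Ext V G ∧
    ¬ DefinableWithParams (Ext V G) V := by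
  obtain ⟨U, H, hcount, hfilt, _, hR⟩ := exists_generic allTasks allTasks_countable triv
  have hbase : ∀ R ∈ ({memT, neqT, uniT, prT, powT, pwT, genT, stT, stwT, shT, shwT,
      seedT omN, seedT PN, seedT leN} : Set (Task Nm Cond)), Meets U H R := fun R hR' =>
    hR R (by
      unfold allTasks
      simp only [mem_union]
      exact Or.inl (Or.inl (Or.inl (Or.inl (Or.inl (Or.inl (Or.inl (Or.inl (Or.inl
        (Or.inl hR'))))))))))
  have hat : Atomic U H := ⟨hfilt, hbase _ (by simp), hbase _ (by simp)⟩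
  have hen : ∀ n : ℕ, Meets U H (seedT (en n)) := fun n => hR _ (by
    unfold allTasks
    simp only [mem_union]
    exact Or.inl (Or.inl (Or.inl (Or.inl (Or.inl (Or.inl (Or.inl (Or.inl (Or.inl
      (Or.inr ⟨n, rfl⟩))))))))))
  have hFV : Full U H NV := ⟨hat, fun {n} φ => hR _ (by
      unfold allTasks
      simp only [mem_union]
      exact Or.inl (Or.inl (Or.inl (Or.inl (Or.inl (Or.inl (Or.inl (Or.inl
        (Or.inr ⟨⟨n, φ⟩, rfl⟩))))))))), fun {n} φ => hR _ (by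
      unfold allTasks
      simp only [mem_union]
      exact Or.inl (Or.inl (Or.inl (Or.inl (Or.inl (Or.inl (Or.inr ⟨⟨n, φ⟩, rfl⟩)))))))⟩
  have hFW : Full U H NW := ⟨hat, fun {n} φ => hR _ (by
      unfold allTasks
      simp only [mem_union]
      exact Or.inl (Or.inl (Or.inl (Or.inl (Or.inl (Or.inl (Or.inl
        (Or.inr ⟨⟨n, φ⟩, rfl⟩)))))))), fun {n} φ => hR _ (by
      unfold allTasks
      simp only [mem_union]
      exact Or.inl (Or.inl (Or.inl (Or.inl (Or.inl (Or.inr ⟨⟨n, φ⟩, rfl⟩))))))⟩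
  have hGV : GoodV U H := ⟨hFV, fun {n} φ => hR _ (by
      unfold allTasks
      simp only [mem_union]
      exact Or.inl (Or.inl (Or.inl (Or.inl (Or.inr ⟨⟨n, φ⟩, rfl⟩))))), fun {n} φ => hR _ (by
      unfold allTasks
      simp only [mem_union]
      exact Or.inl (Or.inl (Or.inl (Or.inr ⟨⟨n, φ⟩, rfl⟩)))), fun {n} φ => hR _ (by
      unfold allTasks
      simp only [mem_union]
      exact Or.inl (Or.inl (Or.inr ⟨⟨n, φ⟩, rfl⟩))), hbase _ (by simp), hbase _ (by simp),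
      hbase _ (by simp), hbase _ (by simp), hen, hbase _ (by simp)⟩
  have hGP : GoodP U H := ⟨hat, hbase _ (by simp), hen, hbase _ (by simp), hbase _ (by simp),
    hbase _ (by simp)⟩
  have hGE : GoodE U H := ⟨hGP, hbase _ (by simp), hbase _ (by simp), hbase _ (by simp),
    hbase _ (by simp)⟩
  have hEq := Ext_eq hGE
  refine ⟨Mod U H NV, val U H PN, val U H leN, Gen U H, ?_, fun x hx y hy => Mod_trans hx hy,
    ZF_Mod hGV, ⟨PN, PN_Inv.NV, seed_U hGP.P, rfl⟩, ⟨leN, leN_Inv.NV, seed_U hGP.le, rfl⟩,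
    isForcing hGP, ⟨cw U H, fun w w' h => cw_inj hGP h, mem_P hGP, pair_le hGP⟩, isGeneric hGP,
    ?_, ?_⟩
  · refine (hcount.image (val U H)).mono ?_
    rintro _ ⟨σ, _, h2, rfl⟩
    exact ⟨σ, h2, rfl⟩
  · rw [hEq]
    rintro _ ⟨σ, h1, h2, rfl⟩
    exact ⟨σ, NV_sub_NW h1, h2, rfl⟩
  · rw [hEq]
    refine not_definable hFW (fun {n} φ => hR _ (by
      unfold allTasks
      simp only [mem_union]
      exact Or.inl (Or.inr ⟨⟨n, φ⟩, rfl⟩))) (fun {n} φ => hR _ (by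
      unfold allTasks
      simp only [mem_union]
      exact Or.inr ⟨⟨n, φ⟩, rfl⟩))

end Pool.MP_3ade05_lc
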